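import Pool.Agent.V11330.Donsker
import Pool.Agent.V11330.BMTools

set_option autoImplicit false

open Set Filter Topology MeasureTheory ProbabilityTheory
open scoped NNReal ENNReal unitInterval

namespace Pool.Agent.V11330.TB

open Y994.KW Pool.Agent.TH970

section
variable {W : Measure Pa}

lemma meas_ev (s : unitInterval) : Measurable (fun w : Pa => w s) :=
  (continuous_eval_const s).measurable

/-- the law of an increment -/
lemma incr_law (hW : IsBM 1 W) {s t : unitInterval} (hst : s ≤ t) :
    W.map (fun w : Pa => w t - w s) = gaussianReal 0 (Real.toNNReal ((t : ℝ) - s)) := by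
  obtain ⟨hP, h0, hinc⟩ := hW
  have h1 := hinc 1 ![s, t] (by
    intro i j hij
    fin_cases i <;> fin_cases j <;> simp_all)
  have hm : Measurable (fun (w : Pa) (j : Fin 1) => w (![s, t] j.succ) - w (![s, t] j.castSucc)) :=
    measurable_pi_lambda _ fun j => (meas_ev _).sub (meas_ev _)
  have h2 : W.map (fun w : Pa => w t - w s) = (W.map (fun (w : Pa) (j : Fin 1) =>
      w (![s, t] j.succ) - w (![s, t] j.castSucc))).map (fun x => x 0) := by
    rw [Measure.map_map (measurable_pi_apply 0) hm]
    congr 1
  rw [h2, h1]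
  have h3 := (measurePreserving_eval (fun j : Fin 1 => gaussianReal 0
    (1 * Real.toNNReal ((![s, t] j.succ : ℝ) - ![s, t] j.castSucc))) 0).map_eq
  have h4 : (fun x : Fin 1 → ℝ => x 0) = Function.eval 0 := rfl
  rw [h4, h3]
  simp

lemma indep_incr (hW : IsBM 1 W) : HasIndepIncrements (fun (s : unitInterval) (w : Pa) => w s) W := by
  have hW' := hW
  obtain ⟨hP, h0, hinc⟩ := hW
  intro n t ht
  have hm : ∀ j : Fin n, Measurable (fun w : Pa => w (t j.succ) - w (t j.castSucc)) := fun j =>
    (meas_ev _).sub (meas_ev _)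
  rw [iIndepFun_iff_map_fun_eq_pi_map (fun j => (hm j).aemeasurable), hinc n t ht]
  congr 1
  funext j
  rw [incr_law hW' (ht (Fin.castSucc_lt_succ (i := j)).le), one_mul]

lemma ev_law (hW : IsBM 1 W) (s : unitInterval) :
    HasLaw (fun w : Pa => w s) (gaussianReal 0 (Real.toNNReal (s : ℝ))) W := by
  refine ⟨(meas_ev s).aemeasurable, ?_⟩
  have h1 := incr_law hW (s := 0) (t := s) s.2.1
  have e0 : (((0 : unitInterval) : ℝ)) = 0 := rfl
  rw [e0, sub_zero] at h1
  rw [← h1]
  refine Measure.map_congr ?_
  filter_upwards [hW.2.1] with w hw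
  rw [hw, sub_zero]

lemma gauss (hW : IsBM 1 W) : IsGaussianProcess (fun (s : unitInterval) (w : Pa) => w s) W := by
  refine (indep_incr hW).isGaussianProcess (fun s => (ev_law hW s).hasGaussianLaw) ?_
  exact hW.2.1

lemma ev_mean (hW : IsBM 1 W) (s : unitInterval) : ∫ w, w s ∂W = 0 := by
  rw [(ev_law hW s).integral_eq, integral_id_gaussianReal]

lemma ev_L2 (hW : IsBM 1 W) (s : unitInterval) : MemLp (fun w : Pa => w s) 2 W :=
  (ev_law hW s).hasGaussianLaw.memLp_two

lemma ev_cov (hW : IsBM 1 W) {s t : unitInterval} (hst : s ≤ t) :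
    cov[fun w : Pa => w s, fun w : Pa => w t; W] = s := by
  have hP := hW.1
  have h1 := (indep_incr hW).indepFun_eval_sub (r := 0) (s := s) (t := t) s.2.1 hst hW.2.1
  have h1' : IndepFun (fun w : Pa => w s) (fun w : Pa => w t - w s) W := h1
  have h2 : (fun w : Pa => w t) = (fun w : Pa => w t - w s) + (fun w : Pa => w s) := by
    funext w; simp
  have hL : MemLp (fun w : Pa => w t - w s) 2 W := (ev_L2 hW t).sub (ev_L2 hW s)
  rw [h2, covariance_add_right (ev_L2 hW s) hL (ev_L2 hW s),
    h1'.covariance_eq_zero (ev_L2 hW s) hL, zero_add,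
    covariance_self (ev_L2 hW s).aestronglyMeasurable.aemeasurable,
    (ev_law hW s).variance_eq, variance_id_gaussianReal]
  exact Real.coe_toNNReal _ s.2.1

end

/-- the time change -/
noncomputable def sig (t : ℝ≥0) : unitInterval :=
  ⟨t / (1 + t), by positivity, by
    rw [div_le_one (by positivity)]; linarith⟩

lemma continuous_sig : Continuous sig := by
  refine Continuous.subtype_mk ?_ _
  refine NNReal.continuous_coe.div (continuous_const.add NNReal.continuous_coe) fun t => ?_
  have := t.2
  positivity

lemma sig_mono {s t : ℝ≥0} (h : s ≤ t) : sig s ≤ sig t := by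
  show (s : ℝ) / (1 + s) ≤ t / (1 + t)
  rw [div_le_div_iff₀ (by positivity) (by positivity)]
  have : (s : ℝ) ≤ t := by exact_mod_cast h
  nlinarith

/-- Brownian motion from a Brownian motion on the unit interval -/
noncomputable def XX (t : ℝ≥0) (w : Pa) : ℝ := (1 + t) * (w (sig t) - sig t * w 1)

theorem isBrownian_XX {W : Measure Pa} (hW : IsBM 1 W) : IsBrownianReal XX W := by
  have hP := hW.1
  have hL := ev_L2 hW
  have hint : ∀ s, Integrable (fun w : Pa => w s) W := fun s => (hL s).integrable (by norm_num)
  refine ⟨?_, ae_of_all _ fun w => ?_⟩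
  · refine IsGaussianProcess.isPreBrownianReal_of_covariance ?_ (fun t => ?_) (fun s t hst => ?_)
    · refine (gauss hW).of_isGaussianProcess fun t => ?_
      exact ⟨{sig t, 1},
        { toFun x := (1 + (t : ℝ)) * (x ⟨sig t, by simp⟩ - sig t * x ⟨1, by simp⟩)
          map_add' x y := by simp; ring
          map_smul' c x := by simp; ring }, by intro ω; simp [XX]⟩
    · unfold XX
      rw [integral_const_mul, integral_sub (hint _) ((hint _).const_mul _), integral_const_mul,
        ev_mean hW, ev_mean hW]
      simp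
    · unfold XX
      rw [covariance_const_mul_left, covariance_const_mul_right,
        covariance_fun_sub_fun_sub (hL _) ((hL _).const_mul _) (hL _) ((hL _).const_mul _),
        covariance_const_mul_left, covariance_const_mul_left, covariance_const_mul_right,
        covariance_const_mul_right, ev_cov hW (sig_mono hst),
        ev_cov hW (show sig s ≤ 1 from (sig s).2.2), ev_cov hW (le_refl (1 : unitInterval)),
        covariance_comm, ev_cov hW (show sig t ≤ 1 from (sig t).2.2)]
      have h1 : (sig s : ℝ) = s / (1 + s) := rfl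
      have h2 : (sig t : ℝ) = t / (1 + t) := rfl
      rw [h1, h2]
      have hs : (0 : ℝ) ≤ s := s.2
      have ht : (0 : ℝ) ≤ t := t.2
      have : (1 + (s : ℝ)) ≠ 0 := by positivity
      have : (1 + (t : ℝ)) ≠ 0 := by positivity
      have e1 : (((1 : unitInterval) : ℝ)) = 1 := rfl
      rw [e1]
      field_simp
      ring
  · show Continuous fun t : ℝ≥0 => (1 + (t : ℝ)) * (w (sig t) - sig t * w 1)
    exact (continuous_const.add NNReal.continuous_coe).mul
      ((w.continuous.comp continuous_sig).sub
        ((continuous_subtype_val.comp continuous_sig).mul continuous_const))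

/-- **Brownian motion exists** -/
theorem exists_BM : ∃ (Ω : Type) (_ : MeasurableSpace Ω) (P : Measure Ω) (B : ℝ≥0 → Ω → ℝ),
    IsProbabilityMeasure P ∧ CBM P B := by
  obtain ⟨W, hW, -⟩ := Pool.Agent.V11330.Donsker.inv_walk
  obtain ⟨B, hB, -⟩ := Pool.Agent.V11330.BMTools.exists_CBM (isBrownian_XX hW)
  exact ⟨Pa, inferInstance, W, B, hW.1, hB⟩

end Pool.Agent.V11330.TB
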