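import Pool.Agent.V11330.TB.Fwd

set_option autoImplicit false

open Set Filter Topology MeasureTheory ProbabilityTheory
open scoped NNReal ENNReal

namespace Pool.Agent.V11330.TB

open Pool.Agent.TH970 Pool.Agent.V11330.BMTools

/-- the enlarged window event -/
def Ef (j : ℕ) (t δ : ℝ≥0) : Set (ℝ≥0 → ℝ) :=
  {x | -(2 * (1 / 20 * Real.sqrt (el j))) < x (t + el j) - x t} ∪
    ({x | 1 / 20 * Real.sqrt (el j) < am (fw t x) δ} ∪
      {x | 1 / 20 * Real.sqrt (el j) < am (fw (t + el j) x) δ})

lemma measurableSet_Ef (j : ℕ) (t δ : ℝ≥0) : MeasurableSet (Ef j t δ) := by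
  have h1 : Measurable fun x : ℝ≥0 → ℝ => x (t + el j) - x t :=
    (measurable_pi_apply (t + el j)).sub (measurable_pi_apply t)
  refine (measurableSet_lt measurable_const h1).union
    ((measurableSet_lt measurable_const ?_).union (measurableSet_lt measurable_const ?_))
  · exact (measurable_am δ).comp (measurable_fw t)
  · exact (measurable_am δ).comp (measurable_fw _)

lemma continuous_fw {x : ℝ≥0 → ℝ} (hx : Continuous x) (t : ℝ≥0) : Continuous (fw t x) :=
  (hx.comp (continuous_const.add continuous_id)).sub continuous_const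

lemma mem_Ef {j : ℕ} {t δ r : ℝ≥0} {x : ℝ≥0 → ℝ} (hx : Continuous x) (hr : r ≤ δ)
    (h : x (t + r) < x (t + r + el j)) : x ∈ Ef j t δ := by
  by_contra hcon
  simp only [Ef, mem_union, mem_ofPred_eq, not_or, not_lt] at hcon
  obtain ⟨h1, h2, h3⟩ := hcon
  have h4 := (am_le_iff (continuous_fw hx t)).1 h2 r hr
  have h5 := (am_le_iff (continuous_fw hx (t + el j))).1 h3 r hr
  simp only [fw] at h4 h5
  have e1 : t + el j + r = t + r + el j := by ring
  rw [e1] at h5
  have h6 := (abs_le.1 h4).1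
  have h7 := (abs_le.1 h5).2
  linarith

lemma Ef_cl {j : ℕ} {t δ : ℝ≥0} {x : ℝ≥0 → ℝ} :
    cl t (t + el j + δ) x ∈ Ef j t δ ↔ x ∈ Ef j t δ := by
  have hc : ∀ s, t ≤ s → s ≤ t + el j + δ → cl t (t + el j + δ) x s = x s - x t := fun s h1 h2 =>
    cl_of_mem x h1 h2
  have e0 : cl t (t + el j + δ) x t = x t - x t := hc t le_rfl (le_self_add.trans le_self_add)
  have e1 : cl t (t + el j + δ) x (t + el j) = x (t + el j) - x t := hc _ le_self_add le_self_add
  have ham : ∀ v, t ≤ v → v ≤ t + el j → am (fw v (cl t (t + el j + δ) x)) δ = am (fw v x) δ := by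
    intro v h1 h2
    unfold am mx
    refine iSup_congr fun n => ?_
    have h3 : max 0 (min (dq n) δ) ≤ δ := max_le bot_le (min_le_right _ _)
    simp only [fw]
    rw [hc (v + _) (h1.trans le_self_add) (add_le_add h2 h3), hc v h1 (h2.trans le_self_add)]
    congr 1
    ring
  simp only [Ef, mem_union, mem_ofPred_eq]
  rw [ham t le_rfl le_self_add, ham (t + el j) le_self_add le_rfl, e0, e1]
  simp

section
variable {Ω : Type*} [MeasurableSpace Ω] {P : Measure Ω} [IsProbabilityMeasure P]
  {B : ℝ≥0 → Ω → ℝ}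

lemma gauss_bound {v : ℝ≥0} (hv : v ≠ 0) {a : ℝ} :
    gaussianReal 0 v (Ioc (-a) 0) ≤ ENNReal.ofReal (a / Real.sqrt (2 * Real.pi * v)) := by
  rw [gaussianReal_apply 0 hv]
  calc ∫⁻ x in Ioc (-a) 0, gaussianPDF 0 v x
      ≤ ∫⁻ x in Ioc (-a) 0, ENNReal.ofReal ((Real.sqrt (2 * Real.pi * v))⁻¹) := by
        refine lintegral_mono fun x => ?_
        unfold gaussianPDF gaussianPDFReal
        refine ENNReal.ofReal_le_ofReal ?_
        have h1 : Real.exp (-(x - 0) ^ 2 / (2 * v)) ≤ 1 := by
          rw [Real.exp_le_one_iff]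
          have : 0 ≤ (x - 0) ^ 2 / (2 * (v : ℝ)) := by positivity
          rw [neg_div]; linarith
        have h2 : 0 ≤ (Real.sqrt (2 * Real.pi * v))⁻¹ := by positivity
        nlinarith
    _ = ENNReal.ofReal ((Real.sqrt (2 * Real.pi * v))⁻¹) * volume (Ioc (-a) (0 : ℝ)) := by
        rw [setLIntegral_const]
    _ = _ := by
        rw [Real.volume_Ioc, ← ENNReal.ofReal_mul (by positivity)]
        congr 1
        ring

/-- the probability of the enlarged window event -/
lemma prob_Ef (hB : CBM P B) {j : ℕ} {t δ : ℝ≥0} (hδ0 : 0 < δ) (hδ : 320000 * δ ≤ el j) :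
    P (path B ⁻¹' Ef j t δ) ≤ ENNReal.ofReal (56 / 100) := by
  set s : ℝ := Real.sqrt (el j) with hs
  have hel : (0 : ℝ) < el j := by exact_mod_cast el_pos j
  have hs0 : 0 < s := Real.sqrt_pos.2 hel
  have hs2 : s ^ 2 = el j := Real.sq_sqrt hel.le
  have hδ' : 320000 * (δ : ℝ) ≤ el j := by exact_mod_cast hδ
  -- the two oscillation events
  have hosc : ∀ v : ℝ≥0, P (path B ⁻¹' {x | 1 / 20 * s < am (fw v x) δ}) ≤
      ENNReal.ofReal (5 / 1000) := by
    intro v
    have hX : IsBrownianReal (fun t ω => B (v + t) ω - B v ω) P :=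
      ⟨hB.pre.shift v, ae_of_all _ fun ω => continuous_fw (hB.cont ω) v⟩
    have h1 := osc_bound hX hδ0 (η := 1 / 20 * s) (by positivity)
    refine (measure_mono fun ω hω => ?_).trans (h1.trans ?_)
    · by_contra hcon
      simp only [mem_ofPred_eq, not_exists, not_and, not_lt] at hcon
      have h2 : 1 / 20 * s < am (fw v (path B ω)) δ := hω
      exact absurd (am_le fun r hr => hcon r hr) (not_le.2 h2)
    · refine ENNReal.ofReal_le_ofReal ?_
      rw [div_le_iff₀ (by positivity), mul_pow, hs2]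
      nlinarith
  -- the main event
  have hmain : P (path B ⁻¹' {x | -(2 * (1 / 20 * s)) < x (t + el j) - x t}) ≤
      ENNReal.ofReal (55 / 100) := by
    set X : Ω → ℝ := fun ω => B (t + el j) ω - B t ω with hX
    have hXm : Measurable X := (hB.meas _).sub (hB.meas _)
    have hlaw : P.map X = gaussianReal 0 (el j) := ((hB.pre.shift t).hasLaw_eval (el j)).map_eq
    have h1 : path B ⁻¹' {x | -(2 * (1 / 20 * s)) < x (t + el j) - x t} ⊆
        X ⁻¹' Ioc (-(2 * (1 / 20 * s))) 0 ∪ {ω | B t ω < B (t + el j) ω} := by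
      intro ω hω
      by_cases h : B t ω < B (t + el j) ω
      · exact Or.inr h
      · refine Or.inl ⟨hω, ?_⟩
        push Not at h
        show B (t + el j) ω - B t ω ≤ 0
        linarith
    refine (measure_mono h1).trans ((measure_union_le _ _).trans ?_)
    rw [half hB (lt_add_of_pos_right _ (el_pos j)), ← Measure.map_apply hXm measurableSet_Ioc, hlaw]
    have h2 := gauss_bound (v := el j) (el_pos j).ne' (a := 2 * (1 / 20 * s))
    have h3 : 2 * (1 / 20 * s) / Real.sqrt (2 * Real.pi * el j) ≤ 5 / 100 := by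
      have h4 : Real.sqrt (2 * Real.pi * el j) = Real.sqrt (2 * Real.pi) * s := by
        rw [Real.sqrt_mul (by positivity)]
      have h5 : 2 ≤ Real.sqrt (2 * Real.pi) := by
        refine Real.le_sqrt_of_sq_le ?_
        have := Real.pi_gt_three
        linarith
      rw [h4, div_le_iff₀ (by positivity)]
      nlinarith
    calc gaussianReal 0 (el j) (Ioc (-(2 * (1 / 20 * s))) 0) + 1 / 2
        ≤ ENNReal.ofReal (5 / 100) + ENNReal.ofReal (1 / 2) := by
          refine add_le_add (h2.trans (ENNReal.ofReal_le_ofReal h3)) (le_of_eq ?_)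
          rw [ENNReal.ofReal_div_of_pos (by norm_num)]; simp
      _ = ENNReal.ofReal (55 / 100) := by
        rw [← ENNReal.ofReal_add (by norm_num) (by norm_num)]; norm_num
  have hun : path B ⁻¹' Ef j t δ ⊆ path B ⁻¹' {x | -(2 * (1 / 20 * s)) < x (t + el j) - x t} ∪
      (path B ⁻¹' {x | 1 / 20 * s < am (fw t x) δ} ∪
      path B ⁻¹' {x | 1 / 20 * s < am (fw (t + el j) x) δ}) := fun ω hω => hω
  refine (measure_mono hun).trans ((measure_union_le _ _).trans ?_)
  refine (add_le_add hmain ((measure_union_le _ _).trans (add_le_add (hosc t)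
    (hosc (t + el j))))).trans ?_
  rw [← ENNReal.ofReal_add (by norm_num) (by norm_num),
    ← ENNReal.ofReal_add (by norm_num) (by norm_num)]
  exact ENNReal.ofReal_le_ofReal (by norm_num)

/-- the probability that all the enlarged window events occur -/
lemma prob_all (hB : CBM P B) (j₀ m : ℕ) (t : ℕ → ℝ≥0) {δ : ℝ≥0} (hδ0 : 0 < δ)
    (hδ : 320000 * δ ≤ el (j₀ + m)) (ht : ∀ j k, j < k → t j + 2 ≤ t k) :
    P (⋂ j ∈ Finset.range (m + 1), path B ⁻¹' Ef (j₀ + j) (t j) δ) ≤
      ENNReal.ofReal ((56 / 100) ^ (m + 1)) := by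
  have hel : ∀ j ∈ Finset.range (m + 1), 320000 * δ ≤ el (j₀ + j) := by
    intro j hj
    refine hδ.trans ?_
    have : j ≤ m := Nat.lt_succ_iff.1 (Finset.mem_range.1 hj)
    unfold el
    refine pow_le_pow_of_le_one (by positivity) ?_ (by omega)
    rw [div_le_one (by norm_num)]; norm_num
  have hδ1 : δ ≤ 1 := by
    have h1 := hel 0 (Finset.mem_range.2 (by omega))
    have h2 := el_le_one (j₀ + 0)
    have h3 : (320000 : ℝ≥0) * δ ≤ 1 := h1.trans h2
    calc δ = 1 * δ := (one_mul _).symm
      _ ≤ 320000 * δ := by gcongr; norm_num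
      _ ≤ 1 := h3
  have hind := iIndep_cl hB (ι := ℕ) t (fun j => t j + el (j₀ + j) + δ)
    (fun j => le_self_add.trans le_self_add) ?_
  swap
  · have key : ∀ j k, j < k → t j + el (j₀ + j) + δ ≤ t k := by
      intro j k h
      calc t j + el (j₀ + j) + δ ≤ t j + 1 + 1 := by
            gcongr
            exact el_le_one _
        _ = t j + 2 := by ring
        _ ≤ t k := ht j k h
    intro j k hjk
    rcases lt_or_gt_of_ne hjk with h | h
    · exact Or.inl (key j k h)
    · exact Or.inr (key k j h)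
  have h1 := hind.measure_inter_preimage_eq_mul (Finset.range (m + 1))
    (sets := fun j => Ef (j₀ + j) (t j) δ) (fun j _ => measurableSet_Ef _ _ _)
  have h2 : ∀ j, (fun ω => cl (t j) (t j + el (j₀ + j) + δ) (path B ω)) ⁻¹' Ef (j₀ + j) (t j) δ =
      path B ⁻¹' Ef (j₀ + j) (t j) δ := by
    intro j
    ext ω
    exact Ef_cl
  simp only [h2] at h1
  rw [h1]
  calc ∏ j ∈ Finset.range (m + 1), P (path B ⁻¹' Ef (j₀ + j) (t j) δ)
      ≤ ∏ j ∈ Finset.range (m + 1), ENNReal.ofReal (56 / 100) :=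
        Finset.prod_le_prod' fun j hj => prob_Ef hB hδ0 (hel j hj)
    _ = _ := by
      rw [Finset.prod_const, Finset.card_range, ENNReal.ofReal_pow (by norm_num)]

end

end Pool.Agent.V11330.TB
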