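import Pool.Agent.V11330.TB.Cover

set_option autoImplicit false

open Set Filter Topology MeasureTheory ProbabilityTheory
open scoped NNReal ENNReal

namespace Pool.Agent.V11330.TB

open Pool.Agent.TH970

section
variable {Ω : Type*} [MeasurableSpace Ω] {P : Measure Ω} [IsProbabilityMeasure P]

/-- the cells -/
noncomputable def dl (K m : ℕ) : ℝ≥0 := el (K + 1 + m) / 320000

lemma dl_pos (K m : ℕ) : 0 < dl K m := div_pos (el_pos _) (by norm_num)

noncomputable def tp (K m c j : ℕ) : ℝ≥0 := ((N (K + 1 + j) - K : ℕ) : ℝ≥0) + c * dl K m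

noncomputable def tm (K m c j : ℕ) : ℝ≥0 :=
  ((N (K + 1 + j) - K - 1 : ℕ) : ℝ≥0) + (2 * K + 1 - (c + 1) * dl K m)

lemma tp_sep (K m c : ℕ) (j k : ℕ) (h : j < k) : tp K m c j + 2 ≤ tp K m c k := by
  unfold tp
  have h1 : N (K + 1 + j) - K + 2 ≤ N (K + 1 + k) - K := by
    have h2 : N (K + 1 + j) + 2 ≤ N (K + 1 + k) := N_gap (by omega)
    have h3 := le_N (K + 1 + j)
    omega
  calc ((N (K + 1 + j) - K : ℕ) : ℝ≥0) + c * dl K m + 2
      = ((N (K + 1 + j) - K + 2 : ℕ) : ℝ≥0) + c * dl K m := by push_cast; ring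
    _ ≤ _ := by gcongr

lemma tm_sep (K m c : ℕ) (j k : ℕ) (h : j < k) : tm K m c j + 2 ≤ tm K m c k := by
  unfold tm
  have h1 : N (K + 1 + j) - K - 1 + 2 ≤ N (K + 1 + k) - K - 1 := by
    have h2 : N (K + 1 + j) + 2 ≤ N (K + 1 + k) := N_gap (by omega)
    have h3 := le_N (K + 1 + j)
    omega
  calc ((N (K + 1 + j) - K - 1 : ℕ) : ℝ≥0) + (2 * K + 1 - (c + 1) * dl K m) + 2
      = ((N (K + 1 + j) - K - 1 + 2 : ℕ) : ℝ≥0) + (2 * K + 1 - (c + 1) * dl K m) := by
        push_cast; ring
    _ ≤ _ := by gcongr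

/-- the process is not a two-sided Brownian motion seen from any random time -/
theorem not_two {X : ℝ → Ω → ℝ} (hXm : ∀ t, Measurable (X t))
    (hXc : ∀ ω, Continuous fun t => X t ω)
    (hw : ∀ᵐ ω ∂P, ∀ j : ℕ, 1 ≤ j → X (N j) ω < X (N j + el j) ω ∧
      X (-(N j)) ω < X (-(N j) - el j) ω)
    {S : Ω → ℝ} (hS : Measurable S)
    (h1 : IsBrownianReal (fun (t : ℝ≥0) ω => X (S ω + t) ω - X (S ω) ω) P)
    (h2 : IsBrownianReal (fun (t : ℝ≥0) ω => X (S ω - t) ω - X (S ω) ω) P)
    (hi : IndepFun (fun ω (t : ℝ≥0) => X (S ω + t) ω - X (S ω) ω)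
      (fun ω (t : ℝ≥0) => X (S ω - t) ω - X (S ω) ω) P) : False := by
  have hjm : Measurable fun p : ℝ × Ω => X p.1 p.2 :=
    measurable_uncurry_of_continuous_of_measurable (u := X) hXc hXm
  set Bp : ℝ≥0 → Ω → ℝ := fun t ω => X (S ω + t) ω - X (S ω) ω with hBpd
  set Bm : ℝ≥0 → Ω → ℝ := fun t ω => X (S ω - t) ω - X (S ω) ω with hBmd
  have hXS : Measurable fun ω => X (S ω) ω := hjm.comp (hS.prodMk measurable_id)
  have hBp : CBM P Bp := by
    refine ⟨fun t => ?_, fun ω => ?_, fun ω => ?_, h1.toIsPreBrownianReal⟩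
    · exact (hjm.comp ((hS.add_const (t : ℝ)).prodMk measurable_id)).sub hXS
    · exact ((hXc ω).comp (continuous_const.add NNReal.continuous_coe)).sub continuous_const
    · simp [hBpd]
  have hBm : CBM P Bm := by
    refine ⟨fun t => ?_, fun ω => ?_, fun ω => ?_, h2.toIsPreBrownianReal⟩
    · exact (hjm.comp ((hS.sub_const (t : ℝ)).prodMk measurable_id)).sub hXS
    · exact ((hXc ω).comp (continuous_const.sub NNReal.continuous_coe)).sub continuous_const
    · simp [hBmd]
  have hK : ∀ K : ℕ, P {ω | |S ω| ≤ K} = 0 := by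
    intro K
    -- the bound for every `m`
    have hbound : ∀ m : ℕ, P {ω | |S ω| ≤ K} ≤
        ENNReal.ofReal ((640000 * K * 3 ^ (K + 1 + m) + 1) * ((56 / 100) ^ (m + 1)) ^ 2) := by
      intro m
      set δ : ℝ≥0 := dl K m with hδ
      have hδ0 : 0 < δ := dl_pos K m
      have hδel : 320000 * δ ≤ el (K + 1 + m) := by
        rw [hδ]; unfold dl
        rw [mul_div_cancel₀ _ (by norm_num)]
      have hδr : (0 : ℝ) < δ := by exact_mod_cast hδ0
      set n : ℕ := ⌊2 * K / (δ : ℝ)⌋₊ + 1 with hn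
      set Ap : ℕ → Set (ℝ≥0 → ℝ) := fun c =>
        ⋂ j ∈ Finset.range (m + 1), Ef (K + 1 + j) (tp K m c j) δ with hAp
      set Am : ℕ → Set (ℝ≥0 → ℝ) := fun c =>
        ⋂ j ∈ Finset.range (m + 1), Ef (K + 1 + j) (tm K m c j) δ with hAm
      have hApm : ∀ c, MeasurableSet (Ap c) := fun c =>
        Finset.measurableSet_biInter _ fun j _ => measurableSet_Ef _ _ _
      have hAmm : ∀ c, MeasurableSet (Am c) := fun c =>
        Finset.measurableSet_biInter _ fun j _ => measurableSet_Ef _ _ _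
      have hsub : {ω | |S ω| ≤ K} ≤ᵐ[P]
          (⋃ c ∈ Finset.range n, (path Bp ⁻¹' Ap c ∩ path Bm ⁻¹' Am c) : Set Ω) := by
        filter_upwards [hw] with ω hω hSK
        have hSK' : |S ω| ≤ K := hSK
        obtain ⟨hS1, hS2⟩ := abs_le.1 hSK'
        set s : ℝ := K - S ω with hs
        have hs0 : 0 ≤ s := by rw [hs]; linarith
        have hs2 : s ≤ 2 * K := by rw [hs]; linarith
        set c : ℕ := ⌊s / (δ : ℝ)⌋₊ with hc
        have hc1 : (c : ℝ) * δ ≤ s := by
          have := Nat.floor_le (show 0 ≤ s / (δ : ℝ) by positivity)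
          rwa [le_div_iff₀ hδr] at this
        have hc2 : s < (c + 1) * δ := by
          have := Nat.lt_floor_add_one (s / (δ : ℝ))
          rwa [div_lt_iff₀ hδr] at this
        have hcn : c < n := by
          rw [hn, Nat.lt_succ_iff]
          exact Nat.floor_le_floor (div_le_div_of_nonneg_right hs2 hδr.le)
        obtain ⟨r, hr⟩ : ∃ r : ℝ≥0, (r : ℝ) = s - c * δ := ⟨⟨s - c * δ, by linarith⟩, rfl⟩
        obtain ⟨r', hr'⟩ : ∃ r' : ℝ≥0, (r' : ℝ) = δ - (s - c * δ) :=
          ⟨⟨δ - (s - c * δ), by linarith⟩, rfl⟩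
        have hrδ : r ≤ δ := by
          rw [← NNReal.coe_le_coe, hr]; linarith
        have hrδ' : r' ≤ δ := by
          rw [← NNReal.coe_le_coe, hr']; linarith
        have hδ1 : (δ : ℝ) ≤ 1 := by
          have h3 : (320000 : ℝ) * δ ≤ 1 := by
            have h4 : (320000 : ℝ≥0) * δ ≤ 1 := hδel.trans (el_le_one _)
            exact_mod_cast h4
          linarith
        refine mem_iUnion₂.2 ⟨c, Finset.mem_range.2 hcn, ?_, ?_⟩
        · refine mem_iInter₂.2 fun j _ => ?_
          have hNK : K ≤ N (K + 1 + j) := by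
            have := le_N (K + 1 + j); omega
          refine mem_Ef (hBp.cont ω) hrδ ?_
          have e1 : S ω + ((tp K m c j + r : ℝ≥0) : ℝ) = N (K + 1 + j) := by
            have e0 : (((N (K + 1 + j) - K : ℕ) : ℝ≥0) : ℝ) = (N (K + 1 + j) : ℝ) - K := by
              rw [NNReal.coe_natCast, Nat.cast_sub hNK]
            unfold tp
            rw [← hδ, NNReal.coe_add, NNReal.coe_add, e0, NNReal.coe_mul, NNReal.coe_natCast, hr, hs]
            ring
          have e2 : S ω + ((tp K m c j + r + el (K + 1 + j) : ℝ≥0) : ℝ) =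
              N (K + 1 + j) + el (K + 1 + j) := by
            rw [NNReal.coe_add, ← add_assoc, e1]
          show X (S ω + ((tp K m c j + r : ℝ≥0) : ℝ)) ω - X (S ω) ω <
            X (S ω + ((tp K m c j + r + el (K + 1 + j) : ℝ≥0) : ℝ)) ω - X (S ω) ω
          rw [e1, e2]
          have := (hω (K + 1 + j) (by omega)).1
          linarith
        · refine mem_iInter₂.2 fun j _ => ?_
          have hNK : K + 1 ≤ N (K + 1 + j) := by
            have := le_N (K + 1 + j); omega
          refine mem_Ef (hBm.cont ω) hrδ' ?_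
          have hle : ((c : ℝ≥0) + 1) * δ ≤ 2 * K + 1 := by
            rw [← NNReal.coe_le_coe]
            push_cast
            linarith
          have e1 : S ω - ((tm K m c j + r' : ℝ≥0) : ℝ) = -(N (K + 1 + j) : ℝ) := by
            have e0 : (((N (K + 1 + j) - (K + 1) : ℕ) : ℝ≥0) : ℝ) =
                (N (K + 1 + j) : ℝ) - (K + 1) := by
              rw [NNReal.coe_natCast, Nat.cast_sub hNK]; push_cast; ring
            unfold tm
            rw [← hδ, Nat.sub_sub, NNReal.coe_add, NNReal.coe_add, e0, NNReal.coe_sub hle, hr']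
            push_cast
            rw [hs]
            ring
          have e2 : S ω - ((tm K m c j + r' + el (K + 1 + j) : ℝ≥0) : ℝ) =
              -(N (K + 1 + j) : ℝ) - el (K + 1 + j) := by
            rw [NNReal.coe_add, ← sub_sub, e1]
          show X (S ω - ((tm K m c j + r' : ℝ≥0) : ℝ)) ω - X (S ω) ω <
            X (S ω - ((tm K m c j + r' + el (K + 1 + j) : ℝ≥0) : ℝ)) ω - X (S ω) ω
          rw [e1, e2]
          have := (hω (K + 1 + j) (by omega)).2
          linarith
      refine (measure_mono_ae hsub).trans ((measure_biUnion_finset_le _ _).trans ?_)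
      have hcell : ∀ c ∈ Finset.range n, P (path Bp ⁻¹' Ap c ∩ path Bm ⁻¹' Am c) ≤
          ENNReal.ofReal (((56 / 100) ^ (m + 1)) ^ 2) := by
        intro c _
        have h3 := hi.measure_inter_preimage_eq_mul (Ap c) (Am c) (hApm c) (hAmm c)
        have h4 : P (path Bp ⁻¹' Ap c) ≤ ENNReal.ofReal ((56 / 100) ^ (m + 1)) := by
          have h5 := prob_all hBp (K + 1) m (tp K m c) hδ0 hδel (tp_sep K m c)
          refine le_trans (le_of_eq ?_) h5
          congr 1
          simp only [hAp, preimage_iInter]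
        have h4' : P (path Bm ⁻¹' Am c) ≤ ENNReal.ofReal ((56 / 100) ^ (m + 1)) := by
          have h5 := prob_all hBm (K + 1) m (tm K m c) hδ0 hδel (tm_sep K m c)
          refine le_trans (le_of_eq ?_) h5
          congr 1
          simp only [hAm, preimage_iInter]
        refine le_trans (le_of_eq h3) ((mul_le_mul' h4 h4').trans (le_of_eq ?_))
        rw [← ENNReal.ofReal_mul (by positivity), sq]
      refine (Finset.sum_le_sum hcell).trans ?_
      rw [Finset.sum_const, Finset.card_range, nsmul_eq_mul, ← ENNReal.ofReal_natCast,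
        ← ENNReal.ofReal_mul (Nat.cast_nonneg _)]
      refine ENNReal.ofReal_le_ofReal ?_
      refine mul_le_mul_of_nonneg_right ?_ (by positivity)
      rw [hn]
      push_cast
      have h6 : (⌊2 * K / (δ : ℝ)⌋₊ : ℝ) ≤ 2 * K / (δ : ℝ) := Nat.floor_le (by positivity)
      have h7 : 2 * (K : ℝ) / δ = 640000 * K * 3 ^ (K + 1 + m) := by
        rw [hδ]
        unfold dl el
        push_cast
        rw [one_div, inv_pow]
        field_simp
        ring
      linarith
    have hlim : Tendsto (fun m : ℕ => (640000 * K * 3 ^ (K + 1 + m) + 1) *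
        (((56 / 100 : ℝ)) ^ (m + 1)) ^ 2) atTop (𝓝 0) := by
      have h3 : ∀ m : ℕ, (640000 * (K : ℝ) * 3 ^ (K + 1 + m) + 1) *
          (((56 / 100 : ℝ)) ^ (m + 1)) ^ 2 =
          (640000 * K * 3 ^ K) * (9408 / 10000) ^ (m + 1) + (3136 / 10000) ^ (m + 1) := by
        intro m
        have e1 : (((56 / 100 : ℝ)) ^ (m + 1)) ^ 2 = (3136 / 10000) ^ (m + 1) := by
          rw [← pow_mul, mul_comm (m + 1) 2, pow_mul]; norm_num
        have e2 : (3 : ℝ) ^ (K + 1 + m) = 3 ^ K * 3 ^ (m + 1) := by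
          rw [← pow_add]; congr 1; omega
        have e3 : (9408 / 10000 : ℝ) ^ (m + 1) = 3 ^ (m + 1) * (3136 / 10000) ^ (m + 1) := by
          rw [← mul_pow]; norm_num
        rw [e1, e2, e3]
        ring
      simp only [h3]
      have h4 : Tendsto (fun m : ℕ => (9408 / 10000 : ℝ) ^ (m + 1)) atTop (𝓝 0) :=
        (tendsto_pow_atTop_nhds_zero_of_lt_one (by norm_num) (by norm_num)).comp
          (tendsto_add_atTop_nat 1)
      have h5 : Tendsto (fun m : ℕ => (3136 / 10000 : ℝ) ^ (m + 1)) atTop (𝓝 0) :=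
        (tendsto_pow_atTop_nhds_zero_of_lt_one (by norm_num) (by norm_num)).comp
          (tendsto_add_atTop_nat 1)
      have h6 := (h4.const_mul (640000 * (K : ℝ) * 3 ^ K)).add h5
      simpa using h6
    have hlim' := (ENNReal.continuous_ofReal.tendsto 0).comp hlim
    rw [ENNReal.ofReal_zero] at hlim'
    exact le_antisymm (ge_of_tendsto' hlim' hbound) bot_le
  have hu : (univ : Set Ω) = ⋃ K : ℕ, {ω | |S ω| ≤ K} := by
    ext ω
    simp only [mem_univ, mem_iUnion, mem_ofPred_eq, true_iff]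
    exact exists_nat_ge _
  have h0 : P univ = 0 := by
    rw [hu]
    exact measure_iUnion_null hK
  rw [measure_univ] at h0
  exact one_ne_zero h0

end

end Pool.Agent.V11330.TB
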