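import Pool.Agent.V11330.TB.KJ
import Pool.Agent.V11330.TB.NotTwo
import Pool.Agent.V11330.TB.BMEx
import Pool.Agent.V11330.FS.Law

set_option autoImplicit false

open Set Filter Topology MeasureTheory ProbabilityTheory
open scoped NNReal ENNReal

namespace Pool.Agent.V11330.TB

open Pool.Agent.TH970

/-- the space of the example -/
abbrev Om : Type := (Cp × Cp) × unitInterval

/-- the two-sided process of the example -/
noncomputable def Xp (t : ℝ) (z : Om) : ℝ := z.1.2.1 t.toNNReal + z.1.1.1 (-t).toNNReal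

lemma measurable_Xp (t : ℝ) : Measurable (Xp t) :=
  ((measurable_pi_apply _).comp (measurable_subtype_coe.comp
    (measurable_snd.comp measurable_fst))).add
  ((measurable_pi_apply _).comp (measurable_subtype_coe.comp
    (measurable_fst.comp measurable_fst)))

lemma continuous_Xp (z : Om) : Continuous fun t => Xp t z :=
  (z.1.2.2.1.comp continuous_real_toNNReal).add
    (z.1.1.2.1.comp (continuous_real_toNNReal.comp continuous_neg))

lemma Xp_pos {t : ℝ} (ht : 0 ≤ t) (z : Om) : Xp t z = z.1.2.1 t.toNNReal := by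
  unfold Xp
  rw [Real.toNNReal_of_nonpos (show -t ≤ 0 by linarith), z.1.1.2.2, add_zero]

lemma Xp_neg {t : ℝ} (ht : 0 ≤ t) (z : Om) : Xp (-t) z = z.1.1.1 t.toNNReal := by
  unfold Xp
  rw [Real.toNNReal_of_nonpos (show -t ≤ 0 by linarith), z.1.2.2.2, zero_add, neg_neg]

/-- the swap of the two sides -/
def sw (z : Om) : Om := ((z.1.2, z.1.1), z.2)

lemma measurable_sw : Measurable sw :=
  ((measurable_snd.comp measurable_fst).prodMk (measurable_fst.comp measurable_fst)).prodMk
    measurable_snd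

lemma Xp_sw (t : ℝ) (z : Om) : Xp (-t) z = Xp t (sw z) := by
  unfold Xp sw
  rw [neg_neg, add_comm]

lemma Xp_fwd (h : ℝ≥0) (t : ℝ≥0) (z : Om) :
    Xp (-(h : ℝ) + t) z - Xp (-(h : ℝ)) z = Phi (z.1, h) t := by
  unfold Xp Phi fwd
  have e1 : (-(h : ℝ) + t).toNNReal = t - h := by
    rw [show (-(h : ℝ) + t) = (t : ℝ) - h by ring]
    exact NNReal.eq (by rw [NNReal.coe_sub_def, Real.coe_toNNReal'])
  have e2 : (-(-(h : ℝ) + t)).toNNReal = h - t := by
    rw [show (-(-(h : ℝ) + t)) = (h : ℝ) - t by ring]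
    exact NNReal.eq (by rw [NNReal.coe_sub_def, Real.coe_toNNReal'])
  have e3 : (-(h : ℝ)).toNNReal = 0 := Real.toNNReal_of_nonpos (by simp)
  have e4 : (-(-(h : ℝ))).toNNReal = h := by rw [neg_neg, Real.toNNReal_coe]
  rw [e1, e2, e3, e4, z.1.2.2.2]
  ring

section
variable {Ω : Type*} [MeasurableSpace Ω] {P : Measure Ω} [IsProbabilityMeasure P]
  {B : ℝ≥0 → Ω → ℝ}

/-- the probability of the example -/
noncomputable abbrev Pm (hB : CBM P B) : Measure Om := (PX hB).prod volume

/-- random times in the far past which see a Brownian motion -/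
def FB {Ω : Type*} [MeasurableSpace Ω] (P : Measure Ω) (X : ℝ → Ω → ℝ) : Prop :=
  ∃ S : ℕ → Ω → ℝ, (∀ n, Measurable (S n)) ∧
    (∀ᵐ ω ∂P, Tendsto (fun n => S n ω) atTop atBot) ∧
    ∀ n, IsBrownianReal (fun (t : ℝ≥0) ω => X (S n ω + t) ω - X (S n ω) ω) P

theorem fb_Xp (hB : CBM P B) : FB (Pm hB) Xp := by
  choose h hm hlaw hM using fun n : ℕ => exists_time hB (n : ℝ≥0)
  refine ⟨fun n z => -(h n z : ℝ), fun n => (measurable_subtype_coe.comp (hm n)).neg, ?_, fun n => ?_⟩
  · filter_upwards [ae_all_iff.2 hM] with z hz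
    refine tendsto_neg_atTop_atBot.comp ?_
    refine tendsto_atTop_mono (fun n => ?_) tendsto_natCast_atTop_atTop
    exact_mod_cast hz n
  · have e1 : (fun (t : ℝ≥0) (z : Om) => Xp (-(h n z : ℝ) + t) z - Xp (-(h n z : ℝ)) z) =
        fun t z => Phi (z.1, h n z) t := by
      funext t z
      exact Xp_fwd (h n z) t z
    rw [e1]
    have hPm : Measurable fun z : Om => Phi (z.1, h n z) :=
      measurable_Phi.comp (measurable_fst.prodMk (hm n))
    refine ⟨Pool.Agent.V11330.FS.pre_of_law hB.pre hB.meas (fun t =>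
      (measurable_pi_apply t).comp hPm) (hlaw n), ae_of_all _ fun z => ?_⟩
    show Continuous fun t : ℝ≥0 => z.1.1.1 (h n z - t) - z.1.1.1 (h n z) + z.1.2.1 (t - h n z)
    exact ((z.1.1.2.1.comp (continuous_const.sub continuous_id)).sub continuous_const).add
      (z.1.2.2.1.comp (continuous_id.sub continuous_const))

lemma mp_sw (hB : CBM P B) : MeasurePreserving sw (Pm hB) (Pm hB) := by
  refine ⟨measurable_sw, ?_⟩
  have h1 : (PX hB).map Prod.swap = PX hB := Measure.prod_swap
  have h2 : sw = Prod.map Prod.swap id := rfl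
  rw [h2, ← Measure.map_prod_map _ _ measurable_swap measurable_id, h1, Measure.map_id]

theorem fb_Xp_neg (hB : CBM P B) : FB (Pm hB) (fun t z => Xp (-t) z) := by
  obtain ⟨S, hS, hlim, hBr⟩ := fb_Xp hB
  have hmp := mp_sw hB
  refine ⟨fun n z => S n (sw z), fun n => (hS n).comp measurable_sw, ?_, fun n => ?_⟩
  · exact hmp.quasiMeasurePreserving.ae hlim
  · have e1 : (fun (t : ℝ≥0) (z : Om) => Xp (-(S n (sw z) + t)) z - Xp (-(S n (sw z))) z) =
        fun t z => (fun (t : ℝ≥0) (z : Om) => Xp (S n z + t) z - Xp (S n z) z) t (sw z) := by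
      funext t z
      simp only [Xp_sw]
    rw [e1]
    have hjm : Measurable fun p : ℝ × Om => Xp p.1 p.2 :=
      measurable_uncurry_of_continuous_of_measurable (u := Xp) continuous_Xp measurable_Xp
    have hZm : ∀ t : ℝ≥0, Measurable fun z => Xp (S n z + t) z - Xp (S n z) z := fun t =>
      (hjm.comp (((hS n).add_const (t : ℝ)).prodMk measurable_id)).sub
        (hjm.comp ((hS n).prodMk measurable_id))
    refine ⟨Pool.Agent.V11330.FS.pre_of_law (hBr n).toIsPreBrownianReal hZm (fun t =>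
      (hZm t).comp measurable_sw) ?_, ?_⟩
    · set p := path (fun (t : ℝ≥0) (z : Om) => Xp (S n z + t) z - Xp (S n z) z) with hp
      have hpm : Measurable p := measurable_path hZm
      have e2 : path (fun (t : ℝ≥0) (z : Om) =>
        (fun (t : ℝ≥0) (z : Om) => Xp (S n z + t) z - Xp (S n z) z) t (sw z)) = p ∘ sw := rfl
      rw [e2, ← Measure.map_map hpm measurable_sw, hmp.map_eq]
    · exact hmp.quasiMeasurePreserving.ae (hBr n).cont

theorem indep_Xp (hB : CBM P B) :
    IndepFun (fun z (t : ℝ≥0) => Xp (0 + t) z - Xp 0 z) (fun z (t : ℝ≥0) => Xp (0 - t) z - Xp 0 z)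
      (Pm hB) := by
  have e0 : ∀ z, Xp 0 z = 0 := by
    intro z
    unfold Xp
    simp only [Real.toNNReal_zero, neg_zero]
    rw [z.1.1.2.2, z.1.2.2.2, add_zero]
  have e1 : (fun z (t : ℝ≥0) => Xp (0 + t) z - Xp 0 z) = fun z : Om => z.1.2.1 := by
    funext z t
    rw [e0, sub_zero, zero_add, Xp_pos (NNReal.coe_nonneg t), Real.toNNReal_coe]
  have e2 : (fun z (t : ℝ≥0) => Xp (0 - t) z - Xp 0 z) = fun z : Om => z.1.1.1 := by
    funext z t
    rw [e0, sub_zero, zero_sub, Xp_neg (NNReal.coe_nonneg t), Real.toNNReal_coe]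
  rw [e1, e2, indepFun_iff_measure_inter_preimage_eq_mul]
  intro s t hs ht
  have hfst : ∀ A : Set (Cp × Cp), MeasurableSet A → Pm hB (Prod.fst ⁻¹' A) = PX hB A := by
    intro A hA
    rw [← Measure.map_apply measurable_fst hA]
    have : (Pm hB).map Prod.fst = PX hB := Measure.map_fst_prod.trans (by simp)
    rw [this]
  have hms : MeasurableSet (Subtype.val ⁻¹' s : Set Cp) := measurable_subtype_coe hs
  have hmt : MeasurableSet (Subtype.val ⁻¹' t : Set Cp) := measurable_subtype_coe ht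
  have a1 : ((fun z : Om => z.1.2.1) ⁻¹' s ∩ (fun z : Om => z.1.1.1) ⁻¹' t) =
      Prod.fst ⁻¹' ((Subtype.val ⁻¹' t : Set Cp) ×ˢ (Subtype.val ⁻¹' s : Set Cp)) := by
    ext z; exact and_comm
  have a2 : ((fun z : Om => z.1.2.1) ⁻¹' s) =
      Prod.fst ⁻¹' ((univ : Set Cp) ×ˢ (Subtype.val ⁻¹' s : Set Cp)) := by
    ext z
    simp only [mem_preimage, mem_prod, mem_univ, true_and]
  have a3 : ((fun z : Om => z.1.1.1) ⁻¹' t) =
      Prod.fst ⁻¹' ((Subtype.val ⁻¹' t : Set Cp) ×ˢ (univ : Set Cp)) := by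
    ext z
    simp only [mem_preimage, mem_prod, mem_univ, and_true]
  rw [a1, a2, a3, hfst _ (hmt.prod hms), hfst _ (MeasurableSet.univ.prod hms),
    hfst _ (hmt.prod MeasurableSet.univ), Measure.prod_prod, Measure.prod_prod, Measure.prod_prod,
    measure_univ, one_mul, mul_one, mul_comm]

/-- all the windows of the flipped path are positive -/
lemma windows_mu (hB : CBM P B) : ∀ᵐ x ∂(mu hB), ∀ j : ℕ, 1 ≤ j →
    x.1 (N j) < x.1 (N j + el j) := by
  rw [ae_all_iff]
  intro j
  by_cases hj : 1 ≤ j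
  swap
  · exact ae_of_all _ fun x h => absurd h hj
  set C : Set (ℝ≥0 → ℝ) := {x | ¬ x (N j) < x (N j + el j)} with hC
  have hCm : MeasurableSet C :=
    (measurableSet_lt (measurable_pi_apply ((N j : ℕ) : ℝ≥0))
      (measurable_pi_apply (((N j : ℕ) : ℝ≥0) + el j))).compl
  have h1 : ∀ᵐ ω ∂P, Pi (path B ω) ∉ C := by
    have h2 := lintegral_Ps hB j (measurable_ind hCm)
    have h3 : ∀ ω, DW j (path B ω) * ind C (path B ω) = 0 := by
      intro ω
      by_cases hω : path B ω ∈ C
      · have h4 : DW j (path B ω) = 0 := by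
          unfold DW
          refine Finset.prod_eq_zero (i := j - 1) (Finset.mem_range.2 (by omega)) ?_
          rw [Nat.sub_add_cancel hj]
          exact if_neg hω
        rw [h4, zero_mul]
      · have h4 : ind C (path B ω) = 0 := indicator_of_notMem hω _
        rw [h4, mul_zero]
    simp only [h3, lintegral_const, zero_mul] at h2
    have hm5 : Measurable fun ω => ind C (Ps j (path B ω)) :=
      (measurable_ind hCm).comp ((measurable_Ps j).comp hB.mpath)
    rw [lintegral_eq_zero_iff hm5] at h2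
    filter_upwards [h2] with ω hω hcon
    have h5 : Ps j (path B ω) ∈ C := by
      have e1 : Pi (path B ω) (N j) = Ps j (path B ω) (N j) :=
        Pi_of_le (le_self_add.trans (N_el_le j))
      have e2 : Pi (path B ω) (N j + el j) = Ps j (path B ω) (N j + el j) :=
        Pi_of_le (N_el_le j)
      simp only [hC, mem_ofPred_eq] at hcon ⊢
      rwa [e1, e2] at hcon
    have h6 : ind C (Ps j (path B ω)) = 1 := indicator_of_mem h5 _
    have h7 : ind C (Ps j (path B ω)) = 0 := hω
    rw [h6] at h7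
    exact one_ne_zero h7
  have hset : MeasurableSet {x : Cp | 1 ≤ j → x.1 (N j) < x.1 (N j + el j)} := by
    have : {x : Cp | 1 ≤ j → x.1 (N j) < x.1 (N j + el j)} = Subtype.val ⁻¹' Cᶜ := by
      ext x
      simp [hC, hj]
    rw [this]
    exact measurable_subtype_coe hCm.compl
  unfold mu
  rw [ae_map_iff (measurable_toC hB).aemeasurable hset]
  filter_upwards [h1] with ω hω _
  by_contra hcon
  exact hω hcon

theorem windows_Pm (hB : CBM P B) : ∀ᵐ z ∂(Pm hB), ∀ j : ℕ, 1 ≤ j →
    Xp (N j) z < Xp (N j + el j) z ∧ Xp (-(N j)) z < Xp (-(N j) - el j) z := by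
  have h1 := windows_mu hB
  have hq1 : Measure.QuasiMeasurePreserving (fun z : Om => z.1.1) (Pm hB) (mu hB) :=
    Measure.quasiMeasurePreserving_fst.comp Measure.quasiMeasurePreserving_fst
  have hq2 : Measure.QuasiMeasurePreserving (fun z : Om => z.1.2) (Pm hB) (mu hB) :=
    Measure.quasiMeasurePreserving_snd.comp Measure.quasiMeasurePreserving_fst
  filter_upwards [hq1.ae h1, hq2.ae h1] with z hz1 hz2 j hj
  have hN : (0 : ℝ) ≤ N j := Nat.cast_nonneg _
  have he : (0 : ℝ) ≤ el j := (el j).2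
  have e1 : ((N j : ℝ)).toNNReal = (N j : ℝ≥0) := Real.toNNReal_natCast _
  have e2 : ((N j : ℝ) + el j).toNNReal = (N j : ℝ≥0) + el j := by
    rw [Real.toNNReal_add hN he, e1, Real.toNNReal_coe]
  constructor
  · rw [Xp_pos hN, Xp_pos (by positivity), e1, e2]
    exact hz2 j hj
  · rw [Xp_neg hN, show -(N j : ℝ) - el j = -((N j : ℝ) + el j) by ring,
      Xp_neg (by positivity), e1, e2]
    exact hz1 j hj

end

/-- **the example** -/
theorem main : ∃ (Ω : Type) (_ : MeasurableSpace Ω) (P : Measure Ω) (X : ℝ → Ω → ℝ),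
    IsProbabilityMeasure P ∧ (∀ t, Measurable (X t)) ∧ (∀ ω, Continuous fun t => X t ω) ∧
    FB P X ∧ FB P (fun t => X (-t)) ∧
    IndepFun (fun ω (t : ℝ≥0) => X (0 + t) ω - X 0 ω) (fun ω (t : ℝ≥0) => X (0 - t) ω - X 0 ω) P ∧
    ∀ S : Ω → ℝ, Measurable S →
      IsBrownianReal (fun (t : ℝ≥0) ω => X (S ω + t) ω - X (S ω) ω) P →
      IsBrownianReal (fun (t : ℝ≥0) ω => X (S ω - t) ω - X (S ω) ω) P →
      IndepFun (fun ω (t : ℝ≥0) => X (S ω + t) ω - X (S ω) ω)
        (fun ω (t : ℝ≥0) => X (S ω - t) ω - X (S ω) ω) P → False := by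
  obtain ⟨Ω, _, P, B, hP, hB⟩ := exists_BM
  refine ⟨Om, inferInstance, Pm hB, Xp, inferInstance, measurable_Xp, continuous_Xp, fb_Xp hB,
    fb_Xp_neg hB, indep_Xp hB, fun S hS h1 h2 hi => ?_⟩
  exact not_two measurable_Xp continuous_Xp (windows_Pm hB) hS h1 h2 hi

end Pool.Agent.V11330.TB
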