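import Pool.Agent.V11330.TB.Ind

set_option autoImplicit false

open Set Filter Topology MeasureTheory ProbabilityTheory
open scoped NNReal ENNReal

namespace Pool.Agent.V11330.TB

open Pool.Agent.TH970

/-- positions of the windows -/
def N : ℕ → ℕ
  | 0 => 4
  | i + 1 => 64 * 32 ^ i * N i

/-- lengths of the windows -/
noncomputable def el (j : ℕ) : ℝ≥0 := (1 / 3) ^ j

lemma N_succ (i : ℕ) : N (i + 1) = 64 * 32 ^ i * N i := rfl

lemma N_pos (i : ℕ) : 4 ≤ N i := by
  induction i with
  | zero => exact le_rfl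
  | succ i ih =>
    rw [N_succ]
    have h1 : 1 ≤ 64 * 32 ^ i := Nat.one_le_iff_ne_zero.2 (by positivity)
    nlinarith

lemma N_step (i : ℕ) : 64 * N i ≤ N (i + 1) := by
  rw [N_succ]
  have h1 : 1 ≤ 32 ^ i := Nat.one_le_iff_ne_zero.2 (by positivity)
  have := N_pos i
  calc 64 * N i = 64 * 1 * N i := by ring
    _ ≤ 64 * 32 ^ i * N i := by gcongr

lemma N_lt (i : ℕ) : N i + 2 ≤ N (i + 1) := by
  have h1 := N_step i
  have h2 := N_pos i
  omega

lemma N_mono : Monotone N := monotone_nat_of_le_succ fun i => by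
  have := N_lt i
  omega

lemma le_N (i : ℕ) : i ≤ N i := by
  induction i with
  | zero => exact Nat.zero_le _
  | succ i ih =>
    have := N_lt i
    omega

lemma N_gap {i j : ℕ} (h : i < j) : N i + 2 ≤ N j := (N_lt i).trans (N_mono h)

lemma el_pos (j : ℕ) : 0 < el j := by unfold el; positivity

lemma el_le_one (j : ℕ) : el j ≤ 1 := by
  unfold el
  refine pow_le_one₀ (by positivity) ?_
  rw [div_le_one (by norm_num)]
  norm_num

lemma N_el_le (j : ℕ) : (N j : ℝ≥0) + el j ≤ N (j + 1) := by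
  have h1 := el_le_one j
  have h2 : ((N j : ℕ) : ℝ≥0) + 1 ≤ N (j + 1) := by
    have := N_lt j
    exact_mod_cast (by omega : N j + 1 ≤ N (j + 1))
  exact (add_le_add le_rfl h1).trans h2

open Classical in
/-- the sign of the increment over the `j`-th window -/
noncomputable def sg (j : ℕ) (x : ℝ≥0 → ℝ) : ℝ := if x (N j) ≤ x (N j + el j) then 1 else -1

/-- flip the path after time `N j` so that the increment over the `j`-th window is nonnegative -/
noncomputable def Rf (j : ℕ) (x : ℝ≥0 → ℝ) : ℝ≥0 → ℝ :=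
  fun t => x (min t (N j)) + sg j x * (x (max t (N j)) - x (N j))

lemma measurable_sg (j : ℕ) : Measurable (sg j) := by
  unfold sg
  exact Measurable.ite (measurableSet_le (measurable_pi_apply _) (measurable_pi_apply _))
    measurable_const measurable_const

lemma measurable_Rf (j : ℕ) : Measurable (Rf j) := by
  refine measurable_pi_lambda _ fun t => ?_
  exact (measurable_pi_apply _).add ((measurable_sg j).mul
    ((measurable_pi_apply _).sub (measurable_pi_apply _)))

lemma continuous_Rf (j : ℕ) {x : ℝ≥0 → ℝ} (hx : Continuous x) : Continuous (Rf j x) := by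
  unfold Rf
  exact (hx.comp (continuous_id.min continuous_const)).add
    (continuous_const.mul ((hx.comp (continuous_id.max continuous_const)).sub continuous_const))

lemma Rf_of_le {j : ℕ} {x : ℝ≥0 → ℝ} {t : ℝ≥0} (h : t ≤ N j) : Rf j x t = x t := by
  unfold Rf
  rw [min_eq_left h, max_eq_right h]
  ring

/-- the weight of the `j`-th window -/
noncomputable def wt (j : ℕ) (x : ℝ≥0 → ℝ) : ℝ≥0∞ :=
  open Classical in if x (N j) < x (N j + el j) then 2 else 0

lemma measurable_wt (j : ℕ) : Measurable (wt j) := by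
  unfold wt
  exact Measurable.ite (measurableSet_lt (measurable_pi_apply _) (measurable_pi_apply _))
    measurable_const measurable_const

lemma wt_le (j : ℕ) (x : ℝ≥0 → ℝ) : wt j x ≤ 2 := by
  unfold wt
  split_ifs
  · exact le_rfl
  · exact bot_le

section
variable {Ω : Type*} [MeasurableSpace Ω] {P : Measure Ω} [IsProbabilityMeasure P]
  {B : ℝ≥0 → Ω → ℝ}

omit [IsProbabilityMeasure P] in
lemma zero_null (hB : CBM P B) {t : ℝ≥0} (ht : 0 < t) : ∀ᵐ ω ∂P, B t ω ≠ 0 := by
  have h1 := (hB.pre.hasLaw_eval t).map_eq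
  rw [ae_iff]
  have h2 : P {ω | ¬ B t ω ≠ 0} = P.map (B t) {0} := by
    rw [Measure.map_apply (hB.meas t) (measurableSet_singleton 0)]
    congr 1
    ext ω; simp
  rw [h2, h1]
  have : NullSingletonClass (gaussianReal 0 t) := nullSingletonClass_gaussianReal ht.ne'
  exact measure_singleton _

/-- the flip of the tail, in terms of a concatenation -/
lemma Rf_cat {j : ℕ} {w z : ℝ≥0 → ℝ} (hz : z 0 = 0) :
    Rf j (cat (N j) w z) = cat (N j) w (fun t => (if 0 ≤ z (el j) then 1 else -1) * z t) := by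
  funext t
  unfold Rf
  have h1 : cat (N j) w z (N j) = w (N j) := by
    have := cat_add (b := (N j : ℝ≥0)) (s := 0) (w := w) (z := z)
    rw [add_zero, hz, add_zero] at this
    exact this
  have h2 : cat (N j) w z (N j + el j) = w (N j) + z (el j) := cat_add
  have h3 : sg j (cat (N j) w z) = if 0 ≤ z (el j) then 1 else -1 := by
    unfold sg
    rw [h1, h2]
    simp
  rw [h1, h3]
  rcases le_total t (N j : ℝ≥0) with h | h
  · rw [min_eq_left h, max_eq_right h, h1]
    simp only [cat, tsub_eq_zero_of_le h, hz]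
    ring
  · rw [min_eq_right h, max_eq_left h, h1]
    unfold cat
    rw [min_eq_right h]
    ring

/-- one flip -/
lemma lintegral_Rf (hB : CBM P B) (j : ℕ) {G : (ℝ≥0 → ℝ) → ℝ≥0∞} (hG : Measurable G) :
    ∫⁻ ω, G (Rf j (path B ω)) ∂P = ∫⁻ ω, wt j (path B ω) * G (path B ω) ∂P := by
  classical
  have h1 := lintegral_cat hB (N j) (F := fun x => G (Rf j x)) (hG.comp (measurable_Rf j))
  have h2 := lintegral_cat hB (N j) (F := fun x => wt j x * G x) ((measurable_wt j).mul hG)
  rw [← h1, ← h2]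
  refine lintegral_congr fun ω => ?_
  set b : ℝ≥0 := ((N j : ℕ) : ℝ≥0) with hb
  set w := path B ω with hw
  have hcat : ∀ z : ℝ≥0 → ℝ, z 0 = 0 → wt j (cat b w z) = if 0 < z (el j) then 2 else 0 := by
    intro z hz
    have e1 : cat b w z b = w b := by
      have := cat_add (b := b) (s := 0) (w := w) (z := z)
      rw [add_zero, hz, add_zero] at this
      exact this
    have e2 : cat b w z (b + el j) = w b + z (el j) := cat_add
    unfold wt
    rw [← hb, e1, e2]
    simp
  have hpr : Measurable fun z : ℝ≥0 → ℝ => (w, z) := measurable_const.prodMk measurable_id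
  have hcm : Measurable fun z : ℝ≥0 → ℝ => cat b w z := (measurable_cat b).comp hpr
  have hGm : Measurable fun z : ℝ≥0 → ℝ => G (cat b w z) := hG.comp hcm
  -- the positive half
  set p : (ℝ≥0 → ℝ) → ℝ≥0∞ := fun z => if 0 < z (el j) then G (cat b w z) else 0 with hp
  have hpm : Measurable p := Measurable.ite (measurableSet_lt measurable_const
    (measurable_pi_apply _)) hGm measurable_const
  have h3 : ∀ᵐ ω' ∂P, G (Rf j (cat b w (path B ω'))) = p (path B ω') + p (-path B ω') := by
    filter_upwards [zero_null hB (el_pos j)] with ω' hω'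
    rw [hb, Rf_cat (hB.path_zero _), ← hb]
    rcases lt_or_gt_of_ne hω' with h | h
    · have h4 : ¬ 0 ≤ path B ω' (el j) := not_le.2 h
      have h5 : ¬ 0 < path B ω' (el j) := not_lt.2 h.le
      have h6 : 0 < (-path B ω') (el j) := by
        rw [Pi.neg_apply]; exact neg_pos.2 h
      simp only [hp]
      rw [if_neg h4, if_neg h5, if_pos h6, zero_add]
      congr 2
      funext t
      simp
    · have h4 : 0 ≤ path B ω' (el j) := h.le
      have h6 : ¬ 0 < (-path B ω') (el j) := by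
        rw [Pi.neg_apply, neg_pos]; exact not_lt.2 h.le
      have h5 : 0 < path B ω' (el j) := h
      simp only [hp]
      rw [if_pos h4, if_pos h5, if_neg h6, add_zero]
      congr 2
      funext t
      simp
  have hpB : Measurable fun ω' => p (path B ω') := hpm.comp hB.mpath
  rw [lintegral_congr_ae h3, lintegral_add_left hpB, lintegral_neg hB hpm,
    ← two_mul, ← lintegral_const_mul _ hpB]
  refine lintegral_congr fun ω' => ?_
  rw [hcat _ (hB.path_zero _)]
  simp only [hp]
  split_ifs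
  · rfl
  · simp

end

/-- the first `J` flips -/
noncomputable def Ps : ℕ → (ℝ≥0 → ℝ) → (ℝ≥0 → ℝ)
  | 0 => id
  | J + 1 => fun x => Rf (J + 1) (Ps J x)

/-- the weight of the first `J` windows -/
noncomputable def DW (J : ℕ) (x : ℝ≥0 → ℝ) : ℝ≥0∞ := ∏ j ∈ Finset.range J, wt (j + 1) x

lemma measurable_Ps (J : ℕ) : Measurable (Ps J) := by
  induction J with
  | zero => exact measurable_id
  | succ J ih => exact (measurable_Rf _).comp ih

lemma continuous_Ps (J : ℕ) {x : ℝ≥0 → ℝ} (hx : Continuous x) : Continuous (Ps J x) := by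
  induction J with
  | zero => exact hx
  | succ J ih => exact continuous_Rf _ ih

lemma measurable_DW (J : ℕ) : Measurable (DW J) :=
  Finset.measurable_prod _ fun j _ => measurable_wt (j + 1)

lemma Ps_succ_of_le {J : ℕ} {x : ℝ≥0 → ℝ} {t : ℝ≥0} (h : t ≤ N (J + 1)) :
    Ps (J + 1) x t = Ps J x t := Rf_of_le h

lemma Ps_of_le {J J' : ℕ} (hJ : J ≤ J') {x : ℝ≥0 → ℝ} {t : ℝ≥0} (h : t ≤ N (J + 1)) :
    Ps J' x t = Ps J x t := by
  induction J', hJ using Nat.le_induction with
  | base => rfl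
  | succ J' hJ ih =>
    rw [Ps_succ_of_le (h.trans ?_), ih]
    exact_mod_cast N_mono (by omega)

/-- `φ` depends only on the path up to time `T` -/
def Dep {γ : Type*} (T : ℝ≥0) (φ : (ℝ≥0 → ℝ) → γ) : Prop :=
  ∀ x y : ℝ≥0 → ℝ, (∀ t ≤ T, x t = y t) → φ x = φ y

lemma Dep.mono {γ : Type*} {T T' : ℝ≥0} {φ : (ℝ≥0 → ℝ) → γ} (h : Dep T φ) (hT : T ≤ T') :
    Dep T' φ := fun x y hxy => h x y fun t ht => hxy t (ht.trans hT)

lemma dep_wt (j : ℕ) : Dep (N j + 1) (wt j) := by
  intro x y h
  unfold wt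
  rw [h (N j) le_self_add, h (N j + el j) (add_le_add le_rfl (el_le_one j))]

lemma dep_DW (J : ℕ) : Dep (N J + 1) (DW J) := by
  intro x y h
  unfold DW
  refine Finset.prod_congr rfl fun j hj => ?_
  refine (dep_wt (j + 1)).mono ?_ x y h
  have : N (j + 1) ≤ N J := N_mono (by simpa using hj)
  gcongr

section
variable {Ω : Type*} [MeasurableSpace Ω] {P : Measure Ω} [IsProbabilityMeasure P]
  {B : ℝ≥0 → Ω → ℝ}

/-- the law of the flipped path -/
theorem lintegral_Ps (hB : CBM P B) (J : ℕ) : ∀ {G : (ℝ≥0 → ℝ) → ℝ≥0∞}, Measurable G →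
    ∫⁻ ω, G (Ps J (path B ω)) ∂P = ∫⁻ ω, DW J (path B ω) * G (path B ω) ∂P := by
  induction J with
  | zero =>
    intro G hG
    simp [Ps, DW]
  | succ J ih =>
    intro G hG
    have h1 := ih (G := fun x => G (Rf (J + 1) x)) (hG.comp (measurable_Rf _))
    have h2 : ∀ ω, DW J (path B ω) = DW J (Rf (J + 1) (path B ω)) := by
      intro ω
      refine dep_DW J _ _ fun t ht => ?_
      refine (Rf_of_le (ht.trans ?_)).symm
      have := N_lt J
      exact_mod_cast (by omega : N J + 1 ≤ N (J + 1))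
    have h3 := lintegral_Rf hB (J + 1) (G := fun x => DW J x * G x) ((measurable_DW J).mul hG)
    calc ∫⁻ ω, G (Ps (J + 1) (path B ω)) ∂P = ∫⁻ ω, G (Rf (J + 1) (Ps J (path B ω))) ∂P := rfl
      _ = ∫⁻ ω, DW J (path B ω) * G (Rf (J + 1) (path B ω)) ∂P := h1
      _ = ∫⁻ ω, DW J (Rf (J + 1) (path B ω)) * G (Rf (J + 1) (path B ω)) ∂P := by
        refine lintegral_congr fun ω => ?_
        rw [← h2 ω]
      _ = ∫⁻ ω, wt (J + 1) (path B ω) * (DW J (path B ω) * G (path B ω)) ∂P := h3
      _ = _ := by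
        refine lintegral_congr fun ω => ?_
        have h4 : DW (J + 1) (path B ω) = DW J (path B ω) * wt (J + 1) (path B ω) :=
          Finset.prod_range_succ _ _
        rw [h4]
        ring

end

/-- all the flips -/
noncomputable def Pi (x : ℝ≥0 → ℝ) : ℝ≥0 → ℝ := fun t => Ps ⌈t⌉₊ x t

lemma Pi_of_le {J : ℕ} {x : ℝ≥0 → ℝ} {t : ℝ≥0} (h : t ≤ N (J + 1)) : Pi x t = Ps J x t := by
  unfold Pi
  rcases le_total ⌈t⌉₊ J with h1 | h1
  · refine (Ps_of_le h1 ?_).symm
    have h2 : t ≤ ⌈t⌉₊ := Nat.le_ceil t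
    refine h2.trans ?_
    have h3 := le_N (⌈t⌉₊ + 1)
    exact_mod_cast (by omega : ⌈t⌉₊ ≤ N (⌈t⌉₊ + 1))
  · exact Ps_of_le h1 h

lemma measurable_Pi : Measurable Pi := by
  refine measurable_pi_lambda _ fun t => ?_
  exact (measurable_pi_apply t).comp (measurable_Ps _)

lemma continuous_Pi {x : ℝ≥0 → ℝ} (hx : Continuous x) : Continuous (Pi x) := by
  rw [continuous_iff_continuousAt]
  intro t
  have h1 : t < N (⌈t⌉₊ + 1) := by
    have h2 : t ≤ ⌈t⌉₊ := Nat.le_ceil t
    refine lt_of_le_of_lt h2 ?_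
    have h3 := N_lt ⌈t⌉₊
    have h4 := le_N ⌈t⌉₊
    exact_mod_cast (by omega : ⌈t⌉₊ < N (⌈t⌉₊ + 1))
  refine ((continuous_Ps ⌈t⌉₊ hx).continuousAt).congr ?_
  filter_upwards [gt_mem_nhds h1] with s hs
  exact (Pi_of_le hs.le).symm

lemma Pi_zero {x : ℝ≥0 → ℝ} : Pi x 0 = x 0 := by
  rw [Pi_of_le (t := 0) (J := 0) zero_le]
  rfl

end Pool.Agent.V11330.TB
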