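import Pool.Agent.V11330.TB.Flip

set_option autoImplicit false

open Set Filter Topology MeasureTheory ProbabilityTheory
open scoped NNReal ENNReal

namespace Pool.Agent.V11330.TB

open Pool.Agent.TH970

/-- the forward path of the two-sided path `(w, z)` seen from time `-u` -/
def fwd (u : ℝ≥0) (w z : ℝ≥0 → ℝ) : ℝ≥0 → ℝ := fun t => w (u - t) - w u + z (t - u)

/-- the backward path seen from time `u` -/
def bw (u : ℝ≥0) (x : ℝ≥0 → ℝ) : ℝ≥0 → ℝ := fun t => x (u - t) - x u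

/-- the forward path seen from time `u` -/
def fw (u : ℝ≥0) (x : ℝ≥0 → ℝ) : ℝ≥0 → ℝ := fun t => x (u + t) - x u

lemma measurable_fwd (u : ℝ≥0) :
    Measurable (fun q : (ℝ≥0 → ℝ) × (ℝ≥0 → ℝ) => fwd u q.1 q.2) := by
  unfold fwd
  fun_prop

lemma measurable_bw (u : ℝ≥0) : Measurable (bw u) := by
  unfold bw
  fun_prop

lemma measurable_fw (u : ℝ≥0) : Measurable (fw u) := by
  unfold fw
  fun_prop

lemma fwd_eq (u : ℝ≥0) (w z : ℝ≥0 → ℝ) : fwd u w z = cat u (-rev u w) z := by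
  funext t
  unfold fwd cat
  rw [Pi.neg_apply]
  unfold rev
  rw [max_eq_right (min_le_right t u)]
  rcases le_total t u with h | h
  · rw [min_eq_left h]; ring
  · rw [min_eq_right h, tsub_self, tsub_eq_zero_of_le h]; ring

lemma bw_fwd {u t : ℝ≥0} {w z : ℝ≥0 → ℝ} (hw : w 0 = 0) (h : t ≤ u) :
    bw u (fwd u w z) t = w t := by
  unfold bw fwd
  rw [tsub_tsub_cancel_of_le h, tsub_self, hw, tsub_eq_zero_of_le (tsub_le_self : u - t ≤ u)]
  ring

lemma fw_fwd {u : ℝ≥0} {w z : ℝ≥0 → ℝ} (hz : z 0 = 0) : fw u (fwd u w z) = z := by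
  funext t
  unfold fw fwd
  rw [tsub_eq_zero_of_le (le_self_add : u ≤ u + t), add_tsub_cancel_left, tsub_self, hz]
  ring

section
variable {Ω : Type*} [MeasurableSpace Ω] {P : Measure Ω} [IsProbabilityMeasure P]
  {B : ℝ≥0 → Ω → ℝ}

lemma measurable_inner (hB : CBM P B) {H : (ℝ≥0 → ℝ) → (ℝ≥0 → ℝ) → ℝ≥0∞}
    (hH : Measurable fun q : (ℝ≥0 → ℝ) × (ℝ≥0 → ℝ) => H q.1 q.2) :
    Measurable fun w => ∫⁻ ω', H w (path B ω') ∂P := by
  have h1 : Measurable fun q : (ℝ≥0 → ℝ) × Ω => H q.1 (path B q.2) :=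
    hH.comp (measurable_fst.prodMk (hB.mpath.comp measurable_snd))
  exact h1.lintegral_prod_right'

lemma lintegral_fwd (hB : CBM P B) (u : ℝ≥0) {G : (ℝ≥0 → ℝ) → ℝ≥0∞} (hG : Measurable G) :
    ∫⁻ ω, ∫⁻ ω', G (fwd u (path B ω) (path B ω')) ∂P ∂P = ∫⁻ ω, G (path B ω) ∂P := by
  have hm : Measurable fun w => ∫⁻ ω', G (cat u w (path B ω')) ∂P :=
    measurable_inner hB (H := fun w z => G (cat u w z)) (hG.comp (measurable_cat u))
  have hm' : Measurable fun w : ℝ≥0 → ℝ => ∫⁻ ω', G (cat u (-w) (path B ω')) ∂P :=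
    hm.comp (measurable_neg)
  simp only [fwd_eq]
  have h1 := lintegral_rev hB u hm'
  have h2 := lintegral_neg hB hm
  rw [h1, h2]
  exact lintegral_cat hB u hG

/-- change of viewpoint -/
lemma lintegral_view (hB : CBM P B) (u : ℝ≥0) {H1 H2 G : (ℝ≥0 → ℝ) → ℝ≥0∞}
    (h1m : Measurable H1) (h2m : Measurable H2) (hG : Measurable G) (h1 : Dep u H1) :
    ∫⁻ ω, ∫⁻ ω', H1 (path B ω) * H2 (path B ω') * G (fwd u (path B ω) (path B ω')) ∂P ∂P =
      ∫⁻ ω, H1 (bw u (path B ω)) * H2 (fw u (path B ω)) * G (path B ω) ∂P := by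
  have hK : Measurable fun x => H1 (bw u x) * H2 (fw u x) * G x :=
    ((h1m.comp (measurable_bw u)).mul (h2m.comp (measurable_fw u))).mul hG
  rw [← lintegral_fwd hB u hK]
  refine lintegral_congr fun ω => lintegral_congr fun ω' => ?_
  rw [fw_fwd (hB.path_zero _), h1 (bw u (fwd u (path B ω) (path B ω'))) (path B ω)
    fun t ht => bw_fwd (hB.path_zero _) ht]

/-- the law of the two-sided flipped path, seen from `-u` -/
theorem lintegral_X (hB : CBM P B) {i m : ℕ} {u T : ℝ≥0} (hu1 : (N i : ℝ≥0) + 1 ≤ u)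
    (hu2 : u ≤ N (i + 1)) (hT : T ≤ N (i + m + 1)) {F1 F2 G : (ℝ≥0 → ℝ) → ℝ≥0∞}
    (hF1m : Measurable F1) (hF2m : Measurable F2) (hGm : Measurable G)
    (hF1 : Dep (N i) F1) (hF2 : Dep (N i) F2) (hG : Dep T G) :
    ∫⁻ ω, ∫⁻ ω', F1 (Pi (path B ω)) * F2 (Pi (path B ω')) *
      G (fwd u (Pi (path B ω)) (Pi (path B ω'))) ∂P ∂P =
    ∫⁻ ω, (DW i (bw u (path B ω)) * F1 (bw u (path B ω))) *
      (DW (i + m) (fw u (path B ω)) * F2 (fw u (path B ω))) * G (path B ω) ∂P := by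
  have hNi : (N i : ℝ≥0) ≤ N (i + 1) := by exact_mod_cast N_mono (by omega)
  have hNm : (N i : ℝ≥0) ≤ N (i + m + 1) := by exact_mod_cast N_mono (by omega)
  have e1 : ∀ ω ω', F1 (Pi (path B ω)) * F2 (Pi (path B ω')) *
      G (fwd u (Pi (path B ω)) (Pi (path B ω'))) =
      F1 (Ps i (path B ω)) * F2 (Ps (i + m) (path B ω')) *
      G (fwd u (Ps i (path B ω)) (Ps (i + m) (path B ω'))) := by
    intro ω ω'
    rw [hF1 (Pi (path B ω)) (Ps i (path B ω)) fun t ht => Pi_of_le (ht.trans hNi),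
      hF2 (Pi (path B ω')) (Ps (i + m) (path B ω')) fun t ht => Pi_of_le (ht.trans hNm),
      hG (fwd u (Pi (path B ω)) (Pi (path B ω')))
        (fwd u (Ps i (path B ω)) (Ps (i + m) (path B ω'))) fun t ht => ?_]
    unfold fwd
    rw [Pi_of_le (tsub_le_self.trans hu2), Pi_of_le hu2,
      Pi_of_le (J := i + m) (tsub_le_self.trans (ht.trans hT))]
  simp only [e1]
  have hcm : ∀ w : ℝ≥0 → ℝ, Measurable fun z => G (fwd u w z) := by
    intro w
    have hpr : Measurable fun z : ℝ≥0 → ℝ => (w, z) := measurable_const.prodMk measurable_id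
    exact hGm.comp ((measurable_fwd u).comp hpr)
  -- the inner integral
  have e2 : ∀ w : ℝ≥0 → ℝ, ∫⁻ ω', F1 w * F2 (Ps (i + m) (path B ω')) *
      G (fwd u w (Ps (i + m) (path B ω'))) ∂P =
      ∫⁻ ω', F1 w * (DW (i + m) (path B ω') * F2 (path B ω')) *
      G (fwd u w (path B ω')) ∂P := by
    intro w
    have h3 : Measurable fun z => F1 w * F2 z * G (fwd u w z) :=
      (hF2m.const_mul _).mul (hcm w)
    rw [lintegral_Ps hB (i + m) h3]
    refine lintegral_congr fun ω' => ?_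
    ring
  simp only [e2]
  have hm : Measurable fun w => ∫⁻ ω', F1 w * (DW (i + m) (path B ω') * F2 (path B ω')) *
      G (fwd u w (path B ω')) ∂P := by
    refine measurable_inner hB (H := fun w z => F1 w * (DW (i + m) z * F2 z) * G (fwd u w z)) ?_
    exact ((hF1m.comp measurable_fst).mul (((measurable_DW _).comp measurable_snd).mul
      (hF2m.comp measurable_snd))).mul (hGm.comp (measurable_fwd u))
  rw [lintegral_Ps hB i hm]
  have hH1 : Dep u (fun x => DW i x * F1 x) := by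
    intro x y h
    show DW i x * F1 x = DW i y * F1 y
    rw [(dep_DW i).mono hu1 x y h, hF1.mono (le_self_add.trans hu1) x y h]
  rw [← lintegral_view hB u (H1 := fun x => DW i x * F1 x)
    (H2 := fun x => DW (i + m) x * F2 x) ((measurable_DW i).mul hF1m)
    ((measurable_DW (i + m)).mul hF2m) hGm hH1]
  refine lintegral_congr fun ω => ?_
  have h4 : Measurable fun ω' => F1 (path B ω) * (DW (i + m) (path B ω') * F2 (path B ω')) *
      G (fwd u (path B ω) (path B ω')) :=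
    ((((measurable_DW (i + m)).comp hB.mpath).mul (hF2m.comp hB.mpath)).const_mul _).mul
      ((hcm _).comp hB.mpath)
  rw [← lintegral_const_mul _ h4]
  refine lintegral_congr fun ω' => ?_
  ring

/-- the weight seen from `u` -/
noncomputable def ZZ (i m : ℕ) (F1 F2 : (ℝ≥0 → ℝ) → ℝ≥0∞) (u : ℝ≥0) (x : ℝ≥0 → ℝ) : ℝ≥0∞ :=
  (DW i (bw u x) * F1 (bw u x)) * (DW (i + m) (fw u x) * F2 (fw u x))

/-- the factors of the weight -/
noncomputable def GG (i : ℕ) (F1 F2 : (ℝ≥0 → ℝ) → ℝ≥0∞) (u : ℝ≥0) : ℕ → (ℝ≥0 → ℝ) → ℝ≥0∞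
  | 0 => fun x => (DW i (bw u x) * F1 (bw u x)) * (DW i (fw u x) * F2 (fw u x))
  | j + 1 => fun x => wt (i + j + 1) (fw u x)

omit [IsProbabilityMeasure P] [MeasurableSpace Ω] in
lemma ZZ_eq (i m : ℕ) (F1 F2 : (ℝ≥0 → ℝ) → ℝ≥0∞) (u : ℝ≥0) (x : ℝ≥0 → ℝ) :
    ZZ i m F1 F2 u x = ∏ j ∈ Finset.range (m + 1), GG i F1 F2 u j x := by
  rw [Finset.prod_range_succ']
  have h1 : DW (i + m) (fw u x) = DW i (fw u x) *
      ∏ j ∈ Finset.range m, wt (i + j + 1) (fw u x) := by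
    unfold DW
    rw [Finset.prod_range_add]
  unfold ZZ
  rw [h1]
  show _ = (∏ j ∈ Finset.range m, wt (i + j + 1) (fw u x)) *
    ((DW i (bw u x) * F1 (bw u x)) * (DW i (fw u x) * F2 (fw u x)))
  ring

/-- left end points -/
noncomputable def lo (i : ℕ) (u : ℝ≥0) : ℕ → ℝ≥0
  | 0 => u - (N i + 1)
  | j + 1 => u + N (i + j + 1)

/-- right end points -/
noncomputable def hi (i : ℕ) (u : ℝ≥0) : ℕ → ℝ≥0
  | 0 => u + (N i + 1)
  | j + 1 => u + N (i + j + 1) + el (i + j + 1)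

lemma lo_le_hi (i : ℕ) (u : ℝ≥0) (j : ℕ) : lo i u j ≤ hi i u j := by
  cases j with
  | zero => exact tsub_le_self.trans le_self_add
  | succ j => exact le_self_add

lemma measurable_GG (i : ℕ) {F1 F2 : (ℝ≥0 → ℝ) → ℝ≥0∞} (h1 : Measurable F1) (h2 : Measurable F2)
    (u : ℝ≥0) (j : ℕ) : Measurable (GG i F1 F2 u j) := by
  cases j with
  | zero =>
    exact (((measurable_DW i).comp (measurable_bw u)).mul (h1.comp (measurable_bw u))).mul
      (((measurable_DW i).comp (measurable_fw u)).mul (h2.comp (measurable_fw u)))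
  | succ j => exact (measurable_wt _).comp (measurable_fw u)

lemma GG_cl {i : ℕ} {F1 F2 : (ℝ≥0 → ℝ) → ℝ≥0∞} (h1 : Dep (N i) F1) (h2 : Dep (N i) F2)
    {u : ℝ≥0} (hu : (N i : ℝ≥0) + 1 ≤ u) (j : ℕ) (x : ℝ≥0 → ℝ) :
    GG i F1 F2 u j (cl (lo i u j) (hi i u j) x) = GG i F1 F2 u j x := by
  cases j with
  | zero =>
    have hcl : ∀ s, u ≤ s + (N i + 1) → s ≤ u + (N i + 1) →
        cl (lo i u 0) (hi i u 0) x s = x s - x (lo i u 0) := by
      intro s hs1 hs2
      exact cl_of_mem x (tsub_le_iff_right.2 hs1) hs2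
    have hcu : cl (lo i u 0) (hi i u 0) x u = x u - x (lo i u 0) :=
      hcl u le_self_add le_self_add
    have hb : ∀ t, t ≤ (N i : ℝ≥0) + 1 →
        bw u (cl (lo i u 0) (hi i u 0) x) t = bw u x t := by
      intro t ht
      unfold bw
      rw [hcu, hcl (u - t)]
      · ring
      · calc u = u - t + t := (tsub_add_cancel_of_le (ht.trans hu)).symm
          _ ≤ _ := by gcongr
      · exact tsub_le_self.trans le_self_add
    have hf : ∀ t, t ≤ (N i : ℝ≥0) + 1 →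
        fw u (cl (lo i u 0) (hi i u 0) x) t = fw u x t := by
      intro t ht
      unfold fw
      rw [hcu, hcl (u + t)]
      · ring
      · exact le_self_add.trans le_self_add
      · gcongr
    show (DW i _ * F1 _) * (DW i _ * F2 _) = (DW i _ * F1 _) * (DW i _ * F2 _)
    rw [dep_DW i _ _ hb, dep_DW i _ _ hf, h1 _ _ fun t ht => hb t (ht.trans le_self_add),
      h2 _ _ fun t ht => hf t (ht.trans le_self_add)]
  | succ j =>
    have hc1 : cl (lo i u (j + 1)) (hi i u (j + 1)) x (u + N (i + j + 1)) =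
        x (u + N (i + j + 1)) - x (u + N (i + j + 1)) := cl_of_mem x le_rfl le_self_add
    have hc2 : cl (lo i u (j + 1)) (hi i u (j + 1)) x (u + N (i + j + 1) + el (i + j + 1)) =
        x (u + N (i + j + 1) + el (i + j + 1)) - x (u + N (i + j + 1)) :=
      cl_of_mem x le_self_add le_rfl
    show wt _ _ = wt _ _
    unfold wt fw
    rw [← add_assoc, hc1, hc2]
    simp only [sub_lt_sub_iff_right]

end

end Pool.Agent.V11330.TB
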