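import Mathlib

set_option autoImplicit false

open Set Filter Topology MeasureTheory ProbabilityTheory
open scoped NNReal ENNReal

namespace Pool.Agent.V11330.TB

variable {Ω E U : Type*} [MeasurableSpace Ω] [MeasurableSpace E] [MeasurableSpace U]

/-- mapping a measure with a density pulled back from the target -/
lemma map_withDensity_comp {α β : Type*} [MeasurableSpace α] [MeasurableSpace β] {μ : Measure α}
    {f : α → β} (hf : Measurable f) {r : β → ℝ≥0∞} (hr : Measurable r) :
    (μ.withDensity (r ∘ f)).map f = (μ.map f).withDensity r := by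
  ext A hA
  rw [Measure.map_apply hf hA, withDensity_apply _ (hf hA), withDensity_apply _ hA,
    setLIntegral_map hA hr hf]
  rfl

/-- the lower bound for the overlap of two measures -/
lemma overlap {W Q : Measure E} [IsProbabilityMeasure W] [IsFiniteMeasure Q] {a c ε : ℝ≥0∞}
    (ha : a ≤ 1) (hc : c ≤ 1) {g : E → ℝ≥0∞} (hg : Measurable g) (hg1 : ∀ x, g x ≤ 1)
    (hQ : ∀ A, MeasurableSet A → a * W A ≤ Q A + ε) :
    c * a * ∫⁻ x, g x ∂W ≤ ∫⁻ x, min (c * Q.rnDeriv W x) (g x) ∂W + c * ε := by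
  set d := Q.rnDeriv W with hd
  have hdm : Measurable d := Measure.measurable_rnDeriv Q W
  set D : Set E := {x | d x < a} with hD
  have hDm : MeasurableSet D := measurableSet_lt hdm measurable_const
  -- the set carrying the absolutely continuous part
  obtain ⟨N, hN, hN1, hN2⟩ := Measure.mutuallySingular_singularPart Q W
  have hQD : a * W D ≤ ∫⁻ x in D, d x ∂W + ε := by
    have h1 : W (D ∩ N) = W D := measure_inter_conull hN2
    have h2 : Q (D ∩ N) = ∫⁻ x in D ∩ N, d x ∂W := by
      have h3 : Q = Q.singularPart W + W.withDensity (Q.rnDeriv W) :=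
        (Measure.singularPart_add_rnDeriv Q W).symm
      have h4 : Q (D ∩ N) = Q.singularPart W (D ∩ N) + W.withDensity (Q.rnDeriv W) (D ∩ N) := by
        conv_lhs => rw [h3]
        rfl
      rw [h4, measure_mono_null inter_subset_right hN1, zero_add,
        withDensity_apply _ (hDm.inter hN)]
    calc a * W D = a * W (D ∩ N) := by rw [h1]
      _ ≤ Q (D ∩ N) + ε := hQ _ (hDm.inter hN)
      _ ≤ _ := by
        rw [h2]
        exact add_le_add (lintegral_mono_set inter_subset_left) le_rfl
  have hfin : ∫⁻ x in D, d x ∂W ≠ ∞ := by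
    refine ne_top_of_le_ne_top ?_ (lintegral_mono_set (subset_univ D))
    rw [Measure.restrict_univ]
    exact (Measure.lintegral_rnDeriv_lt_top Q W).ne
  have hpt : ∀ x, c * a * g x + c * (D.indicator d x) ≤
      min (c * d x) (g x) + c * a * (D.indicator 1 x) := by
    intro x
    have hg1x := hg1 x
    have e1 : c * a * g x ≤ c * a := by
      calc c * a * g x ≤ c * a * 1 := by gcongr
        _ = c * a := mul_one _
    have e2 : c * a * g x ≤ g x := by
      calc c * a * g x ≤ 1 * 1 * g x := by gcongr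
        _ = g x := by ring
    by_cases hx : x ∈ D
    · rw [indicator_of_mem hx, indicator_of_mem hx, Pi.one_apply, mul_one]
      have hdx : c * d x ≤ c * a := by
        have : d x ≤ a := le_of_lt hx
        gcongr
      rcases le_total (c * d x) (g x) with h | h
      · rw [min_eq_left h, add_comm]
        gcongr
      · rw [min_eq_right h]
        exact add_le_add e2 hdx
    · rw [indicator_of_notMem hx, indicator_of_notMem hx, mul_zero, mul_zero, add_zero, add_zero]
      have hdx : a ≤ d x := not_lt.1 hx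
      refine le_min ?_ e2
      refine e1.trans ?_
      gcongr
  have hint := lintegral_mono (μ := W) hpt
  have hmin : Measurable fun x => min (c * d x) (g x) := (hdm.const_mul c).min hg
  rw [lintegral_add_left (hg.const_mul _), lintegral_const_mul _ hg,
    lintegral_const_mul _ (hdm.indicator hDm), lintegral_indicator hDm,
    lintegral_add_left hmin, lintegral_const_mul _ (measurable_one.indicator hDm),
    lintegral_indicator_one hDm] at hint
  have h5 : c * a * W D ≤ c * ∫⁻ x in D, d x ∂W + c * ε := by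
    calc c * a * W D = c * (a * W D) := by ring
      _ ≤ c * (∫⁻ x in D, d x ∂W + ε) := by gcongr
      _ = _ := by ring
  have hcfin : c * ∫⁻ x in D, d x ∂W ≠ ∞ :=
    ENNReal.mul_ne_top (ne_top_of_le_ne_top ENNReal.one_ne_top hc) hfin
  have h6 : c * a * ∫⁻ x, g x ∂W + c * ∫⁻ x in D, d x ∂W ≤
      (∫⁻ x, min (c * d x) (g x) ∂W + c * ε) + c * ∫⁻ x in D, d x ∂W := by
    calc _ ≤ _ := hint
      _ ≤ ∫⁻ x, min (c * d x) (g x) ∂W + (c * ∫⁻ x in D, d x ∂W + c * ε) := by gcongr
      _ = _ := by ring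
  exact (ENNReal.add_le_add_iff_right hcfin).1 h6

/-- one step of the greedy filling -/
lemma step (P : Measure Ω) [IsProbabilityMeasure P] (W : Measure E) [IsProbabilityMeasure W]
    (Φ : Ω × U → E) (hΦ : Measurable Φ) (S : Set U)
    (H : ∀ F, MeasurableSet F → ∀ ε : ℝ, 0 < ε → ∃ q : Measure U, IsProbabilityMeasure q ∧
      q Sᶜ = 0 ∧ ∀ A, MeasurableSet A →
        P F * W A ≤ ((P.restrict F).prod q) (Φ ⁻¹' A) + ENNReal.ofReal ε)
    (Γ : Measure (Ω × U)) (h1 : Γ.fst ≤ P) (h2 : Γ.map Φ ≤ W) :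
    ∃ Λ : Measure (Ω × U), (Γ + Λ).fst ≤ P ∧ (Γ + Λ).map Φ ≤ W ∧
      Λ (Prod.snd ⁻¹' Sᶜ) = 0 ∧ ENNReal.ofReal ((1 - Γ.real univ) ^ 3 / 8) ≤ Λ univ := by
  have hΓu : Γ univ ≤ 1 := by
    have h3 := h1 univ
    rw [Measure.fst_univ] at h3
    exact h3.trans (measure_univ (μ := P)).le
  have hΓfin : IsFiniteMeasure Γ := ⟨hΓu.trans_lt ENNReal.one_lt_top⟩
  set θ : ℝ := 1 - Γ.real univ with hθ
  have hθ0 : 0 ≤ θ := by
    have : Γ.real univ ≤ 1 := by
      rw [measureReal_def]
      exact ENNReal.toReal_le_of_le_ofReal zero_le_one (by simpa using hΓu)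
    linarith
  rcases hθ0.eq_or_lt with hz | hpos
  · refine ⟨0, ?_, ?_, ?_, ?_⟩
    · rwa [add_zero]
    · rwa [add_zero]
    · simp
    · rw [← hz]; simp
  have hθ1 : θ ≤ 1 := by
    have : 0 ≤ Γ.real univ := measureReal_nonneg
    linarith
  have hΓθ : Γ univ = ENNReal.ofReal (1 - θ) := by
    rw [hθ, measureReal_def, sub_sub_cancel, ENNReal.ofReal_toReal (measure_ne_top _ _)]
  have hone : ENNReal.ofReal θ = 1 - Γ univ := by
    rw [hΓθ, show (1 : ℝ≥0∞) = ENNReal.ofReal 1 by simp, ← ENNReal.ofReal_sub _ (by linarith)]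
    congr 1; ring
  -- the residual supply
  set Rs : Measure Ω := P - Γ.fst with hRs
  have hRsadd : Rs + Γ.fst = P := Measure.sub_add_cancel_of_le h1
  have hRsle : Rs ≤ P := Measure.sub_le
  have hRsu : Rs univ = ENNReal.ofReal θ := by
    have h3 : Rs univ + Γ.fst univ = 1 := by
      have := congrArg (fun m => m univ) hRsadd
      simpa using this
    rw [Measure.fst_univ] at h3
    rw [hone]
    exact ENNReal.eq_sub_of_add_eq (measure_ne_top _ _) h3
  have hRsfin : IsFiniteMeasure Rs := ⟨by rw [hRsu]; exact ENNReal.ofReal_lt_top⟩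
  set f := Rs.rnDeriv P with hf
  have hfm : Measurable f := Measure.measurable_rnDeriv _ _
  have hRsd : P.withDensity f = Rs := Measure.withDensity_rnDeriv_eq _ _
    (Measure.absolutelyContinuous_of_le hRsle)
  set c : ℝ≥0∞ := ENNReal.ofReal (θ / 2) with hc
  have hc1 : c ≤ 1 := by
    rw [hc]; exact ENNReal.ofReal_le_one.2 (by linarith)
  set F : Set Ω := {ω | c ≤ f ω} with hF
  have hFm : MeasurableSet F := measurableSet_le measurable_const hfm
  have hPF : c ≤ P F := by
    have h3 : Rs univ = Rs F + Rs Fᶜ := (measure_add_measure_compl hFm).symm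
    have h4 : Rs Fᶜ ≤ c := by
      rw [← hRsd, withDensity_apply _ hFm.compl]
      calc ∫⁻ ω in Fᶜ, f ω ∂P ≤ ∫⁻ ω in Fᶜ, c ∂P := by
            refine setLIntegral_mono measurable_const fun ω hω => ?_
            exact le_of_lt (not_le.1 hω)
        _ ≤ ∫⁻ ω, c ∂P := lintegral_mono' Measure.restrict_le_self le_rfl
        _ = c := by simp
    have h5 : Rs F ≤ P F := hRsle F
    rw [hRsu] at h3
    have h6 : ENNReal.ofReal θ = c + c := by
      rw [hc, ← ENNReal.ofReal_add (by positivity) (by positivity)]; congr 1; ring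
    rw [h6] at h3
    have h7 : c + c ≤ P F + c := by
      rw [h3]; exact add_le_add h5 h4
    exact (ENNReal.add_le_add_iff_right ENNReal.ofReal_ne_top).1 h7
  have hcF : c • P.restrict F ≤ Rs := by
    refine Measure.le_iff.2 fun A hA => ?_
    rw [← hRsd, withDensity_apply _ hA, Measure.smul_apply, Measure.restrict_apply hA, smul_eq_mul]
    calc c * P (A ∩ F) = ∫⁻ ω in A ∩ F, c ∂P := by simp
      _ ≤ ∫⁻ ω in A ∩ F, f ω ∂P := setLIntegral_mono hfm fun ω hω => hω.2
      _ ≤ _ := lintegral_mono_set inter_subset_left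
  -- the residual demand
  set Rd : Measure E := W - Γ.map Φ with hRd
  have hRdadd : Rd + Γ.map Φ = W := Measure.sub_add_cancel_of_le h2
  have hRdle : Rd ≤ W := Measure.sub_le
  have hmapu : Γ.map Φ univ = Γ univ := by
    rw [Measure.map_apply hΦ MeasurableSet.univ, preimage_univ]
  have hRdu : Rd univ = ENNReal.ofReal θ := by
    have h3 : Rd univ + Γ.map Φ univ = 1 := by
      have := congrArg (fun m => m univ) hRdadd
      simpa using this
    rw [hmapu] at h3
    rw [hone]
    exact ENNReal.eq_sub_of_add_eq (measure_ne_top _ _) h3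
  have hRdfin : IsFiniteMeasure Rd := ⟨by rw [hRdu]; exact ENNReal.ofReal_lt_top⟩
  set g : E → ℝ≥0∞ := fun x => min (Rd.rnDeriv W x) 1 with hg
  have hgm : Measurable g := (Measure.measurable_rnDeriv _ _).min measurable_const
  have hg1 : ∀ x, g x ≤ 1 := fun x => min_le_right _ _
  have hRdd : W.withDensity g = Rd := by
    have h3 : W.withDensity (Rd.rnDeriv W) = Rd := Measure.withDensity_rnDeriv_eq _ _
      (Measure.absolutelyContinuous_of_le hRdle)
    rw [← h3]
    refine withDensity_congr_ae ?_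
    filter_upwards [Measure.rnDeriv_le_one_of_le hRdle] with x hx
    exact min_eq_left hx
  -- the new candidate
  obtain ⟨q, hq, hqS, hqA⟩ := H F hFm (θ ^ 3 / 8 ) (by positivity)
  set base0 : Measure (Ω × U) := (P.restrict F).prod q with hbase0
  set Q : Measure E := base0.map Φ with hQ
  have hQfin : IsFiniteMeasure Q := Measure.isFiniteMeasure_map base0 Φ
  have hQA : ∀ A, MeasurableSet A → P F * W A ≤ Q A + ENNReal.ofReal (θ ^ 3 / 8) := by
    intro A hA
    rw [hQ, Measure.map_apply hΦ hA]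
    exact hqA A hA
  have hov := overlap (W := W) (Q := Q) (a := P F) (c := c) prob_le_one hc1 hgm hg1 hQA
  have hgint : ∫⁻ x, g x ∂W = ENNReal.ofReal θ := by
    rw [← hRdu, ← hRdd, withDensity_apply _ MeasurableSet.univ, Measure.restrict_univ]
  rw [hgint] at hov
  set d := Q.rnDeriv W with hd
  have hdm : Measurable d := Measure.measurable_rnDeriv Q W
  set μ' : Measure E := W.withDensity (fun x => min (c * d x) (g x)) with hμ'
  have hminm : Measurable fun x => min (c * d x) (g x) := (hdm.const_mul c).min hgm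
  have hμd : μ' ≤ Rd := by
    rw [← hRdd]
    exact withDensity_mono (ae_of_all _ fun x => min_le_right _ _)
  have hμc : μ' ≤ c • Q := by
    calc μ' ≤ W.withDensity (fun x => c * d x) := withDensity_mono (ae_of_all _ fun x => min_le_left _ _)
      _ = c • W.withDensity d := withDensity_smul c hdm
      _ ≤ c • Q := by
        refine Measure.le_iff.2 fun A hA => ?_
        rw [Measure.smul_apply, Measure.smul_apply]
        exact mul_le_mul_right (Measure.withDensity_rnDeriv_le Q W A) c
  have hcQfin : IsFiniteMeasure (c • Q) := by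
    refine ⟨?_⟩
    rw [Measure.smul_apply, smul_eq_mul]
    exact ENNReal.mul_lt_top ENNReal.ofReal_lt_top (measure_lt_top _ _)
  set r := μ'.rnDeriv (c • Q) with hr
  have hrm : Measurable r := Measure.measurable_rnDeriv _ _
  have hμfin : IsFiniteMeasure μ' := ⟨(hμc univ).trans_lt (measure_lt_top _ _)⟩
  have hrd : (c • Q).withDensity r = μ' := Measure.withDensity_rnDeriv_eq _ _
    (Measure.absolutelyContinuous_of_le hμc)
  set base : Measure (Ω × U) := c • base0 with hbase
  have hmapbase : base.map Φ = c • Q := by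
    rw [hbase, Measure.map_smul]
  set Λ : Measure (Ω × U) := base.withDensity (r ∘ Φ) with hΛ
  have hΛmap : Λ.map Φ = μ' := by
    rw [hΛ, map_withDensity_comp hΦ hrm, hmapbase, hrd]
  have hΛle : Λ ≤ base := by
    have h3 : r ≤ᵐ[base.map Φ] 1 := by
      rw [hmapbase]; exact Measure.rnDeriv_le_one_of_le hμc
    have h4 : ∀ᵐ z ∂base, (r ∘ Φ) z ≤ 1 := ae_of_ae_map hΦ.aemeasurable h3
    calc Λ ≤ base.withDensity 1 := withDensity_mono h4
      _ = base := withDensity_one
  have hbasefst : base.fst ≤ Rs := by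
    refine le_trans (le_of_eq ?_) hcF
    rw [hbase, Measure.fst, Measure.map_smul]
    congr 1
    exact Measure.fst_prod
  refine ⟨Λ, ?_, ?_, ?_, ?_⟩
  · have h3 : (Γ + Λ).fst = Γ.fst + Λ.fst := Measure.map_add _ _ measurable_fst
    rw [h3, ← hRsadd, add_comm Rs]
    have h4 : Λ.fst ≤ base.fst := Measure.map_mono hΛle measurable_fst
    exact add_le_add le_rfl (h4.trans hbasefst)
  · rw [Measure.map_add _ _ hΦ, hΛmap, ← hRdadd, add_comm Rd]
    exact add_le_add le_rfl hμd
  · refine le_antisymm ?_ bot_le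
    refine (hΛle _).trans ?_
    rw [hbase, Measure.smul_apply, smul_eq_mul]
    have h3 : base0 (Prod.snd ⁻¹' Sᶜ) = 0 := by
      have h4 : (Prod.snd ⁻¹' Sᶜ : Set (Ω × U)) = univ ×ˢ Sᶜ := by
        ext ⟨x, y⟩; simp
      rw [h4, hbase0, Measure.prod_prod, hqS, mul_zero]
    rw [h3, mul_zero]
  · have h3 : Λ univ = μ' univ := by
      rw [← hΛmap, Measure.map_apply hΦ MeasurableSet.univ, preimage_univ]
    rw [h3, hμ', withDensity_apply _ MeasurableSet.univ, Measure.restrict_univ]
    have h4 : c * P F * ENNReal.ofReal θ ≤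
        ∫⁻ x, min (c * d x) (g x) ∂W + ENNReal.ofReal (θ ^ 3 / 8) := by
      refine hov.trans ?_
      gcongr
      calc c * ENNReal.ofReal (θ ^ 3 / 8) ≤ 1 * ENNReal.ofReal (θ ^ 3 / 8) := by gcongr
        _ = _ := one_mul _
    have h5 : ENNReal.ofReal (θ ^ 3 / 8) + ENNReal.ofReal (θ ^ 3 / 8) ≤
        c * P F * ENNReal.ofReal θ := by
      calc ENNReal.ofReal (θ ^ 3 / 8) + ENNReal.ofReal (θ ^ 3 / 8) = c * c * ENNReal.ofReal θ := by
            rw [hc, ← ENNReal.ofReal_mul (by positivity), ← ENNReal.ofReal_mul (by positivity),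
              ← ENNReal.ofReal_add (by positivity) (by positivity)]
            congr 1; ring
        _ ≤ _ := by gcongr
    exact (ENNReal.add_le_add_iff_right ENNReal.ofReal_ne_top).1 (h5.trans h4)

/-- **the greedy filling**: a coupling with prescribed marginals -/
theorem exists_coupling (P : Measure Ω) [IsProbabilityMeasure P] (W : Measure E)
    [IsProbabilityMeasure W] (Φ : Ω × U → E) (hΦ : Measurable Φ) (S : Set U)
    (H : ∀ F, MeasurableSet F → ∀ ε : ℝ, 0 < ε → ∃ q : Measure U, IsProbabilityMeasure q ∧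
      q Sᶜ = 0 ∧ ∀ A, MeasurableSet A →
        P F * W A ≤ ((P.restrict F).prod q) (Φ ⁻¹' A) + ENNReal.ofReal ε) :
    ∃ Γ : Measure (Ω × U), Γ.fst = P ∧ Γ.map Φ = W ∧ Γ (Prod.snd ⁻¹' Sᶜ) = 0 := by
  choose! Λ hΛ1 hΛ2 hΛ3 hΛ4 using step P W Φ hΦ S H
  let G : ℕ → Measure (Ω × U) := fun n => Nat.rec 0 (fun _ Γ => Γ + Λ Γ) n
  have hG0 : G 0 = 0 := rfl
  have hGs : ∀ n, G (n + 1) = G n + Λ (G n) := fun n => rfl
  have hadm : ∀ n, (G n).fst ≤ P ∧ (G n).map Φ ≤ W := by
    intro n
    induction n with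
    | zero =>
      rw [hG0]
      refine ⟨?_, ?_⟩
      · rw [Measure.fst_zero]; exact Measure.zero_le _
      · rw [Measure.map_zero]; exact Measure.zero_le _
    | succ n ih =>
      rw [hGs]
      exact ⟨hΛ1 _ ih.1 ih.2, hΛ2 _ ih.1 ih.2⟩
  have hsum : ∀ n A, G n A = ∑ k ∈ Finset.range n, Λ (G k) A := by
    intro n A
    induction n with
    | zero => simp [hG0]
    | succ n ih => rw [hGs, Finset.sum_range_succ, ← ih]; rfl
  set Γ : Measure (Ω × U) := Measure.sum fun k => Λ (G k) with hΓ
  have hle : ∀ A, MeasurableSet A → ∀ C, (∀ n, G n A ≤ C) → Γ A ≤ C := by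
    intro A hA C hC
    rw [hΓ, Measure.sum_apply _ hA]
    refine ENNReal.tsum_le_of_sum_range_le fun n => ?_
    rw [← hsum]
    exact hC n
  have hfst : Γ.fst ≤ P := by
    refine Measure.le_iff.2 fun A hA => ?_
    rw [Measure.fst_apply hA]
    refine hle _ (measurable_fst hA) _ fun n => ?_
    rw [← Measure.fst_apply hA]
    exact (hadm n).1 A
  have hmap : Γ.map Φ ≤ W := by
    refine Measure.le_iff.2 fun A hA => ?_
    rw [Measure.map_apply hΦ hA]
    refine hle _ (hΦ hA) _ fun n => ?_
    rw [← Measure.map_apply hΦ hA]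
    exact (hadm n).2 A
  have hΓu : Γ univ ≤ 1 := by
    have h3 := hfst univ
    rw [Measure.fst_univ] at h3
    exact h3.trans (measure_univ (μ := P)).le
  have hGle : ∀ n, G n univ ≤ Γ univ := by
    intro n
    rw [hsum, hΓ, Measure.sum_apply _ MeasurableSet.univ]
    exact ENNReal.sum_le_tsum _
  have hmass : Γ univ = 1 := by
    by_contra hne
    have hlt : Γ univ < 1 := lt_of_le_of_ne hΓu hne
    set m : ℝ := Γ.real univ with hm
    have hm1 : m < 1 := by
      rw [hm, measureReal_def]
      exact (ENNReal.toReal_lt_toReal (hlt.trans_le le_top).ne ENNReal.one_ne_top).2 hlt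
    have hinc : ∀ k, ENNReal.ofReal ((1 - m) ^ 3 / 8) ≤ Λ (G k) univ := by
      intro k
      refine le_trans ?_ (hΛ4 _ (hadm k).1 (hadm k).2)
      refine ENNReal.ofReal_le_ofReal ?_
      have h4 : (G k).real univ ≤ m := by
        rw [hm, measureReal_def, measureReal_def]
        exact ENNReal.toReal_mono (hlt.trans_le le_top).ne (hGle k)
      have h5 : 0 ≤ 1 - m := by linarith
      gcongr
    have hbig : ∀ n : ℕ, (n : ℝ≥0∞) * ENNReal.ofReal ((1 - m) ^ 3 / 8) ≤ 1 := by
      intro n
      calc (n : ℝ≥0∞) * ENNReal.ofReal ((1 - m) ^ 3 / 8)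
          = ∑ k ∈ Finset.range n, ENNReal.ofReal ((1 - m) ^ 3 / 8) := by simp
        _ ≤ ∑ k ∈ Finset.range n, Λ (G k) univ := Finset.sum_le_sum fun k _ => hinc k
        _ = G n univ := (hsum n univ).symm
        _ ≤ 1 := (hGle n).trans hΓu
    have hκ : 0 < (1 - m) ^ 3 / 8 := by
      have : 0 < 1 - m := by linarith
      positivity
    obtain ⟨n, hn⟩ := exists_nat_gt (1 / ((1 - m) ^ 3 / 8))
    have h6 := hbig n
    rw [← ENNReal.ofReal_natCast, ← ENNReal.ofReal_mul (Nat.cast_nonneg n),
      ENNReal.ofReal_le_one] at h6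
    rw [div_lt_iff₀ hκ] at hn
    linarith
  have hΓp : IsProbabilityMeasure Γ := ⟨hmass⟩
  refine ⟨Γ, ?_, ?_, ?_⟩
  · refine Measure.eq_of_le_of_measure_univ_eq hfst ?_
    rw [Measure.fst_univ, hmass, measure_univ]
  · refine Measure.eq_of_le_of_measure_univ_eq hmap ?_
    rw [Measure.map_apply hΦ MeasurableSet.univ, preimage_univ, hmass, measure_univ]
  · refine le_antisymm ?_ bot_le
    obtain ⟨T, hT1, hT2, hT3⟩ := exists_measurable_superset_of_null
      (show Γ (Prod.snd ⁻¹' Sᶜ) = 0 from by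
        rw [hΓ]
        refine Measure.sum_apply_eq_zero.2 fun k => hΛ3 _ (hadm k).1 (hadm k).2)
    exact (measure_mono hT1).trans hT3.le

/-- the coupling is realised by a random variable on the product with the unit interval -/
theorem exists_random [StandardBorelSpace U] [Nonempty U] (P : Measure Ω)
    [IsProbabilityMeasure P] (W : Measure E)
    [IsProbabilityMeasure W] (Φ : Ω × U → E) (hΦ : Measurable Φ) (S : Set U)
    (hS : MeasurableSet S)
    (H : ∀ F, MeasurableSet F → ∀ ε : ℝ, 0 < ε → ∃ q : Measure U, IsProbabilityMeasure q ∧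
      q Sᶜ = 0 ∧ ∀ A, MeasurableSet A →
        P F * W A ≤ ((P.restrict F).prod q) (Φ ⁻¹' A) + ENNReal.ofReal ε) :
    ∃ h : Ω × unitInterval → U, Measurable h ∧
      (P.prod volume).map (fun z => Φ (z.1, h z)) = W ∧ ∀ᵐ z ∂(P.prod volume), h z ∈ S := by
  obtain ⟨Γ, h1, h2, h3⟩ := exists_coupling P W Φ hΦ S H
  have hΓp : IsProbabilityMeasure Γ := by
    refine ⟨?_⟩
    rw [← Measure.fst_univ, h1, measure_univ]
  obtain ⟨f, hf, hfκ⟩ := Kernel.exists_measurable_map_eq_unitInterval Γ.condKernel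
  set h : Ω × unitInterval → U := fun z => f z.1 z.2 with hh
  have hhm : Measurable h := hf
  have hpair : Measurable fun z : Ω × unitInterval => (z.1, h z) := measurable_fst.prodMk hhm
  have hlaw : (P.prod volume).map (fun z : Ω × unitInterval => (z.1, h z)) = Γ := by
    conv_rhs => rw [← Γ.disintegrate Γ.condKernel, h1]
    ext A hA
    rw [Measure.map_apply hpair hA, Measure.prod_apply (hpair hA), Measure.compProd_apply hA]
    refine lintegral_congr fun ω => ?_
    have hfω : Measurable (f ω) := hf.comp measurable_prodMk_left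
    rw [← hfκ ω, Measure.map_apply hfω (measurable_prodMk_left hA)]
    rfl
  refine ⟨h, hhm, ?_, ?_⟩
  · rw [← h2, ← hlaw, Measure.map_map hΦ hpair]
    rfl
  · rw [ae_iff]
    have h4 : (P.prod volume) {z | ¬ h z ∈ S} = Γ (Prod.snd ⁻¹' Sᶜ) := by
      rw [← hlaw, Measure.map_apply hpair (measurable_snd hS.compl)]
      rfl
    rw [h4, h3]

end Pool.Agent.V11330.TB
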