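import Pool.Agent.V11330.BMTools

set_option autoImplicit false

open Set Filter Topology MeasureTheory ProbabilityTheory
open scoped NNReal ENNReal

namespace Pool.Agent.V11330.TB

open Pool.Agent.TH970

/-- the path which moves only during `[a, b]` -/
def cl (a b : ℝ≥0) (x : ℝ≥0 → ℝ) : ℝ≥0 → ℝ := fun t => x (max a (min t b)) - x a

lemma measurable_cl (a b : ℝ≥0) : Measurable (cl a b) := by
  unfold cl
  fun_prop

lemma cl_of_mem {a b t : ℝ≥0} (x : ℝ≥0 → ℝ) (h1 : a ≤ t) (h2 : t ≤ b) : cl a b x t = x t - x a := by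
  unfold cl
  rw [min_eq_left h2, max_eq_right h1]

section
variable {Ω : Type*} [MeasurableSpace Ω] {P : Measure Ω} [IsProbabilityMeasure P]
  {B : ℝ≥0 → Ω → ℝ}

lemma cov_zero (hB : IsPreBrownianReal B P) {a s a' s' : ℝ≥0} (h1 : a ≤ s) (h2 : s ≤ a')
    (h3 : a' ≤ s') : cov[fun ω => B s ω - B a ω, fun ω => B s' ω - B a' ω; P] = 0 := by
  have hG := hB.isGaussianProcess
  have hL2 : ∀ t, MemLp (B t) 2 P := fun t => (hG.hasGaussianLaw_eval t).memLp_two
  have h := covariance_fun_sub_fun_sub (hL2 s) (hL2 a) (hL2 s') (hL2 a')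
  rw [h]
  simp_rw [hB.covariance_fun_eval]
  rw [min_eq_left (h2.trans h3), min_eq_left h2, min_eq_left ((h1.trans h2).trans h3),
    min_eq_left (h1.trans h2)]
  ring

/-- independence of the increments over disjoint intervals -/
theorem iIndep_cl (hB : CBM P B) {ι : Type*} (a b : ι → ℝ≥0) (hab : ∀ i, a i ≤ b i)
    (hd : ∀ i j, i ≠ j → b i ≤ a j ∨ b j ≤ a i) :
    iIndepFun (fun i ω => cl (a i) (b i) (path B ω)) P := by
  classical
  have hG := hB.pre.isGaussianProcess
  have hcl : ∀ (i : ι) (t : ℝ≥0), a i ≤ max (a i) (min t (b i)) ∧ max (a i) (min t (b i)) ≤ b i :=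
    fun i t => ⟨le_max_left _ _, max_le (hab i) (min_le_right _ _)⟩
  have hm : ∀ (i : ι) (t : ℝ≥0),
      AEMeasurable (fun ω => B (max (a i) (min t (b i))) ω - B (a i) ω) P := fun i t =>
    ((hB.meas _).sub (hB.meas _)).aemeasurable
  refine IsGaussianProcess.iIndepFun_of_covariance_eq_zero
    (S := fun _ : ι => ℝ≥0)
    (X := fun i t ω => B (max (a i) (min t (b i))) ω - B (a i) ω) ?_ hm ?_
  · refine hG.of_isGaussianProcess fun p => ?_
    exact ⟨{max (a p.1) (min p.2 (b p.1)), a p.1},
      { toFun x := x ⟨max (a p.1) (min p.2 (b p.1)), by simp⟩ - x ⟨a p.1, by simp⟩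
        map_add' x y := by simp; abel
        map_smul' c x := by simp; ring }, by simp⟩
  · intro i j hij s t
    rcases hd i j hij with h | h
    · exact cov_zero hB.pre (hcl i s).1 ((hcl i s).2.trans h) (hcl j t).1
    · rw [covariance_comm]
      exact cov_zero hB.pre (hcl j t).1 ((hcl j t).2.trans h) (hcl i s).1

lemma half (hB : CBM P B) {a b : ℝ≥0} (hab : a < b) : P {ω | B a ω < B b ω} = 1 / 2 := by
  set X : ℝ≥0 → Ω → ℝ := fun t ω => B (a + t) ω - B a ω with hX
  have hpre : IsPreBrownianReal X P := hB.pre.shift a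
  have hXm : ∀ t, Measurable (X t) := fun t => (hB.meas _).sub (hB.meas _)
  obtain ⟨t, rfl⟩ := exists_add_of_le hab.le
  have ht : t ≠ 0 := by
    rintro rfl; simp at hab
  have h0 : P {ω | X t ω = 0} = 0 := by
    have h1 := (hpre.hasLaw_eval t).map_eq
    have h2 : P {ω | X t ω = 0} = P.map (X t) {0} := by
      rw [Measure.map_apply (hXm t) (measurableSet_singleton 0)]; rfl
    rw [h2, h1]
    have : NullSingletonClass (gaussianReal 0 t) := nullSingletonClass_gaussianReal ht
    exact measure_singleton _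
  have hneg : P {ω | X t ω < 0} = P {ω | 0 < X t ω} := by
    have h1 := (hpre.hasLaw_eval t).map_eq
    have h2 := (hpre.neg.hasLaw_eval t).map_eq
    have h3 : P {ω | X t ω < 0} = P.map ((-X) t) (Ioi 0) := by
      rw [Measure.map_apply (show Measurable ((-X) t) from (hXm t).neg) measurableSet_Ioi]
      congr 1
      ext ω
      simp
    have h4 : P {ω | 0 < X t ω} = P.map (X t) (Ioi 0) := by
      rw [Measure.map_apply (hXm t) measurableSet_Ioi]; rfl
    rw [h3, h4, h1, h2]
  have hu : P {ω | 0 < X t ω} + P {ω | X t ω < 0} = 1 := by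
    rw [← measure_union]
    · have h1 : ({ω | 0 < X t ω} ∪ {ω | X t ω < 0})ᶜ = {ω | X t ω = 0} := by
        ext ω
        simp only [mem_compl_iff, mem_union, mem_ofPred_eq, not_or, not_lt]
        exact ⟨fun h => le_antisymm h.1 h.2, fun h => ⟨h.le, h.ge⟩⟩
      have hms : MeasurableSet ({ω | 0 < X t ω} ∪ {ω | X t ω < 0}) :=
        (measurableSet_lt measurable_const (hXm t)).union (measurableSet_lt (hXm t) measurable_const)
      rw [← prob_compl_eq_zero_iff hms, h1, h0]
    · rw [Set.disjoint_left]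
      intro ω h1 h2
      exact lt_asymm (show 0 < X t ω from h1) h2
    · exact measurableSet_lt (hXm t) measurable_const
  rw [hneg, ← two_mul] at hu
  have h5 : {ω | B a ω < B (a + t) ω} = {ω | 0 < X t ω} := by
    ext ω; simp [hX]
  rw [h5, ENNReal.eq_div_iff (by norm_num) (by norm_num)]
  exact hu

/-- the probability that all the increments over disjoint intervals are positive -/
theorem prob_windows (hB : CBM P B) {ι : Type*} (S : Finset ι) (a b : ι → ℝ≥0)
    (hab : ∀ i ∈ S, a i < b i)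
    (hd : ∀ i ∈ S, ∀ j ∈ S, i ≠ j → b i ≤ a j ∨ b j ≤ a i) :
    P (⋂ i ∈ S, {ω | B (a i) ω < B (b i) ω}) = (1 / 2) ^ S.card := by
  classical
  have hi := iIndep_cl hB (ι := S) (fun i => a i) (fun i => b i) (fun i => (hab i i.2).le)
    (fun i j hij => hd i i.2 j j.2 fun h => hij (Subtype.ext h))
  have hset : ∀ i : S, {ω | B (a i) ω < B (b i) ω} =
      (fun ω => cl (a i) (b i) (path B ω)) ⁻¹' {x | 0 < x (b i)} := by
    intro i
    ext ω
    simp only [mem_ofPred_eq, mem_preimage]
    rw [cl_of_mem _ (hab i i.2).le le_rfl]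
    simp [path]
  have h1 := hi.measure_inter_preimage_eq_mul Finset.univ
    (sets := fun i : S => {x : ℝ≥0 → ℝ | 0 < x (b i)})
    (fun i _ => measurableSet_lt measurable_const (measurable_pi_apply _))
  have h2 : (⋂ i ∈ S, {ω | B (a i) ω < B (b i) ω}) = ⋂ i ∈ (Finset.univ : Finset S),
      (fun ω => cl (a i) (b i) (path B ω)) ⁻¹' {x | 0 < x (b i)} := by
    simp only [← hset]
    ext ω
    simp
  rw [h2, h1]
  simp only [← hset]
  have h3 : ∀ i : S, P {ω | B (a i) ω < B (b i) ω} = 1 / 2 := fun i => half hB (hab i i.2)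
  simp only [h3]
  simp

end

end Pool.Agent.V11330.TB
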