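import Pool.Agent.V11330.TB.Mom

set_option autoImplicit false

open Set Filter Topology MeasureTheory ProbabilityTheory
open scoped NNReal ENNReal

namespace Pool.Agent.V11330.TB

open Pool.Agent.TH970

/-- the uniform measure on the unit interval -/
noncomputable abbrev lam : Measure ℝ := volume.restrict (Icc (0 : ℝ) 1)

instance : IsProbabilityMeasure lam := ⟨by simp [lam]⟩

/-- the sites -/
noncomputable def st (i k : ℕ) : ℝ≥0 := 3 * (k + 1) * (N i + 1)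

lemma st_lower (i k : ℕ) (v : ℝ≥0) : (N i : ℝ≥0) + 1 ≤ st i k + v := by
  unfold st
  calc (N i : ℝ≥0) + 1 = 1 * (0 + 1) * (N i + 1) := by ring
    _ ≤ 3 * (k + 1) * (N i + 1) := by
      gcongr
      · norm_num
      · exact bot_le
    _ ≤ _ := le_self_add

lemma st_gap {i k k' : ℕ} (h : k < k') {v v' : ℝ≥0} (hv : v ≤ 1) :
    st i k + v + 2 * (N i + 1) ≤ st i k' + v' := by
  unfold st
  have h1 : (k : ℝ≥0) + 1 ≤ k' := by exact_mod_cast h
  calc 3 * ((k : ℝ≥0) + 1) * (N i + 1) + v + 2 * (N i + 1)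
      ≤ 3 * ((k : ℝ≥0) + 1) * (N i + 1) + (N i + 1) + 2 * (N i + 1) := by
        gcongr
        exact hv.trans le_add_self
    _ = 3 * ((k : ℝ≥0) + 1 + 1) * (N i + 1) := by ring
    _ ≤ 3 * ((k' : ℝ≥0) + 1) * (N i + 1) := by gcongr
    _ ≤ _ := le_self_add

lemma st_upper {i k : ℕ} (h : k < 32 ^ i) {v : ℝ≥0} (hv : v ≤ 1) :
    st i k + v + (N i + 1) ≤ N (i + 1) := by
  unfold st
  have h1 : 3 * (k + 1) * (N i + 1) + 1 + (N i + 1) ≤ N (i + 1) := by
    rw [N_succ]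
    have h2 : k + 1 ≤ 32 ^ i := h
    have h3 := N_pos i
    have h4 : 1 ≤ 32 ^ i := Nat.one_le_iff_ne_zero.2 (by positivity)
    calc 3 * (k + 1) * (N i + 1) + 1 + (N i + 1)
        ≤ 3 * 32 ^ i * (2 * N i) + 32 ^ i * N i + 32 ^ i * (2 * N i) := by
          gcongr
          · omega
          · nlinarith
          · nlinarith
      _ ≤ 64 * 32 ^ i * N i := by nlinarith
  calc 3 * ((k : ℝ≥0) + 1) * (N i + 1) + v + (N i + 1)
      ≤ 3 * ((k : ℝ≥0) + 1) * (N i + 1) + 1 + (N i + 1) := by gcongr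
    _ ≤ _ := by exact_mod_cast h1

section
variable {Ω : Type*} [MeasurableSpace Ω] {P : Measure Ω} [IsProbabilityMeasure P]
  {B : ℝ≥0 → Ω → ℝ}

omit [IsProbabilityMeasure P] in
lemma jm (hB : CBM P B) : Measurable fun p : ℝ≥0 × Ω => B p.1 p.2 :=
  measurable_uncurry_of_continuous_of_measurable (u := B) hB.cont hB.meas

omit [IsProbabilityMeasure P] in
lemma jm_bw (hB : CBM P B) : Measurable fun p : ℝ≥0 × Ω => bw p.1 (path B p.2) := by
  refine measurable_pi_lambda _ fun t => ?_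
  exact ((jm hB).comp ((measurable_fst.sub_const t).prodMk measurable_snd)).sub (jm hB)

omit [IsProbabilityMeasure P] in
lemma jm_fw (hB : CBM P B) : Measurable fun p : ℝ≥0 × Ω => fw p.1 (path B p.2) := by
  refine measurable_pi_lambda _ fun t => ?_
  exact ((jm hB).comp ((measurable_fst.add_const t).prodMk measurable_snd)).sub (jm hB)

omit [IsProbabilityMeasure P] in
lemma jm_ZZ (hB : CBM P B) (i m : ℕ) {F1 F2 : (ℝ≥0 → ℝ) → ℝ≥0∞} (h1 : Measurable F1)
    (h2 : Measurable F2) (s : ℝ≥0) :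
    Measurable fun p : ℝ × Ω => ZZ i m F1 F2 (s + p.1.toNNReal) (path B p.2) := by
  have hs : Measurable fun p : ℝ × Ω => (s + p.1.toNNReal, p.2) :=
    (measurable_const.add (measurable_real_toNNReal.comp measurable_fst)).prodMk measurable_snd
  have hb := (jm_bw hB).comp hs
  have hf := (jm_fw hB).comp hs
  exact ((((measurable_DW i).comp hb).mul (h1.comp hb))).mul
    (((measurable_DW (i + m)).comp hf).mul (h2.comp hf))

/-- the averaged weight of a site -/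
noncomputable def DD (i m : ℕ) (F1 F2 : (ℝ≥0 → ℝ) → ℝ≥0∞) (s : ℝ≥0) (x : ℝ≥0 → ℝ) : ℝ≥0∞ :=
  ∫⁻ v, ZZ i m F1 F2 (s + v.toNNReal) x ∂lam

omit [IsProbabilityMeasure P] in
lemma measurable_DD (hB : CBM P B) (i m : ℕ) {F1 F2 : (ℝ≥0 → ℝ) → ℝ≥0∞} (h1 : Measurable F1)
    (h2 : Measurable F2) (s : ℝ≥0) : Measurable fun ω => DD i m F1 F2 s (path B ω) :=
  (jm_ZZ hB i m h1 h2 s).lintegral_prod_left'

/-- the mean of the weight -/
noncomputable def cc (P : Measure Ω) (B : ℝ≥0 → Ω → ℝ) (F1 F2 : (ℝ≥0 → ℝ) → ℝ≥0∞) : ℝ≥0∞ :=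
  (∫⁻ ω, F1 (Pi (path B ω)) ∂P) * ∫⁻ ω, F2 (Pi (path B ω)) ∂P

lemma mean_ZZ (hB : CBM P B) {i m : ℕ} {u : ℝ≥0} (hu1 : (N i : ℝ≥0) + 1 ≤ u)
    (hu2 : u ≤ N (i + 1)) {F1 F2 : (ℝ≥0 → ℝ) → ℝ≥0∞} (hF1m : Measurable F1)
    (hF2m : Measurable F2) (hF1 : Dep (N i) F1) (hF2 : Dep (N i) F2) :
    ∫⁻ ω, ZZ i m F1 F2 u (path B ω) ∂P = cc P B F1 F2 := by
  have h := lintegral_X hB (i := i) (m := m) (u := u) (T := 0) hu1 hu2 zero_le hF1m hF2m
    (G := fun _ => 1) measurable_const hF1 hF2 (fun _ _ _ => rfl)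
  simp only [mul_one] at h
  have h2 : ∫⁻ ω, ZZ i m F1 F2 u (path B ω) ∂P =
      ∫⁻ ω, ∫⁻ ω', F1 (Pi (path B ω)) * F2 (Pi (path B ω')) ∂P ∂P := h.symm
  rw [h2]
  have hm2 : Measurable fun ω' => F2 (Pi (path B ω')) := hF2m.comp (measurable_Pi.comp hB.mpath)
  have hm1 : Measurable fun ω' => F1 (Pi (path B ω')) := hF1m.comp (measurable_Pi.comp hB.mpath)
  simp only [lintegral_const_mul _ hm2]
  rw [lintegral_mul_const _ hm1]
  rfl

lemma fub {f g : ℝ × Ω → ℝ≥0∞} (hf : Measurable f) (hg : Measurable g) :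
    ∫⁻ ω, (∫⁻ v, f (v, ω) ∂lam) * (∫⁻ v, g (v, ω) ∂lam) ∂P =
      ∫⁻ v, ∫⁻ v', ∫⁻ ω, f (v, ω) * g (v', ω) ∂P ∂lam ∂lam := by
  have hs : ∀ ω, Measurable fun v : ℝ => f (v, ω) := fun ω =>
    hf.comp measurable_prodMk_right
  have hs' : ∀ ω, Measurable fun v : ℝ => g (v, ω) := fun ω =>
    hg.comp measurable_prodMk_right
  have e1 : ∀ ω, (∫⁻ v, f (v, ω) ∂lam) * (∫⁻ v, g (v, ω) ∂lam) =
      ∫⁻ v, ∫⁻ v', f (v, ω) * g (v', ω) ∂lam ∂lam := by
    intro ω
    simp only [lintegral_const_mul _ (hs' ω)]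
    rw [lintegral_mul_const _ (hs ω)]
  simp only [e1]
  have hj : Measurable fun r : (Ω × ℝ) × ℝ => f (r.1.2, r.1.1) * g (r.2, r.1.1) :=
    (hf.comp ((measurable_snd.comp measurable_fst).prodMk
      (measurable_fst.comp measurable_fst))).mul
      (hg.comp (measurable_snd.prodMk (measurable_fst.comp measurable_fst)))
  have hj1 : Measurable fun q : Ω × ℝ => ∫⁻ v', f (q.2, q.1) * g (v', q.1) ∂lam :=
    hj.lintegral_prod_right'
  rw [lintegral_lintegral_swap hj1.aemeasurable]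
  refine lintegral_congr fun v => ?_
  have hj2 : Measurable fun q : Ω × ℝ => f (v, q.1) * g (q.2, q.1) :=
    (hf.comp (measurable_const.prodMk measurable_fst)).mul
      (hg.comp (measurable_snd.prodMk measurable_fst))
  rw [lintegral_lintegral_swap hj2.aemeasurable]

lemma fub1 {f : ℝ × Ω → ℝ≥0∞} (hf : Measurable f) :
    ∫⁻ ω, (∫⁻ v, f (v, ω) ∂lam) ∂P = ∫⁻ v, ∫⁻ ω, f (v, ω) ∂P ∂lam := by
  have hsw : Measurable fun q : Ω × ℝ => f (q.2, q.1) :=
    hf.comp (measurable_snd.prodMk measurable_fst)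
  rw [lintegral_lintegral_swap hsw.aemeasurable]

lemma lintegral_DD_mul (hB : CBM P B) (i m : ℕ) {F1 F2 : (ℝ≥0 → ℝ) → ℝ≥0∞} (h1 : Measurable F1)
    (h2 : Measurable F2) (s s' : ℝ≥0) :
    ∫⁻ ω, DD i m F1 F2 s (path B ω) * DD i m F1 F2 s' (path B ω) ∂P =
      ∫⁻ v, ∫⁻ v', ∫⁻ ω, ZZ i m F1 F2 (s + v.toNNReal) (path B ω) *
        ZZ i m F1 F2 (s' + v'.toNNReal) (path B ω) ∂P ∂lam ∂lam :=
  fub (jm_ZZ hB i m h1 h2 s) (jm_ZZ hB i m h1 h2 s')

lemma mean_DD (hB : CBM P B) {i m k : ℕ} (hk : k < 32 ^ i) {F1 F2 : (ℝ≥0 → ℝ) → ℝ≥0∞}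
    (h1m : Measurable F1) (h2m : Measurable F2) (h1 : Dep (N i) F1) (h2 : Dep (N i) F2) :
    ∫⁻ ω, DD i m F1 F2 (st i k) (path B ω) ∂P = cc P B F1 F2 := by
  have hsw : ∫⁻ ω, DD i m F1 F2 (st i k) (path B ω) ∂P =
      ∫⁻ v, ∫⁻ ω, ZZ i m F1 F2 (st i k + v.toNNReal) (path B ω) ∂P ∂lam :=
    fub1 (jm_ZZ hB i m h1m h2m (st i k))
  rw [hsw]
  have h3 : ∀ᵐ v ∂lam, ∫⁻ ω, ZZ i m F1 F2 (st i k + v.toNNReal) (path B ω) ∂P = cc P B F1 F2 := by
    filter_upwards [ae_restrict_mem measurableSet_Icc] with v hv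
    have hv1 : v.toNNReal ≤ 1 := Real.toNNReal_le_one.2 hv.2
    refine mean_ZZ hB (st_lower i k _) ?_ h1m h2m h1 h2
    exact le_self_add.trans (st_upper hk hv1)
  rw [lintegral_congr_ae h3]
  simp

lemma far_DD (hB : CBM P B) {i m k k' : ℕ} (hk' : k' < 32 ^ i) (hkk : k < k')
    {F1 F2 : (ℝ≥0 → ℝ) → ℝ≥0∞}
    (h1m : Measurable F1) (h2m : Measurable F2) (h1 : Dep (N i) F1) (h2 : Dep (N i) F2) :
    ∫⁻ ω, DD i m F1 F2 (st i k) (path B ω) * DD i m F1 F2 (st i k') (path B ω) ∂P =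
      cc P B F1 F2 * cc P B F1 F2 := by
  rw [lintegral_DD_mul hB i m h1m h2m]
  have h3 : ∀ᵐ v ∂lam, ∫⁻ v', ∫⁻ ω, ZZ i m F1 F2 (st i k + v.toNNReal) (path B ω) *
        ZZ i m F1 F2 (st i k' + v'.toNNReal) (path B ω) ∂P ∂lam =
        cc P B F1 F2 * cc P B F1 F2 := by
    filter_upwards [ae_restrict_mem measurableSet_Icc] with v hv
    have hv1 : v.toNNReal ≤ 1 := Real.toNNReal_le_one.2 hv.2
    have h4 : ∀ᵐ v' ∂lam, ∫⁻ ω, ZZ i m F1 F2 (st i k + v.toNNReal) (path B ω) *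
        ZZ i m F1 F2 (st i k' + v'.toNNReal) (path B ω) ∂P =
        cc P B F1 F2 * cc P B F1 F2 := by
      filter_upwards [ae_restrict_mem measurableSet_Icc] with v' hv'
      have hv1' : v'.toNNReal ≤ 1 := Real.toNNReal_le_one.2 hv'.2
      rw [far_sites hB h1m h2m h1 h2 (st_lower i k _) (st_gap hkk hv1) (st_upper hk' hv1'),
        mean_ZZ hB (st_lower i k _) (le_self_add.trans (st_upper (hkk.trans hk') hv1))
          h1m h2m h1 h2,
        mean_ZZ hB (st_lower i k' _) (le_self_add.trans (st_upper hk' hv1')) h1m h2m h1 h2]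
    rw [lintegral_congr_ae h4]
    simp
  rw [lintegral_congr_ae h3]
  simp

lemma prod_le_sum (r : ℝ) (i m : ℕ) :
    (∏ j ∈ Finset.range m, if r < el (i + j + 1) then (2 : ℝ≥0∞) else 1) ≤
      1 + ∑ j ∈ Finset.range m, 2 ^ (j + 1) * (Iio (el (i + j + 1) : ℝ)).indicator 1 r := by
  induction m with
  | zero => simp
  | succ m ih =>
    rw [Finset.prod_range_succ, Finset.sum_range_succ, ← add_assoc]
    have h1 : (∏ j ∈ Finset.range m, if r < el (i + j + 1) then (2 : ℝ≥0∞) else 1) ≤ 2 ^ m := by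
      calc (∏ j ∈ Finset.range m, if r < el (i + j + 1) then (2 : ℝ≥0∞) else 1)
          ≤ ∏ j ∈ Finset.range m, 2 := by
            refine Finset.prod_le_prod' fun j _ => ?_
            split_ifs
            · exact le_rfl
            · norm_num
        _ = 2 ^ m := by simp
    by_cases h : r < el (i + m + 1)
    · have h' : r ∈ Iio (el (i + m + 1) : ℝ) := h
      rw [if_pos h, indicator_of_mem h', Pi.one_apply, mul_one, mul_two]
      refine add_le_add ih (h1.trans ?_)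
      exact pow_le_pow_right₀ (by norm_num) (by omega)
    · have h' : r ∉ Iio (el (i + m + 1) : ℝ) := h
      rw [if_neg h, indicator_of_notMem h', mul_zero, add_zero, mul_one]
      exact ih

lemma lintegral_near (ℓ : ℝ) (v : ℝ) :
    ∫⁻ v', (Iio ℓ).indicator (1 : ℝ → ℝ≥0∞) |v' - v| ∂lam ≤ ENNReal.ofReal (2 * ℓ) := by
  have h1 : ∀ v' : ℝ, (Iio ℓ).indicator (1 : ℝ → ℝ≥0∞) |v' - v| =
      (Ioo (v - ℓ) (v + ℓ)).indicator 1 v' := by
    intro v'
    have : |v' - v| ∈ Iio ℓ ↔ v' ∈ Ioo (v - ℓ) (v + ℓ) := by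
      rw [mem_Iio, mem_Ioo, abs_lt]
      constructor <;> rintro ⟨h1, h2⟩ <;> constructor <;> linarith
    by_cases h : v' ∈ Ioo (v - ℓ) (v + ℓ)
    · rw [indicator_of_mem h, indicator_of_mem (this.2 h)]; rfl
    · rw [indicator_of_notMem h, indicator_of_notMem (fun hc => h (this.1 hc))]
  simp only [h1]
  rw [lintegral_indicator_one measurableSet_Ioo]
  calc lam (Ioo (v - ℓ) (v + ℓ)) ≤ volume (Ioo (v - ℓ) (v + ℓ)) := Measure.restrict_le_self _
    _ = _ := by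
      rw [Real.volume_Ioo]; congr 1; ring

lemma geo_sum (m : ℕ) : ∑ j ∈ Finset.range m, (2 / 3 : ℝ) ^ (j + 1) ≤ 2 := by
  have : ∑ j ∈ Finset.range m, (2 / 3 : ℝ) ^ (j + 1) = 2 * (1 - (2 / 3) ^ m) := by
    induction m with
    | zero => simp
    | succ m ih => rw [Finset.sum_range_succ, ih]; ring
  rw [this]
  have h : (0 : ℝ) ≤ (2 / 3) ^ m := by positivity
  linarith

lemma same_DD (hB : CBM P B) {i m k : ℕ} (hk : k < 32 ^ i)
    {F1 F2 : (ℝ≥0 → ℝ) → ℝ≥0∞}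
    (h1m : Measurable F1) (h2m : Measurable F2) (h1 : ∀ x, F1 x ≤ 1) (h2 : ∀ x, F2 x ≤ 1) :
    ∫⁻ ω, DD i m F1 F2 (st i k) (path B ω) * DD i m F1 F2 (st i k) (path B ω) ∂P ≤
      16 ^ i * 5 := by
  rw [lintegral_DD_mul hB i m h1m h2m]
  set K : ℝ → ℝ≥0∞ := fun r =>
    1 + ∑ j ∈ Finset.range m, 2 ^ (j + 1) * (Iio (el (i + j + 1) : ℝ)).indicator 1 r with hK
  have hind : ∀ j, Measurable fun r : ℝ =>
      (Iio (el (i + j + 1) : ℝ)).indicator (1 : ℝ → ℝ≥0∞) r := fun j =>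
    measurable_one.indicator measurableSet_Iio
  have hKm : Measurable K := measurable_const.add
    (Finset.measurable_sum _ fun j _ => (hind j).const_mul _)
  have key : ∀ v v' : ℝ, 0 ≤ v → v ≤ v' → v' ≤ 1 →
      ∫⁻ ω, ZZ i m F1 F2 (st i k + v.toNNReal) (path B ω) *
        ZZ i m F1 F2 (st i k + v'.toNNReal) (path B ω) ∂P ≤ 16 ^ i * K |v' - v| := by
    intro v v' hv hvv hv'
    have hv1' : v'.toNNReal ≤ 1 := Real.toNNReal_le_one.2 hv'
    have hvv' : v.toNNReal ≤ v'.toNNReal := Real.toNNReal_le_toNNReal hvv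
    refine (same_site hB h1 h2 (add_le_add le_rfl hvv') (st_upper hk hv1')).trans ?_
    refine mul_le_mul_right ?_ _
    refine le_trans (le_of_eq ?_) (prod_le_sum |v' - v| i m)
    refine Finset.prod_congr rfl fun j _ => ?_
    have hiff : (st i k + v'.toNNReal < st i k + v.toNNReal + el (i + j + 1)) ↔
        |v' - v| < el (i + j + 1) := by
      rw [add_assoc, add_lt_add_iff_left, abs_of_nonneg (sub_nonneg.2 hvv), ← NNReal.coe_lt_coe,
        NNReal.coe_add, Real.coe_toNNReal _ hv, Real.coe_toNNReal _ (hv.trans hvv)]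
      constructor <;> intro h <;> linarith
    by_cases h : |v' - v| < el (i + j + 1)
    · rw [if_pos h, if_pos (hiff.2 h)]
    · rw [if_neg h, if_neg (fun hc => h (hiff.1 hc))]
  have key2 : ∀ᵐ v ∂lam, ∀ᵐ v' ∂lam,
      ∫⁻ ω, ZZ i m F1 F2 (st i k + v.toNNReal) (path B ω) *
        ZZ i m F1 F2 (st i k + v'.toNNReal) (path B ω) ∂P ≤ 16 ^ i * K |v' - v| := by
    filter_upwards [ae_restrict_mem measurableSet_Icc] with v hv
    filter_upwards [ae_restrict_mem measurableSet_Icc] with v' hv'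
    rcases le_total v v' with h | h
    · exact key v v' hv.1 h hv'.2
    · have h3 := key v' v hv'.1 h hv.2
      rw [abs_sub_comm] at h3
      refine le_trans (le_of_eq ?_) h3
      refine lintegral_congr fun ω => ?_
      rw [mul_comm]
  have hin : ∀ v : ℝ, ∫⁻ v', 16 ^ i * K |v' - v| ∂lam ≤ 16 ^ i * 5 := by
    intro v
    have habs : Measurable fun v' : ℝ => |v' - v| := (measurable_id.sub_const v).abs
    have hj : ∀ j, Measurable fun v' : ℝ =>
        (Iio (el (i + j + 1) : ℝ)).indicator (1 : ℝ → ℝ≥0∞) |v' - v| := fun j =>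
      (hind j).comp habs
    have hj2 : ∀ j ∈ Finset.range m, Measurable fun v' : ℝ =>
        (2 : ℝ≥0∞) ^ (j + 1) * (Iio (el (i + j + 1) : ℝ)).indicator (1 : ℝ → ℝ≥0∞) |v' - v| :=
      fun j _ => (hj j).const_mul _
    have hKv : Measurable fun v' : ℝ => K |v' - v| := hKm.comp habs
    rw [lintegral_const_mul _ hKv]
    refine mul_le_mul_right ?_ _
    have e1 : ∫⁻ v', K |v' - v| ∂lam = 1 + ∑ j ∈ Finset.range m, 2 ^ (j + 1) *
        ∫⁻ v', (Iio (el (i + j + 1) : ℝ)).indicator (1 : ℝ → ℝ≥0∞) |v' - v| ∂lam := by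
      simp only [hK]
      rw [lintegral_add_left measurable_const, lintegral_finsetSum _ hj2]
      congr 1
      · simp
      · exact Finset.sum_congr rfl fun j _ => lintegral_const_mul _ (hj j)
    rw [e1]
    have e2 : ∀ j ∈ Finset.range m, (2 : ℝ≥0∞) ^ (j + 1) *
        ∫⁻ v', (Iio (el (i + j + 1) : ℝ)).indicator (1 : ℝ → ℝ≥0∞) |v' - v| ∂lam ≤
        ENNReal.ofReal (2 * (2 / 3) ^ (j + 1)) := by
      intro j _
      calc (2 : ℝ≥0∞) ^ (j + 1) *
            ∫⁻ v', (Iio (el (i + j + 1) : ℝ)).indicator (1 : ℝ → ℝ≥0∞) |v' - v| ∂lam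
          ≤ ENNReal.ofReal (2 ^ (j + 1)) * ENNReal.ofReal (2 * el (i + j + 1)) := by
            refine mul_le_mul' ?_ (lintegral_near _ _)
            rw [ENNReal.ofReal_pow (by norm_num)]; norm_num
        _ = ENNReal.ofReal (2 ^ (j + 1) * (2 * el (i + j + 1))) :=
          (ENNReal.ofReal_mul (by positivity)).symm
        _ ≤ _ := by
          refine ENNReal.ofReal_le_ofReal ?_
          have h5 : (el (i + j + 1) : ℝ) ≤ (1 / 3) ^ (j + 1) := by
            unfold el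
            push_cast
            exact pow_le_pow_of_le_one (by norm_num) (by norm_num) (by omega)
          calc (2 : ℝ) ^ (j + 1) * (2 * el (i + j + 1)) ≤ 2 ^ (j + 1) * (2 * (1 / 3) ^ (j + 1)) := by
                gcongr
            _ = 2 * (2 / 3) ^ (j + 1) := by
              rw [show (2 / 3 : ℝ) = 2 * (1 / 3) by norm_num, mul_pow]; ring
    calc 1 + ∑ j ∈ Finset.range m, (2 : ℝ≥0∞) ^ (j + 1) *
          ∫⁻ v', (Iio (el (i + j + 1) : ℝ)).indicator (1 : ℝ → ℝ≥0∞) |v' - v| ∂lam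
        ≤ 1 + ∑ j ∈ Finset.range m, ENNReal.ofReal (2 * (2 / 3) ^ (j + 1)) := by
          gcongr with j hj
          exact e2 j hj
      _ = ENNReal.ofReal (1 + ∑ j ∈ Finset.range m, 2 * (2 / 3) ^ (j + 1)) := by
        rw [ENNReal.ofReal_add (by norm_num) (Finset.sum_nonneg fun j _ => by positivity),
          ENNReal.ofReal_sum_of_nonneg fun j _ => by positivity]
        simp
      _ ≤ 5 := by
        rw [show (5 : ℝ≥0∞) = ENNReal.ofReal 5 by norm_num]
        refine ENNReal.ofReal_le_ofReal ?_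
        rw [← Finset.mul_sum]
        have := geo_sum m
        linarith
  calc _ ≤ ∫⁻ v, ∫⁻ v', 16 ^ i * K |v' - v| ∂lam ∂lam := by
        refine lintegral_mono_ae ?_
        filter_upwards [key2] with v hv
        exact lintegral_mono_ae hv
    _ ≤ ∫⁻ _v : ℝ, 16 ^ i * 5 ∂lam := lintegral_mono hin
    _ = _ := by simp

end

end Pool.Agent.V11330.TB
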