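import Pool.Agent.V11330.TB.L1

set_option autoImplicit false

open Set Filter Topology MeasureTheory ProbabilityTheory
open scoped NNReal ENNReal

namespace Pool.Agent.V11330.TB

open Pool.Agent.TH970

/-- continuous paths started at `0` -/
abbrev Cp : Type := {x : ℝ≥0 → ℝ // Continuous x ∧ x 0 = 0}

/-- the forward path of a two-sided path seen from `-u` -/
noncomputable def Phi (q : (Cp × Cp) × ℝ≥0) : ℝ≥0 → ℝ := fwd q.2 q.1.1.1 q.1.2.1

lemma jC : Measurable fun p : ℝ≥0 × Cp => p.2.1 p.1 :=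
  measurable_uncurry_of_continuous_of_measurable (u := fun (t : ℝ≥0) (w : Cp) => w.1 t)
    (fun w => w.2.1) (fun t => (measurable_pi_apply t).comp measurable_subtype_coe)

lemma measurable_Phi : Measurable Phi := by
  refine measurable_pi_lambda _ fun t => ?_
  have h1 : Measurable fun q : (Cp × Cp) × ℝ≥0 => (q.2 - t, q.1.1) :=
    (measurable_snd.sub_const t).prodMk (measurable_fst.comp measurable_fst)
  have h2 : Measurable fun q : (Cp × Cp) × ℝ≥0 => (q.2, q.1.1) :=
    measurable_snd.prodMk (measurable_fst.comp measurable_fst)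
  have h3 : Measurable fun q : (Cp × Cp) × ℝ≥0 => (t - q.2, q.1.2) :=
    (measurable_snd.const_sub t).prodMk (measurable_snd.comp measurable_fst)
  exact ((jC.comp h1).sub (jC.comp h2)).add (jC.comp h3)

/-- the distribution of the site -/
noncomputable def qq (i : ℕ) : Measure ℝ≥0 :=
  ((32 ^ i : ℕ) : ℝ≥0∞)⁻¹ • ∑ k ∈ Finset.range (32 ^ i), lam.map fun v => st i k + v.toNNReal

lemma measurable_site (i k : ℕ) : Measurable fun v : ℝ => st i k + v.toNNReal :=
  measurable_const.add measurable_real_toNNReal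

lemma lintegral_qq (i : ℕ) {f : ℝ≥0 → ℝ≥0∞} (hf : Measurable f) :
    ∫⁻ u, f u ∂(qq i) = ((32 ^ i : ℕ) : ℝ≥0∞)⁻¹ *
      ∑ k ∈ Finset.range (32 ^ i), ∫⁻ v, f (st i k + v.toNNReal) ∂lam := by
  unfold qq
  rw [lintegral_smul_measure, lintegral_finsetSum_measure, smul_eq_mul]
  congr 1
  exact Finset.sum_congr rfl fun k _ => lintegral_map hf (measurable_site i k)

instance (i : ℕ) : IsProbabilityMeasure (qq i) := by
  refine ⟨?_⟩
  have h := lintegral_qq i (f := fun _ => 1) measurable_const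
  simp only [lintegral_const, one_mul, measure_univ] at h
  rw [h]
  simp only [Finset.sum_const, Finset.card_range, nsmul_eq_mul, mul_one]
  exact ENNReal.inv_mul_cancel (by positivity) (ENNReal.natCast_ne_top _)

lemma qq_Iio {i : ℕ} {M : ℝ≥0} (h : M ≤ N i) : qq i (Iio M) = 0 := by
  rw [← lintegral_indicator_one measurableSet_Iio,
    lintegral_qq i (measurable_one.indicator measurableSet_Iio)]
  have h1 : ∀ k ∈ Finset.range (32 ^ i), ∫⁻ v : ℝ, (Iio M).indicator (1 : ℝ≥0 → ℝ≥0∞)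
      (st i k + v.toNNReal) ∂lam = 0 := by
    intro k _
    have h2 : ∀ v : ℝ, (Iio M).indicator (1 : ℝ≥0 → ℝ≥0∞) (st i k + v.toNNReal) = 0 := by
      intro v
      refine indicator_of_notMem ?_ _
      rw [mem_Iio, not_lt]
      exact (h.trans le_self_add).trans (st_lower i k _)
    simp only [h2]
    simp
  rw [Finset.sum_eq_zero h1, mul_zero]

/-- the flipped path as a continuous path -/
noncomputable def toC {Ω : Type*} [MeasurableSpace Ω] {P : Measure Ω} {B : ℝ≥0 → Ω → ℝ}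
    (hB : CBM P B) (ω : Ω) : Cp :=
  ⟨Pi (path B ω), continuous_Pi (hB.cont ω), Pi_zero.trans (hB.zero ω)⟩

section
variable {Ω : Type*} [MeasurableSpace Ω] {P : Measure Ω} [IsProbabilityMeasure P]
  {B : ℝ≥0 → Ω → ℝ}

lemma measurable_toC (hB : CBM P B) : Measurable (toC hB) :=
  (measurable_Pi.comp hB.mpath).subtype_mk

/-- the law of the flipped Brownian motion -/
noncomputable def mu (hB : CBM P B) : Measure Cp := P.map (toC hB)

instance (hB : CBM P B) : IsProbabilityMeasure (mu hB) :=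
  Measure.isProbabilityMeasure_map (measurable_toC hB).aemeasurable

lemma lintegral_PX (hB : CBM P B) {H : Cp × Cp → ℝ≥0∞} (hH : Measurable H) :
    ∫⁻ z, H z ∂((mu hB).prod (mu hB)) = ∫⁻ ω, ∫⁻ ω', H (toC hB ω, toC hB ω') ∂P ∂P := by
  rw [lintegral_prod _ hH.aemeasurable]
  have h1 : Measurable fun w => ∫⁻ z, H (w, z) ∂(mu hB) := hH.lintegral_prod_right'
  have h2 : ∫⁻ w, ∫⁻ z, H (w, z) ∂(mu hB) ∂(mu hB) =
      ∫⁻ ω, ∫⁻ z, H (toC hB ω, z) ∂(mu hB) ∂P := lintegral_map h1 (measurable_toC hB)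
  rw [h2]
  refine lintegral_congr fun ω => ?_
  exact lintegral_map (hH.comp measurable_prodMk_left) (measurable_toC hB)

/-- the joint law of the process and the site -/
noncomputable def JJ (hB : CBM P B) (i : ℕ) : Measure ((Cp × Cp) × ℝ≥0) :=
  ((mu hB).prod (mu hB)).prod (qq i)

instance (hB : CBM P B) (i : ℕ) : IsProbabilityMeasure (JJ hB i) := by
  unfold JJ; infer_instance

/-- the indicator of a set of paths -/
noncomputable abbrev ind (A : Set (ℝ≥0 → ℝ)) : (ℝ≥0 → ℝ) → ℝ≥0∞ := A.indicator 1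

lemma measurable_ind {A : Set (ℝ≥0 → ℝ)} (hA : MeasurableSet A) : Measurable (ind A) :=
  measurable_one.indicator hA

lemma ind_le (A : Set (ℝ≥0 → ℝ)) (x : ℝ≥0 → ℝ) : ind A x ≤ 1 := by
  unfold ind
  by_cases h : x ∈ A
  · rw [indicator_of_mem h]; rfl
  · rw [indicator_of_notMem h]; exact bot_le

/-- the key identity -/
lemma JJ_rect (hB : CBM P B) {i m : ℕ} {C1 C2 A : Set (ℝ≥0 → ℝ)} (h1m : MeasurableSet C1)
    (h2m : MeasurableSet C2) (hAm : MeasurableSet A) (h1 : Dep (N i) (ind C1))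
    (h2 : Dep (N i) (ind C2)) {T : ℝ≥0} (hA : Dep T (ind A)) (hT : T ≤ N (i + m + 1)) :
    JJ hB i ((Prod.fst ⁻¹' ((Subtype.val ⁻¹' C1) ×ˢ (Subtype.val ⁻¹' C2))) ∩ Phi ⁻¹' A) =
      ((32 ^ i : ℕ) : ℝ≥0∞)⁻¹ * ∑ k ∈ Finset.range (32 ^ i),
        ∫⁻ ω in path B ⁻¹' A, DD i m (ind C1) (ind C2) (st i k) (path B ω) ∂P := by
  set S : Set ((Cp × Cp) × ℝ≥0) :=
    (Prod.fst ⁻¹' ((Subtype.val ⁻¹' C1) ×ˢ (Subtype.val ⁻¹' C2))) ∩ Phi ⁻¹' A with hS
  have hSm : MeasurableSet S := (measurable_fst ((measurable_subtype_coe h1m).prod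
    (measurable_subtype_coe h2m))).inter (measurable_Phi hAm)
  have e1 : JJ hB i S = ∫⁻ u, ∫⁻ z, S.indicator 1 (z, u) ∂((mu hB).prod (mu hB)) ∂(qq i) := by
    rw [← lintegral_indicator_one hSm]
    unfold JJ
    rw [lintegral_prod_symm _ (measurable_one.indicator hSm).aemeasurable]
  have hm1 : Measurable fun u => ∫⁻ z, S.indicator (1 : (Cp × Cp) × ℝ≥0 → ℝ≥0∞) (z, u) ∂((mu hB).prod (mu hB)) :=
    (measurable_one.indicator hSm).lintegral_prod_left'
  rw [e1, lintegral_qq i hm1]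
  congr 1
  refine Finset.sum_congr rfl fun k hk => ?_
  have hk' := Finset.mem_range.1 hk
  have e2 : ∀ᵐ v ∂lam, ∫⁻ z, S.indicator (1 : (Cp × Cp) × ℝ≥0 → ℝ≥0∞) (z, st i k + v.toNNReal)
      ∂((mu hB).prod (mu hB)) = ∫⁻ ω in path B ⁻¹' A,
        ZZ i m (ind C1) (ind C2) (st i k + v.toNNReal) (path B ω) ∂P := by
    filter_upwards [ae_restrict_mem measurableSet_Icc] with v hv
    have hv1 : v.toNNReal ≤ 1 := Real.toNNReal_le_one.2 hv.2
    set u := st i k + v.toNNReal with hu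
    have hu1 : (N i : ℝ≥0) + 1 ≤ u := st_lower i k _
    have hu2 : u ≤ N (i + 1) := le_self_add.trans (st_upper hk' hv1)
    have hH : Measurable fun z : Cp × Cp => S.indicator (1 : (Cp × Cp) × ℝ≥0 → ℝ≥0∞) (z, u) :=
      (measurable_one.indicator hSm).comp measurable_prodMk_right
    rw [lintegral_PX hB hH]
    have h3 := lintegral_X hB (i := i) (m := m) hu1 hu2 hT (measurable_ind h1m)
      (measurable_ind h2m) (measurable_ind hAm) h1 h2 hA
    have e3 : ∀ ω ω', S.indicator (1 : (Cp × Cp) × ℝ≥0 → ℝ≥0∞) ((toC hB ω, toC hB ω'), u) =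
        ind C1 (Pi (path B ω)) * ind C2 (Pi (path B ω')) *
        ind A (fwd u (Pi (path B ω)) (Pi (path B ω'))) := by
      intro ω ω'
      unfold ind
      by_cases c1 : Pi (path B ω) ∈ C1
      · by_cases c2 : Pi (path B ω') ∈ C2
        · by_cases c3 : fwd u (Pi (path B ω)) (Pi (path B ω')) ∈ A
          · rw [indicator_of_mem c1, indicator_of_mem c2, indicator_of_mem c3, indicator_of_mem]
            · simp
            · exact ⟨⟨c1, c2⟩, c3⟩
          · rw [indicator_of_notMem c3, mul_zero, indicator_of_notMem]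
            exact fun hc => c3 hc.2
        · rw [indicator_of_notMem c2, mul_zero, zero_mul, indicator_of_notMem]
          exact fun hc => c2 hc.1.2
      · rw [indicator_of_notMem c1, zero_mul, zero_mul, indicator_of_notMem]
        exact fun hc => c1 hc.1.1
    simp only [e3]
    rw [h3, ← lintegral_indicator (hB.mpath hAm)]
    refine lintegral_congr fun ω => ?_
    by_cases c3 : path B ω ∈ A
    · have c4 : ω ∈ path B ⁻¹' A := c3
      rw [indicator_of_mem c4]
      unfold ind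
      rw [indicator_of_mem c3, Pi.one_apply, mul_one]
      rfl
    · have c4 : ω ∉ path B ⁻¹' A := c3
      rw [indicator_of_notMem c4]
      unfold ind
      rw [indicator_of_notMem c3, mul_zero]
  rw [lintegral_congr_ae e2]
  have hsw : Measurable fun q : ℝ × Ω =>
      ZZ i m (ind C1) (ind C2) (st i k + q.1.toNNReal) (path B q.2) :=
    jm_ZZ hB i m (measurable_ind h1m) (measurable_ind h2m) (st i k)
  unfold DD
  rw [lintegral_lintegral_swap hsw.aemeasurable]

/-- closeness for a rectangle and a cylinder -/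
lemma close_rect (hB : CBM P B) {i : ℕ} {C1 C2 A : Set (ℝ≥0 → ℝ)} (h1m : MeasurableSet C1)
    (h2m : MeasurableSet C2) (hAm : MeasurableSet A) (h1 : Dep (N i) (ind C1))
    (h2 : Dep (N i) (ind C2)) {T : ℝ≥0} (hA : Dep T (ind A)) {ε : ℝ} (hε : 0 < ε)
    (hi : 16 ^ i * 5 ≤ ε ^ 2 * 32 ^ i) :
    |(JJ hB i).real ((Prod.fst ⁻¹' ((Subtype.val ⁻¹' C1) ×ˢ (Subtype.val ⁻¹' C2))) ∩ Phi ⁻¹' A) -
      ((mu hB).prod (mu hB)).real ((Subtype.val ⁻¹' C1) ×ˢ (Subtype.val ⁻¹' C2)) *
      (P.map (path B)).real A| ≤ ε := by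
  obtain ⟨m, hm⟩ : ∃ m : ℕ, T ≤ N (i + m + 1) := by
    refine ⟨⌈T⌉₊, (Nat.le_ceil T).trans ?_⟩
    have := le_N (i + ⌈T⌉₊ + 1)
    exact_mod_cast (by omega : ⌈T⌉₊ ≤ N (i + ⌈T⌉₊ + 1))
  have h3 := avg_close hB (m := m) (measurable_ind h1m) (measurable_ind h2m) h1 h2
    (ind_le C1) (ind_le C2) hε hi (path B ⁻¹' A)
  have e1 : (JJ hB i).real ((Prod.fst ⁻¹' ((Subtype.val ⁻¹' C1) ×ˢ (Subtype.val ⁻¹' C2))) ∩
      Phi ⁻¹' A) = (∑ k ∈ Finset.range (32 ^ i), (∫⁻ ω in path B ⁻¹' A,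
        DD i m (ind C1) (ind C2) (st i k) (path B ω) ∂P).toReal) / (32 ^ i : ℕ) := by
    rw [measureReal_def, JJ_rect hB h1m h2m hAm h1 h2 hA hm, ENNReal.toReal_mul,
      ENNReal.toReal_sum, ENNReal.toReal_inv, ENNReal.toReal_natCast, div_eq_inv_mul]
    intro k _
    refine ne_top_of_le_ne_top (b := 2 ^ i * 2 ^ (i + m)) ?_ ?_
    · exact ENNReal.mul_ne_top (ENNReal.pow_ne_top (by norm_num)) (ENNReal.pow_ne_top (by norm_num))
    · calc _ ≤ ∫⁻ _ω in path B ⁻¹' A, 2 ^ i * 2 ^ (i + m) ∂P :=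
            lintegral_mono fun ω => DD_le i m (ind_le C1) (ind_le C2) _ _
        _ ≤ ∫⁻ _ω, 2 ^ i * 2 ^ (i + m) ∂P := lintegral_mono' Measure.restrict_le_self le_rfl
        _ = _ := by simp
  have hmu : ∀ {C : Set (ℝ≥0 → ℝ)}, MeasurableSet C →
      mu hB (Subtype.val ⁻¹' C) = ∫⁻ ω, ind C (Pi (path B ω)) ∂P := by
    intro C hC
    unfold mu
    have hm3 : Measurable fun ω => Pi (path B ω) := measurable_Pi.comp hB.mpath
    rw [Measure.map_apply (measurable_toC hB) (measurable_subtype_coe hC),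
      ← lintegral_map (measurable_ind hC) hm3]
    unfold ind
    rw [lintegral_indicator_one hC, Measure.map_apply hm3 hC]
    rfl
  have e2 : ((mu hB).prod (mu hB)).real ((Subtype.val ⁻¹' C1) ×ˢ (Subtype.val ⁻¹' C2)) =
      (cc P B (ind C1) (ind C2)).toReal := by
    rw [measureReal_def, Measure.prod_prod, hmu h1m, hmu h2m]
    rfl
  have e3 : (P.map (path B)).real A = P.real (path B ⁻¹' A) := by
    rw [measureReal_def, Measure.map_apply hB.mpath hAm]; rfl
  rw [e1, e2, e3]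
  exact h3

end

end Pool.Agent.V11330.TB
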