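import Pool.Agent.V11330.TB.KI
import Pool.Agent.V11330.TB.Greedy

set_option autoImplicit false

open Set Filter Topology MeasureTheory ProbabilityTheory
open scoped NNReal ENNReal symmDiff

namespace Pool.Agent.V11330.TB

open Pool.Agent.TH970

lemma approx (μ1 μ2 : Measure (ℝ≥0 → ℝ)) [IsFiniteMeasure μ1] [IsFiniteMeasure μ2] {c ε : ℝ}
    (hc0 : 0 ≤ c) (hc1 : c ≤ 1)
    (h : ∀ A ∈ measurableCylinders (fun _ : ℝ≥0 => ℝ), |μ1.real A - c * μ2.real A| ≤ ε)
    {A : Set (ℝ≥0 → ℝ)} (hA : MeasurableSet A) : |μ1.real A - c * μ2.real A| ≤ ε := by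
  refine le_of_forall_pos_le_add fun δ hδ => ?_
  have hmeas : ∀ t ∈ measurableCylinders (fun _ : ℝ≥0 => ℝ), MeasurableSet t := fun t ht =>
    MeasurableSet.of_mem_measurableCylinders ht
  obtain ⟨t, ht, htA⟩ := exists_measure_symmDiff_lt_of_generateFrom_isSetRing (μ := μ1 + μ2)
    (C := measurableCylinders (fun _ : ℝ≥0 => ℝ)) isSetRing_measurableCylinders
    ⟨{univ}, countable_singleton _, by
      rw [singleton_subset_iff]; exact univ_mem_measurableCylinders _, by simp⟩
    generateFrom_measurableCylinders.symm hA (ε := ENNReal.ofReal (δ / 2)) (by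
      rw [ENNReal.ofReal_pos]; positivity)
  have hb : ∀ (μ : Measure (ℝ≥0 → ℝ)) [IsFiniteMeasure μ], μ (t ∆ A) ≤ ENNReal.ofReal (δ / 2) →
      |μ.real t - μ.real A| ≤ δ / 2 := by
    intro μ _ hμ
    refine (abs_measureReal_sub_le_measureReal_symmDiff (hmeas t ht).nullMeasurableSet
      hA.nullMeasurableSet).trans ?_
    exact ENNReal.toReal_le_of_le_ofReal (by positivity) hμ
  have h1 : |μ1.real t - μ1.real A| ≤ δ / 2 := hb μ1 (le_trans le_self_add htA.le)
  have h2 : |μ2.real t - μ2.real A| ≤ δ / 2 := hb μ2 (le_trans le_add_self htA.le)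
  have h3 := h t ht
  have h4 : |c * μ2.real t - c * μ2.real A| ≤ δ / 2 := by
    rw [← mul_sub, abs_mul, abs_of_nonneg hc0]
    calc c * |μ2.real t - μ2.real A| ≤ 1 * (δ / 2) :=
          mul_le_mul hc1 h2 (abs_nonneg _) zero_le_one
      _ = _ := one_mul _
  have h5 : μ1.real A - c * μ2.real A = -(μ1.real t - μ1.real A) + (μ1.real t - c * μ2.real t) +
      (c * μ2.real t - c * μ2.real A) := by ring
  rw [h5]
  calc |-(μ1.real t - μ1.real A) + (μ1.real t - c * μ2.real t) + (c * μ2.real t - c * μ2.real A)|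
      ≤ |-(μ1.real t - μ1.real A) + (μ1.real t - c * μ2.real t)| +
        |c * μ2.real t - c * μ2.real A| := abs_add_le _ _
    _ ≤ |-(μ1.real t - μ1.real A)| + |μ1.real t - c * μ2.real t| +
        |c * μ2.real t - c * μ2.real A| := by gcongr; exact abs_add_le _ _
    _ ≤ δ / 2 + ε + δ / 2 := by rw [abs_neg]; gcongr
    _ = ε + δ := by ring

lemma cyl_dep {A : Set (ℝ≥0 → ℝ)} (hA : A ∈ measurableCylinders (fun _ : ℝ≥0 => ℝ)) :
    ∃ T : ℝ≥0, Dep T (ind A) := by
  obtain ⟨I, S, hS, rfl⟩ := (mem_measurableCylinders _).1 hA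
  refine ⟨I.sup id, fun x y h => ?_⟩
  have h1 : I.restrict x = I.restrict y := by
    funext t
    exact h t.1 (Finset.le_sup (f := id) t.2)
  have h2 : x ∈ cylinder I S ↔ y ∈ cylinder I S := by
    rw [mem_cylinder, mem_cylinder, h1]
  unfold ind
  by_cases hx : x ∈ cylinder I S
  · rw [indicator_of_mem hx, indicator_of_mem (h2.1 hx)]; rfl
  · rw [indicator_of_notMem hx, indicator_of_notMem (fun hy => hx (h2.2 hy))]

section
variable {Ω : Type*} [MeasurableSpace Ω] {P : Measure Ω} [IsProbabilityMeasure P]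
  {B : ℝ≥0 → Ω → ℝ}

/-- the law of the two-sided process -/
noncomputable abbrev PX (hB : CBM P B) : Measure (Cp × Cp) := (mu hB).prod (mu hB)

/-- events which become independent of the forward path seen from far away -/
def Good (hB : CBM P B) (F : Set (Cp × Cp)) : Prop :=
  ∀ ε : ℝ, 0 < ε → ∃ i₀ : ℕ, ∀ i ≥ i₀, ∀ A, MeasurableSet A →
    |(JJ hB i).real (Prod.fst ⁻¹' F ∩ Phi ⁻¹' A) - (PX hB).real F * (P.map (path B)).real A| ≤ ε

lemma good_rect (hB : CBM P B) {C1 C2 : Set (ℝ≥0 → ℝ)}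
    (h1 : C1 ∈ measurableCylinders (fun _ : ℝ≥0 => ℝ))
    (h2 : C2 ∈ measurableCylinders (fun _ : ℝ≥0 => ℝ)) :
    Good hB ((Subtype.val ⁻¹' C1) ×ˢ (Subtype.val ⁻¹' C2)) := by
  intro ε hε
  obtain ⟨T1, hT1⟩ := cyl_dep h1
  obtain ⟨T2, hT2⟩ := cyl_dep h2
  obtain ⟨i1, hi1⟩ := exists_nat_ge (max T1 T2)
  obtain ⟨i2, hi2⟩ : ∃ i2 : ℕ, 5 / ε ^ 2 ≤ 2 ^ i2 := by
    obtain ⟨n, hn⟩ := exists_nat_ge (5 / ε ^ 2)
    refine ⟨n, hn.trans ?_⟩
    exact_mod_cast (Nat.lt_two_pow_self (n := n)).le
  have hWp : IsProbabilityMeasure (P.map (path B)) :=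
    Measure.isProbabilityMeasure_map hB.mpath.aemeasurable
  refine ⟨max i1 i2, fun i hi A hA => ?_⟩
  have hNi : max T1 T2 ≤ (N i : ℝ≥0) := by
    refine hi1.trans ?_
    have := le_N i
    have h3 : i1 ≤ i := (le_max_left _ _).trans hi
    exact_mod_cast (h3.trans this)
  have hd1 : Dep (N i) (ind C1) := hT1.mono ((le_max_left _ _).trans hNi)
  have hd2 : Dep (N i) (ind C2) := hT2.mono ((le_max_right _ _).trans hNi)
  have hpow : (16 : ℝ) ^ i * 5 ≤ ε ^ 2 * 32 ^ i := by
    have h3 : i2 ≤ i := (le_max_right _ _).trans hi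
    have h4 : (2 : ℝ) ^ i2 ≤ 2 ^ i := pow_le_pow_right₀ (by norm_num) h3
    have h5 : 5 ≤ ε ^ 2 * 2 ^ i := by
      rw [div_le_iff₀ (by positivity)] at hi2
      nlinarith [sq_nonneg ε]
    have h6 : (32 : ℝ) ^ i = 16 ^ i * 2 ^ i := by rw [← mul_pow]; norm_num
    rw [h6]
    have h7 : (0 : ℝ) < 16 ^ i := by positivity
    nlinarith
  set F : Set (Cp × Cp) := (Subtype.val ⁻¹' C1) ×ˢ (Subtype.val ⁻¹' C2) with hF
  have h1m := MeasurableSet.of_mem_measurableCylinders h1
  have h2m := MeasurableSet.of_mem_measurableCylinders h2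
  have hFm : MeasurableSet F := (measurable_subtype_coe h1m).prod (measurable_subtype_coe h2m)
  set μ1 : Measure (ℝ≥0 → ℝ) := ((JJ hB i).restrict (Prod.fst ⁻¹' F)).map Phi with hμ1
  have hμ1f : IsFiniteMeasure μ1 := Measure.isFiniteMeasure_map _ _
  have hμ1r : ∀ A, MeasurableSet A → μ1.real A = (JJ hB i).real (Prod.fst ⁻¹' F ∩ Phi ⁻¹' A) := by
    intro A hA
    rw [measureReal_def, hμ1, Measure.map_apply measurable_Phi hA,
      Measure.restrict_apply (measurable_Phi hA), inter_comm]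
    rfl
  rw [← hμ1r A hA]
  refine approx μ1 (P.map (path B)) measureReal_nonneg measureReal_le_one ?_ hA
  intro A' hA'
  have hA'm := MeasurableSet.of_mem_measurableCylinders hA'
  obtain ⟨T, hT⟩ := cyl_dep hA'
  rw [hμ1r A' hA'm]
  exact close_rect hB h1m h2m hA'm hd1 hd2 hT hε hpow

lemma good_univ (hB : CBM P B) : Good hB univ := by
  have h := good_rect hB (univ_mem_measurableCylinders _) (univ_mem_measurableCylinders _)
  simpa using h

lemma good_compl (hB : CBM P B) {F : Set (Cp × Cp)} (hFm : MeasurableSet F) (hF : Good hB F) :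
    Good hB Fᶜ := by
  intro ε hε
  obtain ⟨i1, h1⟩ := hF (ε / 2) (by positivity)
  obtain ⟨i2, h2⟩ := good_univ hB (ε / 2) (by positivity)
  refine ⟨max i1 i2, fun i hi A hA => ?_⟩
  have h3 := h1 i ((le_max_left _ _).trans hi) A hA
  have h4 := h2 i ((le_max_right _ _).trans hi) A hA
  have e1 : (JJ hB i).real (Prod.fst ⁻¹' Fᶜ ∩ Phi ⁻¹' A) =
      (JJ hB i).real (Prod.fst ⁻¹' univ ∩ Phi ⁻¹' A) -
      (JJ hB i).real (Prod.fst ⁻¹' F ∩ Phi ⁻¹' A) := by
    rw [← measureReal_diff]
    · congr 1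
      ext z
      simp only [mem_inter_iff, mem_preimage, mem_compl_iff, mem_univ, true_and, mem_diff,
        not_and]
      tauto
    · exact inter_subset_inter_left _ (preimage_mono (subset_univ _))
    · exact (measurable_fst hFm).inter (measurable_Phi hA)
  have e2 : (PX hB).real Fᶜ = 1 - (PX hB).real F := probReal_compl_eq_one_sub hFm
  have e3 : (PX hB).real univ = 1 := probReal_univ
  rw [e1, e2]
  rw [e3] at h4
  have e4 : (JJ hB i).real (Prod.fst ⁻¹' univ ∩ Phi ⁻¹' A) -
      (JJ hB i).real (Prod.fst ⁻¹' F ∩ Phi ⁻¹' A) - (1 - (PX hB).real F) *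
      (P.map (path B)).real A =
      ((JJ hB i).real (Prod.fst ⁻¹' univ ∩ Phi ⁻¹' A) - 1 * (P.map (path B)).real A) -
      ((JJ hB i).real (Prod.fst ⁻¹' F ∩ Phi ⁻¹' A) - (PX hB).real F *
        (P.map (path B)).real A) := by ring
  rw [e4]
  calc _ ≤ |(JJ hB i).real (Prod.fst ⁻¹' univ ∩ Phi ⁻¹' A) - 1 * (P.map (path B)).real A| +
        |(JJ hB i).real (Prod.fst ⁻¹' F ∩ Phi ⁻¹' A) - (PX hB).real F *
        (P.map (path B)).real A| := abs_sub _ _
    _ ≤ ε / 2 + ε / 2 := add_le_add h4 h3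
    _ = ε := by ring

lemma good_empty (hB : CBM P B) : Good hB ∅ := by
  intro ε hε
  refine ⟨0, fun i _ A _ => ?_⟩
  simp [hε.le]

lemma good_union (hB : CBM P B) {F G : Set (Cp × Cp)}
    (hGm : MeasurableSet G) (hd : Disjoint F G) (hF : Good hB F) (hG : Good hB G) :
    Good hB (F ∪ G) := by
  intro ε hε
  obtain ⟨i1, h1⟩ := hF (ε / 2) (by positivity)
  obtain ⟨i2, h2⟩ := hG (ε / 2) (by positivity)
  refine ⟨max i1 i2, fun i hi A hA => ?_⟩
  have h3 := h1 i ((le_max_left _ _).trans hi) A hA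
  have h4 := h2 i ((le_max_right _ _).trans hi) A hA
  have e1 : (JJ hB i).real (Prod.fst ⁻¹' (F ∪ G) ∩ Phi ⁻¹' A) =
      (JJ hB i).real (Prod.fst ⁻¹' F ∩ Phi ⁻¹' A) +
      (JJ hB i).real (Prod.fst ⁻¹' G ∩ Phi ⁻¹' A) := by
    rw [preimage_union, union_inter_distrib_right, measureReal_union]
    · exact (hd.preimage _).mono inter_subset_left inter_subset_left
    · exact (measurable_fst hGm).inter (measurable_Phi hA)
  have e2 : (PX hB).real (F ∪ G) = (PX hB).real F + (PX hB).real G :=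
    measureReal_union hd hGm
  rw [e1, e2]
  have e4 : (JJ hB i).real (Prod.fst ⁻¹' F ∩ Phi ⁻¹' A) +
      (JJ hB i).real (Prod.fst ⁻¹' G ∩ Phi ⁻¹' A) - ((PX hB).real F + (PX hB).real G) *
      (P.map (path B)).real A =
      ((JJ hB i).real (Prod.fst ⁻¹' F ∩ Phi ⁻¹' A) - (PX hB).real F *
        (P.map (path B)).real A) +
      ((JJ hB i).real (Prod.fst ⁻¹' G ∩ Phi ⁻¹' A) - (PX hB).real G *
        (P.map (path B)).real A) := by ring
  rw [e4]
  calc _ ≤ |(JJ hB i).real (Prod.fst ⁻¹' F ∩ Phi ⁻¹' A) - (PX hB).real F *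
        (P.map (path B)).real A| +
        |(JJ hB i).real (Prod.fst ⁻¹' G ∩ Phi ⁻¹' A) - (PX hB).real G *
        (P.map (path B)).real A| := abs_add_le _ _
    _ ≤ ε / 2 + ε / 2 := add_le_add h3 h4
    _ = ε := by ring

/-- every event is good -/
theorem good_all (hB : CBM P B) {F : Set (Cp × Cp)} (hF : MeasurableSet F) : Good hB F := by
  set C : Set (Set Cp) := (fun S : Set (ℝ≥0 → ℝ) => (Subtype.val ⁻¹' S : Set Cp)) ''
    measurableCylinders (fun _ : ℝ≥0 => ℝ) with hC
  have hgen : MeasurableSpace.generateFrom C = (inferInstance : MeasurableSpace Cp) := by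
    have h1 : (inferInstance : MeasurableSpace Cp) =
        MeasurableSpace.comap Subtype.val MeasurableSpace.pi := rfl
    rw [h1, ← generateFrom_measurableCylinders, MeasurableSpace.comap_generateFrom]
  have hpi : IsPiSystem C := by
    rintro _ ⟨S, hS, rfl⟩ _ ⟨T, hT, rfl⟩ _
    exact ⟨S ∩ T, inter_mem_measurableCylinders hS hT, rfl⟩
  have hspan : IsCountablySpanning C := by
    refine ⟨fun _ => univ, fun _ => ⟨univ, univ_mem_measurableCylinders _, rfl⟩, ?_⟩
    exact iUnion_const _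
  refine MeasurableSpace.induction_on_inter (C := fun F _ => Good hB F)
    (s := image2 (· ×ˢ ·) C C) (generateFrom_eq_prod hgen hgen hspan hspan).symm (hpi.prod hpi)
    (good_empty hB) ?_ (fun F hFm hF => good_compl hB hFm hF) ?_ F hF
  · rintro _ ⟨_, ⟨S, hS, rfl⟩, _, ⟨T, hT, rfl⟩, rfl⟩
    exact good_rect hB hS hT
  · intro f hd hfm hf ε hε
    set G : ℕ → Set (Cp × Cp) := fun n => ⋃ k ∈ Finset.range n, f k with hG
    have hGm : ∀ n, MeasurableSet (G n) := fun n =>
      Finset.measurableSet_biUnion _ fun k _ => hfm k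
    have hGgood : ∀ n, Good hB (G n) := by
      intro n
      induction n with
      | zero =>
        have : G 0 = ∅ := by simp [hG]
        rw [this]; exact good_empty hB
      | succ n ih =>
        have h1 : G (n + 1) = G n ∪ f n := by
          simp only [hG, Finset.range_add_one, Finset.set_biUnion_insert]
          rw [union_comm]
        rw [h1]
        refine good_union hB (hfm n) ?_ ih (hf n)
        rw [Set.disjoint_left]
        intro z hz1 hz2
        simp only [hG, mem_iUnion, Finset.mem_range] at hz1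
        obtain ⟨k, hk, hzk⟩ := hz1
        exact Set.disjoint_left.1 (hd (ne_of_lt hk)) hzk hz2
    have hGmono : Monotone G := by
      intro n n' hn z hz
      simp only [hG, mem_iUnion, Finset.mem_range] at hz ⊢
      obtain ⟨k, hk, hzk⟩ := hz
      exact ⟨k, by omega, hzk⟩
    have hGU : ⋃ n, G n = ⋃ k, f k := by
      ext z
      simp only [hG, mem_iUnion, Finset.mem_range]
      constructor
      · rintro ⟨n, k, _, h⟩; exact ⟨k, h⟩
      · rintro ⟨k, h⟩; exact ⟨k + 1, k, by omega, h⟩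
    set F' : Set (Cp × Cp) := ⋃ k, f k with hF'
    have hF'm : MeasurableSet F' := MeasurableSet.iUnion hfm
    have hlim : Tendsto (fun n => (PX hB).real (G n)) atTop (𝓝 ((PX hB).real F')) := by
      have h1 := tendsto_measure_iUnion_atTop (μ := PX hB) hGmono
      rw [hGU] at h1
      exact (ENNReal.tendsto_toReal (measure_ne_top _ _)).comp h1
    obtain ⟨n, hn⟩ := ((hlim.eventually (lt_mem_nhds (show (PX hB).real F' - ε / 3 <
      (PX hB).real F' by linarith)))).exists
    obtain ⟨i1, h1⟩ := hGgood n (ε / 3) (by positivity)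
    refine ⟨i1, fun i hi A hA => ?_⟩
    have h2 := h1 i hi A hA
    have hsub : G n ⊆ F' := by rw [← hGU]; exact subset_iUnion G n
    have hle : (PX hB).real (G n) ≤ (PX hB).real F' := measureReal_mono hsub
    have e1 : (JJ hB i).real (Prod.fst ⁻¹' F' ∩ Phi ⁻¹' A) -
        (JJ hB i).real (Prod.fst ⁻¹' (G n) ∩ Phi ⁻¹' A) ≤ (PX hB).real F' - (PX hB).real (G n) := by
      have e2 : (JJ hB i).real (Prod.fst ⁻¹' F' ∩ Phi ⁻¹' A) -
          (JJ hB i).real (Prod.fst ⁻¹' (G n) ∩ Phi ⁻¹' A) =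
          (JJ hB i).real ((Prod.fst ⁻¹' F' ∩ Phi ⁻¹' A) \ (Prod.fst ⁻¹' (G n) ∩ Phi ⁻¹' A)) := by
        rw [measureReal_diff]
        · exact inter_subset_inter_left _ (preimage_mono hsub)
        · exact (measurable_fst (hGm n)).inter (measurable_Phi hA)
      have e3 : (PX hB).real F' - (PX hB).real (G n) = (PX hB).real (F' \ G n) :=
        (measureReal_diff hsub (hGm n)).symm
      have e4 : (PX hB).real (F' \ G n) = (JJ hB i).real (Prod.fst ⁻¹' (F' \ G n)) := by
        have h5 : (JJ hB i) (Prod.fst ⁻¹' (F' \ G n)) = (PX hB) (F' \ G n) := by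
          rw [← Measure.map_apply measurable_fst (hF'm.diff (hGm n))]
          unfold JJ
          have h6 : (((mu hB).prod (mu hB)).prod (qq i)).map Prod.fst = (mu hB).prod (mu hB) :=
            Measure.map_fst_prod.trans (by simp)
          rw [h6]
        rw [measureReal_def, measureReal_def, h5]
      rw [e2, e3, e4]
      refine measureReal_mono ?_
      rintro z ⟨⟨hz1, hz2⟩, hz3⟩
      exact ⟨hz1, fun hz => hz3 ⟨hz, hz2⟩⟩
    have e1' : 0 ≤ (JJ hB i).real (Prod.fst ⁻¹' F' ∩ Phi ⁻¹' A) -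
        (JJ hB i).real (Prod.fst ⁻¹' (G n) ∩ Phi ⁻¹' A) := by
      rw [sub_nonneg]
      exact measureReal_mono (inter_subset_inter_left _ (preimage_mono hsub))
    have hWp : IsProbabilityMeasure (P.map (path B)) :=
      Measure.isProbabilityMeasure_map hB.mpath.aemeasurable
    have hW0 : 0 ≤ (P.map (path B)).real A := measureReal_nonneg
    have hW1 : (P.map (path B)).real A ≤ 1 := measureReal_le_one
    rw [abs_le] at h2 ⊢
    have h7 : 0 ≤ ((PX hB).real F' - (PX hB).real (G n)) * (P.map (path B)).real A :=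
      mul_nonneg (by linarith) hW0
    have h8 : ((PX hB).real F' - (PX hB).real (G n)) * (P.map (path B)).real A ≤
        (PX hB).real F' - (PX hB).real (G n) := by
      nlinarith
    constructor
    · nlinarith
    · nlinarith

/-- **random times before which nothing is seen**: for every `M` there is a random time
`h ≥ M` such that the forward path of the process seen from `-h` is a Brownian motion -/
theorem exists_time (hB : CBM P B) (M : ℝ≥0) :
    ∃ h : (Cp × Cp) × unitInterval → ℝ≥0, Measurable h ∧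
      ((PX hB).prod volume).map (fun z => Phi (z.1, h z)) = P.map (path B) ∧
      ∀ᵐ z ∂((PX hB).prod volume), M ≤ h z := by
  have hWp : IsProbabilityMeasure (P.map (path B)) :=
    Measure.isProbabilityMeasure_map hB.mpath.aemeasurable
  obtain ⟨h, h1, h2, h3⟩ := exists_random (PX hB) (P.map (path B)) Phi measurable_Phi (Ici M)
    measurableSet_Ici (by
      intro F hF ε hε
      obtain ⟨i₀, hi₀⟩ := good_all hB hF ε hε
      obtain ⟨i1, hi1⟩ := exists_nat_ge M
      set i := max i₀ i1 with hi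
      refine ⟨qq i, inferInstance, ?_, fun A hA => ?_⟩
      · rw [compl_Ici]
        refine qq_Iio (hi1.trans ?_)
        have h4 : i1 ≤ i := le_max_right _ _
        exact_mod_cast h4.trans (le_N i)
      · have h4 := hi₀ i (le_max_left _ _) A hA
        have h5 : ((PX hB).restrict F).prod (qq i) = (JJ hB i).restrict (F ×ˢ univ) := by
          unfold JJ
          rw [← Measure.prod_restrict, Measure.restrict_univ]
        have h6 : (((PX hB).restrict F).prod (qq i)) (Phi ⁻¹' A) =
            JJ hB i (Prod.fst ⁻¹' F ∩ Phi ⁻¹' A) := by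
          rw [h5, Measure.restrict_apply (measurable_Phi hA)]
          congr 1
          ext z
          simp only [mem_inter_iff, mem_prod, mem_univ, and_true, mem_preimage]
          exact and_comm
        rw [h6]
        have h7 : PX hB F * P.map (path B) A =
            ENNReal.ofReal ((PX hB).real F * (P.map (path B)).real A) := by
          rw [ENNReal.ofReal_mul measureReal_nonneg, ofReal_measureReal, ofReal_measureReal]
        rw [h7, ← ofReal_measureReal (μ := JJ hB i), ← ENNReal.ofReal_add measureReal_nonneg hε.le]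
        refine ENNReal.ofReal_le_ofReal ?_
        have := (abs_le.1 h4).1
        linarith)
  exact ⟨h, h1, h2, h3⟩

end

end Pool.Agent.V11330.TB
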