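import Pool.Agent.V11330.TB.Int

set_option autoImplicit false

open Set Filter Topology MeasureTheory ProbabilityTheory
open scoped NNReal ENNReal

namespace Pool.Agent.V11330.TB

open Pool.Agent.TH970

section
variable {Ω : Type*} [MeasurableSpace Ω] {P : Measure Ω} [IsProbabilityMeasure P]
  {B : ℝ≥0 → Ω → ℝ}

lemma avg_bound {K : ℕ} (hK : 0 < K) {d : ℕ → Ω → ℝ} {c C : ℝ}
    (hL : ∀ k < K, MemLp (d k) 2 P) (h1 : ∀ k < K, ∫ ω, d k ω ∂P = c)
    (h2 : ∀ j < K, ∀ k < K, j ≠ k → ∫ ω, d j ω * d k ω ∂P = c * c)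
    (h3 : ∀ k < K, ∫ ω, d k ω * d k ω ∂P ≤ C) {ε : ℝ} (hε : 0 < ε) (hKC : C ≤ ε ^ 2 * K) :
    Integrable (fun ω => (∑ k ∈ Finset.range K, d k ω) / K - c) P ∧
      ∫ ω, |(∑ k ∈ Finset.range K, d k ω) / K - c| ∂P ≤ ε := by
  have hK' : (0 : ℝ) < K := by exact_mod_cast hK
  have hC0 : 0 ≤ C := (integral_nonneg fun ω => mul_self_nonneg (d 0 ω)).trans (h3 0 hK)
  have hint : ∀ k < K, Integrable (d k) P := fun k hk => (hL k hk).integrable (by norm_num)
  have hprod : ∀ j < K, ∀ k < K, Integrable (fun ω => d j ω * d k ω) P := fun j hj k hk =>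
    (hL j hj).integrable_mul (hL k hk)
  have e1 : ∀ j < K, ∀ k < K, ∫ ω, (d j ω - c) * (d k ω - c) ∂P =
      ∫ ω, d j ω * d k ω ∂P - c * c := by
    intro j hj k hk
    have e2 : ∀ ω, (d j ω - c) * (d k ω - c) = d j ω * d k ω - c * d k ω - c * d j ω + c * c :=
      fun ω => by ring
    simp only [e2]
    have i1 : Integrable (fun ω => d j ω * d k ω) P := hprod j hj k hk
    have i2 : Integrable (fun ω => c * d k ω) P := (hint k hk).const_mul c
    have i3 : Integrable (fun ω => c * d j ω) P := (hint j hj).const_mul c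
    have i4 : Integrable (fun ω => d j ω * d k ω - c * d k ω) P := i1.sub i2
    have i5 : Integrable (fun ω => d j ω * d k ω - c * d k ω - c * d j ω) P := i4.sub i3
    rw [integral_add i5 (integrable_const _), integral_sub i4 i3, integral_sub i1 i2,
      integral_const_mul, integral_const_mul, h1 k hk, h1 j hj, integral_const, probReal_univ,
      one_smul]
    ring
  have hL' : ∀ k < K, MemLp (fun ω => d k ω - c) 2 P := fun k hk =>
    (hL k hk).sub (memLp_const c)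
  have hprod' : ∀ j < K, ∀ k < K, Integrable (fun ω => (d j ω - c) * (d k ω - c)) P :=
    fun j hj k hk => (hL' j hj).integrable_mul (hL' k hk)
  have hS : ∀ ω, (∑ k ∈ Finset.range K, d k ω) / K - c =
      (∑ k ∈ Finset.range K, (d k ω - c)) / K := by
    intro ω
    rw [Finset.sum_sub_distrib, Finset.sum_const, Finset.card_range, nsmul_eq_mul]
    field_simp
  simp only [hS]
  have hSint : Integrable (fun ω => (∑ k ∈ Finset.range K, (d k ω - c)) / K) P := by
    refine Integrable.div_const ?_ _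
    exact integrable_finsetSum _ fun k hk => (hint k (Finset.mem_range.1 hk)).sub
      (integrable_const c)
  have hSq : ∀ ω, ((∑ k ∈ Finset.range K, (d k ω - c)) / K) ^ 2 =
      (∑ j ∈ Finset.range K, ∑ k ∈ Finset.range K, (d j ω - c) * (d k ω - c)) / K ^ 2 := by
    intro ω
    rw [div_pow, sq, Finset.sum_mul_sum]
  have hSqint : Integrable (fun ω => ((∑ k ∈ Finset.range K, (d k ω - c)) / K) ^ 2) P := by
    simp only [hSq]
    refine Integrable.div_const ?_ _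
    exact integrable_finsetSum _ fun j hj => integrable_finsetSum _ fun k hk =>
      hprod' j (Finset.mem_range.1 hj) k (Finset.mem_range.1 hk)
  have hE2 : ∫ ω, ((∑ k ∈ Finset.range K, (d k ω - c)) / K) ^ 2 ∂P ≤ ε ^ 2 := by
    simp only [hSq]
    rw [integral_div, integral_finsetSum _ fun j hj => integrable_finsetSum _ fun k hk =>
      hprod' j (Finset.mem_range.1 hj) k (Finset.mem_range.1 hk)]
    have e3 : ∀ j ∈ Finset.range K, ∫ ω, ∑ k ∈ Finset.range K, (d j ω - c) * (d k ω - c) ∂P ≤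
        C := by
      intro j hj
      have hj' := Finset.mem_range.1 hj
      rw [integral_finsetSum _ fun k hk => hprod' j hj' k (Finset.mem_range.1 hk)]
      have e4 : ∀ k ∈ Finset.range K, ∫ ω, (d j ω - c) * (d k ω - c) ∂P ≤
          if k = j then C else 0 := by
        intro k hk
        have hk' := Finset.mem_range.1 hk
        rw [e1 j hj' k hk']
        split_ifs with h
        · subst h
          have := h3 k hk'
          nlinarith [mul_self_nonneg c]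
        · rw [h2 j hj' k hk' fun hh => h hh.symm]
          simp
      refine (Finset.sum_le_sum e4).trans ?_
      rw [Finset.sum_ite_eq' (Finset.range K) j, if_pos hj]
    calc (∑ j ∈ Finset.range K, ∫ ω, ∑ k ∈ Finset.range K, (d j ω - c) * (d k ω - c) ∂P) / K ^ 2
        ≤ (∑ j ∈ Finset.range K, C) / K ^ 2 := by
          exact div_le_div_of_nonneg_right (Finset.sum_le_sum e3) (by positivity)
      _ = C / K := by
        rw [Finset.sum_const, Finset.card_range, nsmul_eq_mul, sq, mul_div_mul_left _ _ hK'.ne']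
      _ ≤ ε ^ 2 := by
        rw [div_le_iff₀ hK']
        exact hKC
  refine ⟨hSint, ?_⟩
  have hpt : ∀ ω, |(∑ k ∈ Finset.range K, (d k ω - c)) / K| ≤
      ε / 2 + ((∑ k ∈ Finset.range K, (d k ω - c)) / K) ^ 2 / (2 * ε) := by
    intro ω
    set s := (∑ k ∈ Finset.range K, (d k ω - c)) / K
    have h4 : 0 ≤ (|s| - ε) ^ 2 := sq_nonneg _
    have h5 : |s| ^ 2 = s ^ 2 := sq_abs s
    have h6 : ε / 2 + s ^ 2 / (2 * ε) - |s| = (|s| - ε) ^ 2 / (2 * ε) := by
      field_simp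
      rw [← h5]
      ring
    have h7 : 0 ≤ (|s| - ε) ^ 2 / (2 * ε) := by positivity
    linarith
  calc ∫ ω, |(∑ k ∈ Finset.range K, (d k ω - c)) / K| ∂P
      ≤ ∫ ω, (ε / 2 + ((∑ k ∈ Finset.range K, (d k ω - c)) / K) ^ 2 / (2 * ε)) ∂P :=
        integral_mono hSint.abs ((integrable_const _).add (hSqint.div_const _)) hpt
    _ = ε / 2 + (∫ ω, ((∑ k ∈ Finset.range K, (d k ω - c)) / K) ^ 2 ∂P) / (2 * ε) := by
      have h8 : ∫ ω, ((∑ k ∈ Finset.range K, (d k ω - c)) / K) ^ 2 / (2 * ε) ∂P =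
        (∫ ω, ((∑ k ∈ Finset.range K, (d k ω - c)) / K) ^ 2 ∂P) / (2 * ε) := integral_div _ _
      rw [integral_add (integrable_const _) (hSqint.div_const _), h8, integral_const,
        probReal_univ, one_smul]
    _ ≤ ε / 2 + ε ^ 2 / (2 * ε) := by gcongr
    _ = ε := by field_simp; ring

lemma ZZ_le (i m : ℕ) {F1 F2 : (ℝ≥0 → ℝ) → ℝ≥0∞} (h1 : ∀ x, F1 x ≤ 1) (h2 : ∀ x, F2 x ≤ 1)
    (u : ℝ≥0) (x : ℝ≥0 → ℝ) : ZZ i m F1 F2 u x ≤ 2 ^ i * 2 ^ (i + m) := by
  have hDW : ∀ J y, DW J y ≤ 2 ^ J := by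
    intro J y
    unfold DW
    calc ∏ j ∈ Finset.range J, wt (j + 1) y ≤ ∏ j ∈ Finset.range J, 2 :=
          Finset.prod_le_prod' fun j _ => wt_le _ _
      _ = 2 ^ J := by simp
  unfold ZZ
  calc (DW i (bw u x) * F1 (bw u x)) * (DW (i + m) (fw u x) * F2 (fw u x))
      ≤ (2 ^ i * 1) * (2 ^ (i + m) * 1) := by
        gcongr
        · exact hDW _ _
        · exact h1 _
        · exact hDW _ _
        · exact h2 _
    _ = _ := by ring

lemma DD_le (i m : ℕ) {F1 F2 : (ℝ≥0 → ℝ) → ℝ≥0∞} (h1 : ∀ x, F1 x ≤ 1) (h2 : ∀ x, F2 x ≤ 1)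
    (s : ℝ≥0) (x : ℝ≥0 → ℝ) : DD i m F1 F2 s x ≤ 2 ^ i * 2 ^ (i + m) := by
  unfold DD
  calc _ ≤ ∫⁻ _v : ℝ, 2 ^ i * 2 ^ (i + m) ∂lam := lintegral_mono fun v => ZZ_le i m h1 h2 _ x
    _ = _ := by simp

omit [IsProbabilityMeasure P] in
lemma cc_le [IsProbabilityMeasure P] {F1 F2 : (ℝ≥0 → ℝ) → ℝ≥0∞} (h1 : ∀ x, F1 x ≤ 1)
    (h2 : ∀ x, F2 x ≤ 1) : cc P B F1 F2 ≤ 1 := by
  unfold cc
  calc _ ≤ (∫⁻ _ω : Ω, 1 ∂P) * ∫⁻ _ω : Ω, 1 ∂P :=
        mul_le_mul' (lintegral_mono fun ω => h1 _) (lintegral_mono fun ω => h2 _)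
    _ = 1 := by simp

/-- **the averaged weights are close to their mean** -/
theorem avg_close (hB : CBM P B) {i m : ℕ} {F1 F2 : (ℝ≥0 → ℝ) → ℝ≥0∞}
    (h1m : Measurable F1) (h2m : Measurable F2) (h1 : Dep (N i) F1) (h2 : Dep (N i) F2)
    (h1' : ∀ x, F1 x ≤ 1) (h2' : ∀ x, F2 x ≤ 1) {ε : ℝ} (hε : 0 < ε)
    (hi : 16 ^ i * 5 ≤ ε ^ 2 * 32 ^ i) (A : Set Ω) :
    |(∑ k ∈ Finset.range (32 ^ i), (∫⁻ ω in A, DD i m F1 F2 (st i k) (path B ω) ∂P).toReal) /
      (32 ^ i : ℕ) - (cc P B F1 F2).toReal * P.real A| ≤ ε := by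
  set K : ℕ := 32 ^ i with hK
  have hKpos : 0 < K := by positivity
  set D : ℕ → Ω → ℝ≥0∞ := fun k ω => DD i m F1 F2 (st i k) (path B ω) with hD
  have hDm : ∀ k, Measurable (D k) := fun k => measurable_DD hB i m h1m h2m (st i k)
  have hCfin : (2 : ℝ≥0∞) ^ i * 2 ^ (i + m) ≠ ∞ :=
    ENNReal.mul_ne_top (ENNReal.pow_ne_top (by norm_num)) (ENNReal.pow_ne_top (by norm_num))
  have hDle : ∀ k ω, D k ω ≤ 2 ^ i * 2 ^ (i + m) := fun k ω => DD_le i m h1' h2' _ _
  have hDfin : ∀ k ω, D k ω ≠ ∞ := fun k ω => ne_top_of_le_ne_top hCfin (hDle k ω)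
  set d : ℕ → Ω → ℝ := fun k ω => (D k ω).toReal with hd
  have hdm : ∀ k, Measurable (d k) := fun k => (hDm k).ennreal_toReal
  have hdL : ∀ k, MemLp (d k) 2 P := by
    intro k
    refine MemLp.of_bound (hdm k).aestronglyMeasurable ((2 ^ i * 2 ^ (i + m) : ℝ≥0∞).toReal)
      (ae_of_all _ fun ω => ?_)
    rw [Real.norm_of_nonneg ENNReal.toReal_nonneg]
    exact ENNReal.toReal_mono hCfin (hDle k ω)
  have hdint : ∀ k, Integrable (d k) P := fun k => (hdL k).integrable (by norm_num)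
  set c : ℝ := (cc P B F1 F2).toReal with hc
  have hccfin : cc P B F1 F2 ≠ ∞ := ne_top_of_le_ne_top ENNReal.one_ne_top (cc_le h1' h2')
  have e1 : ∀ k < K, ∫ ω, d k ω ∂P = c := by
    intro k hk
    rw [hc, ← mean_DD hB hk h1m h2m h1 h2 (m := m)]
    exact integral_toReal (hDm k).aemeasurable (ae_of_all _ fun ω => (hDfin k ω).lt_top)
  have hmul : ∀ j k, ∫ ω, d j ω * d k ω ∂P = (∫⁻ ω, D j ω * D k ω ∂P).toReal := by
    intro j k
    have hm2 : Measurable fun ω => D j ω * D k ω := (hDm j).mul (hDm k)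
    rw [← integral_toReal hm2.aemeasurable
      (ae_of_all _ fun ω => (ENNReal.mul_ne_top (hDfin j ω) (hDfin k ω)).lt_top)]
    refine integral_congr_ae (ae_of_all _ fun ω => ?_)
    simp only [hd, ENNReal.toReal_mul]
  have e2 : ∀ j < K, ∀ k < K, j ≠ k → ∫ ω, d j ω * d k ω ∂P = c * c := by
    intro j hj k hk hjk
    rw [hmul, hc, ← ENNReal.toReal_mul]
    congr 1
    rcases lt_or_gt_of_ne hjk with h | h
    · exact far_DD hB hk h h1m h2m h1 h2
    · rw [← far_DD hB (m := m) hj h h1m h2m h1 h2]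
      exact lintegral_congr fun ω => mul_comm _ _
  have e3 : ∀ k < K, ∫ ω, d k ω * d k ω ∂P ≤ 16 ^ i * 5 := by
    intro k hk
    rw [hmul]
    have h4 := same_DD hB (m := m) hk h1m h2m h1' h2'
    have h5 : ((16 : ℝ≥0∞) ^ i * 5).toReal = 16 ^ i * 5 := by
      rw [ENNReal.toReal_mul, ENNReal.toReal_pow]; norm_num
    rw [← h5]
    exact ENNReal.toReal_mono (ENNReal.mul_ne_top (ENNReal.pow_ne_top (by norm_num))
      (by norm_num)) h4
  obtain ⟨hSint, hS⟩ := avg_bound hKpos (fun k _ => hdL k) e1 e2 e3 hε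
    (by rw [hK]; push_cast; exact hi)
  have e4 : ∀ k, (∫⁻ ω in A, DD i m F1 F2 (st i k) (path B ω) ∂P).toReal = ∫ ω in A, d k ω ∂P := by
    intro k
    exact (integral_toReal (hDm k).aemeasurable (ae_of_all _ fun ω => (hDfin k ω).lt_top)).symm
  simp only [e4]
  have e5 : (∑ k ∈ Finset.range K, ∫ ω in A, d k ω ∂P) / K - c * P.real A =
      ∫ ω in A, ((∑ k ∈ Finset.range K, d k ω) / K - c) ∂P := by
    rw [integral_sub, integral_div, integral_finsetSum _ fun k _ => (hdint k).integrableOn]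
    · simp [mul_comm]
    · exact ((integrable_finsetSum _ fun k _ => hdint k).div_const _).integrableOn
    · exact integrable_const _
  rw [e5]
  calc |∫ ω in A, ((∑ k ∈ Finset.range K, d k ω) / K - c) ∂P|
      ≤ ∫ ω in A, |(∑ k ∈ Finset.range K, d k ω) / K - c| ∂P := abs_integral_le_integral_abs
    _ ≤ ∫ ω, |(∑ k ∈ Finset.range K, d k ω) / K - c| ∂P :=
      setIntegral_le_integral hSint.abs (ae_of_all _ fun ω => abs_nonneg _)
    _ ≤ ε := hS

end

end Pool.Agent.V11330.TB
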