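import Pool.Agent.V11330.TB.Fwd

set_option autoImplicit false

open Set Filter Topology MeasureTheory ProbabilityTheory
open scoped NNReal ENNReal

namespace Pool.Agent.V11330.TB

open Pool.Agent.TH970

lemma hi_le_lo {i : ℕ} {v v' : ℝ≥0} (hv : v + (N i + 1) ≤ N (i + 1)) {j k : ℕ} (hjk : j < k) :
    hi i v j ≤ lo i v' k := by
  obtain ⟨k, rfl⟩ : ∃ k', k = k' + 1 := ⟨k - 1, by omega⟩
  cases j with
  | zero =>
    have h1 : (N (i + 1) : ℝ≥0) ≤ N (i + k + 1) := by exact_mod_cast N_mono (by omega)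
    exact (hv.trans h1).trans le_add_self
  | succ j =>
    have h1 : v + 1 ≤ (N (i + 1) : ℝ≥0) := by
      refine le_trans ?_ hv
      gcongr
      exact le_add_self
    have h2 : N (i + 1) + N (i + j + 1) ≤ N (i + k + 1) := by
      have h3 : N (i + 1) ≤ N (i + j + 1) := N_mono (by omega)
      have h4 : N (i + j + 1 + 1) ≤ N (i + k + 1) := N_mono (by omega)
      have h5 := N_step (i + j + 1)
      omega
    have h2' : (N (i + 1) : ℝ≥0) + N (i + j + 1) ≤ N (i + k + 1) := by exact_mod_cast h2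
    show v + N (i + j + 1) + el (i + j + 1) ≤ v' + N (i + k + 1)
    calc v + N (i + j + 1) + el (i + j + 1) ≤ v + N (i + j + 1) + 1 := by
          gcongr; exact el_le_one _
      _ = (v + 1) + N (i + j + 1) := by ring
      _ ≤ N (i + 1) + N (i + j + 1) := by gcongr
      _ ≤ N (i + k + 1) := h2'
      _ ≤ _ := le_add_self

section
variable {Ω : Type*} [MeasurableSpace Ω] {P : Measure Ω} [IsProbabilityMeasure P]
  {B : ℝ≥0 → Ω → ℝ}

/-- independence of the weights seen from two distant sites -/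
theorem far_sites (hB : CBM P B) {i m : ℕ} {F1 F2 : (ℝ≥0 → ℝ) → ℝ≥0∞} (h1m : Measurable F1)
    (h2m : Measurable F2) (h1 : Dep (N i) F1) (h2 : Dep (N i) F2) {u u' : ℝ≥0}
    (hu : (N i : ℝ≥0) + 1 ≤ u) (huu : u + 2 * (N i + 1) ≤ u') (hu' : u' + (N i + 1) ≤ N (i + 1)) :
    ∫⁻ ω, ZZ i m F1 F2 u (path B ω) * ZZ i m F1 F2 u' (path B ω) ∂P =
      (∫⁻ ω, ZZ i m F1 F2 u (path B ω) ∂P) * ∫⁻ ω, ZZ i m F1 F2 u' (path B ω) ∂P := by
  set uu : Bool → ℝ≥0 := fun b => if b then u' else u with huudef
  have hle : u ≤ u' := le_self_add.trans huu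
  have hun : ∀ b, (N i : ℝ≥0) + 1 ≤ uu b := by
    intro b
    cases b
    · exact hu
    · exact hu.trans hle
  have hup : ∀ b, uu b + (N i + 1) ≤ N (i + 1) := by
    intro b
    cases b
    · exact (add_le_add hle le_rfl).trans hu'
    · exact hu'
  have hind := iIndep_cl hB (ι := Bool × ℕ) (fun p => lo i (uu p.1) p.2) (fun p => hi i (uu p.1) p.2)
    (fun p => lo_le_hi i _ _) ?_
  swap
  · have hsame : ∀ j, hi i u j ≤ lo i u' j := by
      intro j
      cases j with
      | zero =>
        refine le_tsub_of_add_le_right ?_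
        calc u + (N i + 1) + (N i + 1) = u + 2 * (N i + 1) := by ring
          _ ≤ u' := huu
      | succ j =>
        show u + N (i + j + 1) + el (i + j + 1) ≤ u' + N (i + j + 1)
        calc u + N (i + j + 1) + el (i + j + 1) ≤ u + N (i + j + 1) + 1 := by
              gcongr; exact el_le_one _
          _ = (u + 1) + N (i + j + 1) := by ring
          _ ≤ u' + N (i + j + 1) := by
            gcongr
            refine le_trans ?_ huu
            gcongr
            calc (1 : ℝ≥0) ≤ 2 * 1 := by norm_num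
              _ ≤ 2 * (N i + 1) := by gcongr; exact le_add_self
    rintro ⟨b, j⟩ ⟨b', k⟩ hne
    rcases lt_trichotomy j k with h | h | h
    · exact Or.inl (hi_le_lo (hup b) h)
    · subst h
      have hbb : b ≠ b' := fun h => hne (by rw [h])
      cases b <;> cases b'
      · exact absurd rfl hbb
      · exact Or.inl (hsame j)
      · exact Or.inr (hsame j)
      · exact absurd rfl hbb
    · exact Or.inr (hi_le_lo (hup b') h)
  have hG : iIndepFun (fun (p : Bool × ℕ) ω => GG i F1 F2 (uu p.1) p.2 (path B ω)) P := by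
    have h3 := hind.comp (fun p => GG i F1 F2 (uu p.1) p.2) fun p => measurable_GG i h1m h2m _ _
    refine h3.congr fun p => ae_of_all _ fun ω => ?_
    exact GG_cl h1 h2 (hun p.1) p.2 (path B ω)
  have hGm : ∀ p : Bool × ℕ, Measurable fun ω => GG i F1 F2 (uu p.1) p.2 (path B ω) := fun p =>
    (measurable_GG i h1m h2m _ _).comp hB.mpath
  have hfull := lintegral_prod_eq_prod_lintegral_of_indepFun
    ((Finset.univ : Finset Bool) ×ˢ Finset.range (m + 1)) _ hG hGm
  have hb : ∀ b : Bool, ∫⁻ ω, ZZ i m F1 F2 (uu b) (path B ω) ∂P =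
      ∏ j ∈ Finset.range (m + 1), ∫⁻ ω, GG i F1 F2 (uu b) j (path B ω) ∂P := by
    intro b
    have h4 := lintegral_prod_eq_prod_lintegral_of_indepFun
      (({b} : Finset Bool) ×ˢ Finset.range (m + 1)) _ hG hGm
    simp only [Finset.prod_product, Finset.prod_singleton] at h4
    simp only [ZZ_eq]
    exact h4
  simp only [Finset.prod_product, Fintype.prod_bool] at hfull
  have e1 := hb true
  have e2 := hb false
  simp only [huudef, if_true, Bool.false_eq_true, if_false] at e1 e2 hfull
  rw [e1, e2, mul_comm, ← hfull]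
  refine lintegral_congr fun ω => ?_
  rw [ZZ_eq, ZZ_eq, mul_comm]

lemma wt_fw (j : ℕ) (u : ℝ≥0) (x : ℝ≥0 → ℝ) :
    wt j (fw u x) = 2 * ({x : ℝ≥0 → ℝ | x (u + N j) < x (u + N j + el j)}.indicator 1 x) := by
  unfold wt fw
  rw [← add_assoc]
  simp only [sub_lt_sub_iff_right]
  by_cases h : x (u + N j) < x (u + N j + el j)
  · have h' : x ∈ {x : ℝ≥0 → ℝ | x (u + N j) < x (u + N j + el j)} := h
    rw [if_pos h, indicator_of_mem h']; simp
  · have h' : x ∉ {x : ℝ≥0 → ℝ | x (u + N j) < x (u + N j + el j)} := h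
    rw [if_neg h, indicator_of_notMem h']; simp

lemma lintegral_wt (hB : CBM P B) (j : ℕ) (u : ℝ≥0) : ∫⁻ ω, wt j (fw u (path B ω)) ∂P = 1 := by
  have hS : MeasurableSet {x : ℝ≥0 → ℝ | x (u + N j) < x (u + N j + el j)} :=
    measurableSet_lt (measurable_pi_apply _) (measurable_pi_apply _)
  simp only [wt_fw]
  have hm : Measurable fun ω => {x : ℝ≥0 → ℝ | x (u + N j) < x (u + N j + el j)}.indicator
      (1 : (ℝ≥0 → ℝ) → ℝ≥0∞) (path B ω) := (measurable_one.indicator hS).comp hB.mpath
  rw [lintegral_const_mul _ hm]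
  have h1 : ∫⁻ ω, {x : ℝ≥0 → ℝ | x (u + N j) < x (u + N j + el j)}.indicator 1 (path B ω) ∂P =
      P {ω | B (u + N j) ω < B (u + N j + el j) ω} := by
    rw [← lintegral_map (measurable_one.indicator hS) hB.mpath, lintegral_indicator_one hS,
      Measure.map_apply hB.mpath hS]
    rfl
  rw [h1, half hB (lt_add_of_pos_right _ (el_pos j))]
  rw [ENNReal.mul_div_cancel (by norm_num) (by norm_num)]

lemma lintegral_wt_wt (hB : CBM P B) (j : ℕ) {u u' : ℝ≥0} (huu : u ≤ u') :
    ∫⁻ ω, wt j (fw u (path B ω)) * wt j (fw u' (path B ω)) ∂P ≤ if u' < u + el j then 2 else 1 := by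
  split_ifs with h
  · calc ∫⁻ ω, wt j (fw u (path B ω)) * wt j (fw u' (path B ω)) ∂P
        ≤ ∫⁻ ω, wt j (fw u (path B ω)) * 2 ∂P := by
          refine lintegral_mono fun ω => ?_
          exact mul_le_mul_right (wt_le j _) _
      _ = 2 := by
        have hm : Measurable fun ω => wt j (fw u (path B ω)) :=
          ((measurable_wt j).comp (measurable_fw u)).comp hB.mpath
        rw [lintegral_mul_const _ hm, lintegral_wt hB, one_mul]
  · push Not at h
    have hS : ∀ v, MeasurableSet {x : ℝ≥0 → ℝ | x (v + N j) < x (v + N j + el j)} := fun v =>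
      measurableSet_lt (measurable_pi_apply _) (measurable_pi_apply _)
    have h1 : ∀ x : ℝ≥0 → ℝ, wt j (fw u x) * wt j (fw u' x) =
        4 * (({x : ℝ≥0 → ℝ | x (u + N j) < x (u + N j + el j)} ∩
          {x : ℝ≥0 → ℝ | x (u' + N j) < x (u' + N j + el j)}).indicator 1 x) := by
      intro x
      rw [wt_fw, wt_fw, inter_indicator_one, Pi.mul_apply]
      ring
    simp only [h1]
    have hm : Measurable fun ω => ({x : ℝ≥0 → ℝ | x (u + N j) < x (u + N j + el j)} ∩
          {x : ℝ≥0 → ℝ | x (u' + N j) < x (u' + N j + el j)}).indicator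
          (1 : (ℝ≥0 → ℝ) → ℝ≥0∞) (path B ω) :=
      (measurable_one.indicator ((hS u).inter (hS u'))).comp hB.mpath
    rw [lintegral_const_mul _ hm,
      ← lintegral_map (measurable_one.indicator ((hS u).inter (hS u'))) hB.mpath,
      lintegral_indicator_one ((hS u).inter (hS u')),
      Measure.map_apply hB.mpath ((hS u).inter (hS u'))]
    have h2 := prob_windows hB (Finset.univ : Finset Bool)
      (fun b => (if b then u' else u) + N j) (fun b => (if b then u' else u) + N j + el j)
      (fun b _ => lt_add_of_pos_right _ (el_pos j)) ?_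
    swap
    · have h3 : u + N j + el j ≤ u' + N j := by
        calc u + N j + el j = (u + el j) + N j := by ring
          _ ≤ _ := by gcongr
      intro b _ b' _ hbb
      cases b <;> cases b'
      · exact absurd rfl hbb
      · exact Or.inl h3
      · exact Or.inr h3
      · exact absurd rfl hbb
    have h4 : path B ⁻¹' ({x : ℝ≥0 → ℝ | x (u + N j) < x (u + N j + el j)} ∩
        {x : ℝ≥0 → ℝ | x (u' + N j) < x (u' + N j + el j)}) =
        ⋂ b ∈ (Finset.univ : Finset Bool), {ω | B ((if b then u' else u) + N j) ω <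
          B ((if b then u' else u) + N j + el j) ω} := by
      ext ω
      simp only [mem_preimage, mem_inter_iff, mem_ofPred_eq, Finset.mem_univ, iInter_true,
        mem_iInter, Bool.forall_bool, if_true, Bool.false_eq_true, if_false]
      exact Iff.rfl
    rw [h4, h2]
    rw [Finset.card_univ, Fintype.card_bool]
    rw [show (4 : ℝ≥0∞) = 2 * 2 by norm_num, show ((1 : ℝ≥0∞) / 2) ^ 2 = 1 / 2 * (1 / 2) by ring]
    calc (2 : ℝ≥0∞) * 2 * (1 / 2 * (1 / 2)) = (2 * (1 / 2)) * (2 * (1 / 2)) := by ring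
      _ ≤ 1 := by
        rw [ENNReal.mul_div_cancel (by norm_num) (by norm_num), one_mul]

/-- the second moment for two points of the same site -/
theorem same_site (hB : CBM P B) {i m : ℕ} {F1 F2 : (ℝ≥0 → ℝ) → ℝ≥0∞}
    (h1 : ∀ x, F1 x ≤ 1) (h2 : ∀ x, F2 x ≤ 1) {u u' : ℝ≥0}
    (huu : u ≤ u') (hu' : u' + (N i + 1) ≤ N (i + 1)) :
    ∫⁻ ω, ZZ i m F1 F2 u (path B ω) * ZZ i m F1 F2 u' (path B ω) ∂P ≤
      16 ^ i * ∏ j ∈ Finset.range m, if u' < u + el (i + j + 1) then 2 else 1 := by
  have hDW : ∀ x, DW i x ≤ 2 ^ i := by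
    intro x
    unfold DW
    calc ∏ j ∈ Finset.range i, wt (j + 1) x ≤ ∏ j ∈ Finset.range i, 2 :=
          Finset.prod_le_prod' fun j _ => wt_le _ _
      _ = 2 ^ i := by simp
  have hZ : ∀ v x, ZZ i m F1 F2 v x ≤ 4 ^ i * ∏ j ∈ Finset.range m, wt (i + j + 1) (fw v x) := by
    intro v x
    have e1 : DW (i + m) (fw v x) = DW i (fw v x) *
        ∏ j ∈ Finset.range m, wt (i + j + 1) (fw v x) := by
      unfold DW
      rw [Finset.prod_range_add]
    unfold ZZ
    rw [e1]
    calc (DW i (bw v x) * F1 (bw v x)) *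
          (DW i (fw v x) * (∏ j ∈ Finset.range m, wt (i + j + 1) (fw v x)) * F2 (fw v x))
        ≤ (2 ^ i * 1) * (2 ^ i * (∏ j ∈ Finset.range m, wt (i + j + 1) (fw v x)) * 1) := by
          gcongr
          · exact hDW _
          · exact h1 _
          · exact hDW _
          · exact h2 _
      _ = (2 ^ i * 2 ^ i) * ∏ j ∈ Finset.range m, wt (i + j + 1) (fw v x) := by ring
      _ = _ := by
        rw [← mul_pow]; norm_num
  have hle : ∫⁻ ω, ZZ i m F1 F2 u (path B ω) * ZZ i m F1 F2 u' (path B ω) ∂P ≤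
      ∫⁻ ω, 16 ^ i * ∏ j ∈ Finset.range m, (wt (i + j + 1) (fw u (path B ω)) *
        wt (i + j + 1) (fw u' (path B ω))) ∂P := by
    refine lintegral_mono fun ω => ?_
    calc ZZ i m F1 F2 u (path B ω) * ZZ i m F1 F2 u' (path B ω)
        ≤ (4 ^ i * ∏ j ∈ Finset.range m, wt (i + j + 1) (fw u (path B ω))) *
          (4 ^ i * ∏ j ∈ Finset.range m, wt (i + j + 1) (fw u' (path B ω))) :=
          mul_le_mul' (hZ _ _) (hZ _ _)
      _ = (4 ^ i * 4 ^ i) * ((∏ j ∈ Finset.range m, wt (i + j + 1) (fw u (path B ω))) *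
          ∏ j ∈ Finset.range m, wt (i + j + 1) (fw u' (path B ω))) := by ring
      _ = _ := by
        rw [← mul_pow, ← Finset.prod_mul_distrib]; norm_num
  refine hle.trans ?_
  -- independence of the pairs of windows
  have hind := iIndep_cl hB (ι := ℕ) (fun j => u + N (i + j + 1))
    (fun j => u' + N (i + j + 1) + el (i + j + 1))
    (fun j => (add_le_add huu le_rfl).trans le_self_add) ?_
  swap
  · have key : ∀ j k, j < k → u' + N (i + j + 1) + el (i + j + 1) ≤ u + N (i + k + 1) := by
      intro j k hjk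
      exact hi_le_lo (i := i) (v := u') (v' := u) hu' (j := j + 1) (k := k + 1) (by omega)
    intro j k hjk
    rcases lt_or_gt_of_ne hjk with h | h
    · exact Or.inl (key j k h)
    · exact Or.inr (key k j h)
  set g : ℕ → (ℝ≥0 → ℝ) → ℝ≥0∞ := fun j x =>
    wt (i + j + 1) (fw u x) * wt (i + j + 1) (fw u' x) with hg
  have hgm : ∀ j, Measurable (g j) := fun j =>
    ((measurable_wt _).comp (measurable_fw u)).mul ((measurable_wt _).comp (measurable_fw u'))
  have hgcl : ∀ j x, g j (cl (u + N (i + j + 1)) (u' + N (i + j + 1) + el (i + j + 1)) x) =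
      g j x := by
    intro j x
    have hv : ∀ v, u ≤ v → v ≤ u' →
        wt (i + j + 1) (fw v (cl (u + N (i + j + 1)) (u' + N (i + j + 1) + el (i + j + 1)) x)) =
        wt (i + j + 1) (fw v x) := by
      intro v hv1 hv2
      have hc1 : cl (u + N (i + j + 1)) (u' + N (i + j + 1) + el (i + j + 1)) x
          (v + N (i + j + 1)) = x (v + N (i + j + 1)) - x (u + N (i + j + 1)) :=
        cl_of_mem x (add_le_add hv1 le_rfl) ((add_le_add hv2 le_rfl).trans le_self_add)
      have hc2 : cl (u + N (i + j + 1)) (u' + N (i + j + 1) + el (i + j + 1)) x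
          (v + N (i + j + 1) + el (i + j + 1)) =
          x (v + N (i + j + 1) + el (i + j + 1)) - x (u + N (i + j + 1)) :=
        cl_of_mem x ((add_le_add hv1 le_rfl).trans le_self_add)
          (add_le_add (add_le_add hv2 le_rfl) le_rfl)
      unfold wt fw
      rw [← add_assoc, hc1, hc2]
      simp only [sub_lt_sub_iff_right]
    simp only [hg]
    rw [hv u le_rfl huu, hv u' huu le_rfl]
  have hG : iIndepFun (fun (j : ℕ) ω => g j (path B ω)) P := by
    have h3 := hind.comp g hgm
    refine h3.congr fun j => ae_of_all _ fun ω => ?_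
    exact hgcl j (path B ω)
  have hGm : ∀ j, Measurable fun ω => g j (path B ω) := fun j => (hgm j).comp hB.mpath
  have hprod := lintegral_prod_eq_prod_lintegral_of_indepFun (Finset.range m) _ hG hGm
  rw [lintegral_const_mul _ (Finset.measurable_prod _ fun j _ => hGm j), hprod]
  refine mul_le_mul_right (Finset.prod_le_prod' fun j _ => ?_) _
  exact lintegral_wt_wt hB (i + j + 1) huu

end

end Pool.Agent.V11330.TB
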